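import Pool.Agent.MP_5045a8_al.Kernel

/-! Permanence of the Haagerup property under co-amenable overgroups; GL(2,Z) and Z^2. -/

namespace Pool.Agent.MP_5045a8_al

open Finset Filter Topology

open Classical in
/-- Extension by zero of a function on a subgroup. -/
noncomputable def ext0 {Γ : Type} [Group Γ] (H : Subgroup Γ) (φ : H → ℝ) (g : Γ) : ℝ :=
  if h : g ∈ H then φ ⟨g, h⟩ else 0

theorem PD.ext0 {Γ : Type} [Group Γ] {H : Subgroup Γ} {φ : H → ℝ} (h : PD φ) :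
    PD (ext0 H φ) := by
  classical
  let β : Γ → H := fun g => ⟨(Quotient.out (QuotientGroup.mk g : Γ ⧸ H))⁻¹ * g, by
    rw [← QuotientGroup.eq]; simp⟩
  refine ((KP.delta.comp fun g : Γ => (QuotientGroup.mk g : Γ ⧸ H)).mul
    (KP.comp h β)).congr fun a b => ?_
  by_cases hab : a⁻¹ * b ∈ H
  · have e : (QuotientGroup.mk a : Γ ⧸ H) = QuotientGroup.mk b := QuotientGroup.eq.2 hab
    simp only [MP_5045a8_al.ext0, hab, dif_pos, e, if_true, one_mul]
    congr 1
    ext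
    simp [β, e, mul_assoc]
  · have e : (QuotientGroup.mk a : Γ ⧸ H) ≠ QuotientGroup.mk b := fun e =>
      hab (QuotientGroup.eq.1 e)
    simp [MP_5045a8_al.ext0, hab, e]

open Classical in
theorem HP.of_folner {Γ : Type} [Group Γ] {H : Subgroup Γ} (hH : HP H)
    (hF : ∀ (S : Finset Γ) (ε : ℝ), 0 < ε → ∃ T : Finset Γ, T.Nonempty ∧
      (∀ t ∈ T, ∀ t' ∈ T, t⁻¹ * t' ∈ H → t = t') ∧
      ∀ γ ∈ S, (1 - ε) * T.card ≤ (T.filter fun t => ∃ t' ∈ T, t⁻¹ * γ * t' ∈ H).card) :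
    HP Γ := by
  intro S ε hε
  wlog hε1 : ε < 1 generalizing ε
  · obtain ⟨φ, a, b, c, d, e⟩ := this (1 / 2) (by norm_num) (by norm_num)
    exact ⟨φ, a, b, c, d, fun g hg => by linarith [e g hg, not_lt.1 hε1]⟩
  obtain ⟨T, hT, hdis, hS⟩ := hF S (ε / 2) (by positivity)
  have hTc : (0 : ℝ) < T.card := by exact_mod_cast hT.card_pos
  let S' : Finset H := ((S ×ˢ T ×ˢ T).image fun p => p.2.1⁻¹ * p.1 * p.2.2).subtype (· ∈ H)
  obtain ⟨φ, hpd, h1, h0, hfin, hS'⟩ := hH S' (ε / 2) (by positivity)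
  have e0 : ∀ g, 0 ≤ ext0 H φ g := fun g => by
    unfold ext0; split_ifs; exacts [h0 _, le_rfl]
  refine ⟨fun g => (T.card : ℝ)⁻¹ * ∑ t ∈ T, ∑ t' ∈ T, ext0 H φ (t⁻¹ * g * t'), ?_, ?_,
    fun g => mul_nonneg (by positivity) (Finset.sum_nonneg fun _ _ =>
      Finset.sum_nonneg fun _ _ => e0 _), fun δ hδ => ?_, fun g hg => ?_⟩
  · refine KP.smul ⟨fun a b => ?_, fun ι _ x c => ?_⟩ (by positivity)
    · rw [Finset.sum_comm]
      refine Finset.sum_congr rfl fun t _ => Finset.sum_congr rfl fun t' _ => ?_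
      rw [← hpd.ext0.inv]; congr 1; group
    · have := hpd.ext0.2 (ι × T) (fun p => x p.1 * p.2) (fun p => c p.1)
      refine this.trans_eq ?_
      simp only [Fintype.sum_prod_type, Finset.mul_sum]
      refine Finset.sum_congr rfl fun i _ => ?_
      rw [Finset.sum_comm]
      refine Finset.sum_congr rfl fun j _ => ?_
      rw [← Finset.sum_coe_sort T]
      refine Finset.sum_congr rfl fun t _ => ?_
      rw [← Finset.sum_coe_sort T]
      refine Finset.sum_congr rfl fun t' _ => ?_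
      congr 2; group
  · have : ∀ t ∈ T, ∑ t' ∈ T, ext0 H φ (t⁻¹ * 1 * t') = 1 := by
      intro t ht
      rw [Finset.sum_eq_single t]
      · simp only [mul_one, inv_mul_cancel, ext0, H.one_mem, dif_pos]
        exact h1
      · intro t' ht' hne
        rw [mul_one, ext0, dif_neg fun hm => hne (hdis t ht t' ht' hm).symm]
      · exact fun h => (h ht).elim
    dsimp only
    rw [Finset.sum_congr rfl this]
    simp [hTc.ne']
  · have hf : ((fun p : Γ × H × Γ => p.1 * p.2.1 * p.2.2⁻¹) ''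
        ((T : Set Γ) ×ˢ {h : H | δ / T.card ≤ φ h} ×ˢ (T : Set Γ))).Finite :=
      (T.finite_toSet.prod ((hfin _ (by positivity)).prod T.finite_toSet)).image _
    refine hf.subset fun g hg => ?_
    simp only [Set.mem_ofPred_eq] at hg
    by_contra hn
    have hlt : ∀ t ∈ T, ∀ t' ∈ T, ext0 H φ (t⁻¹ * g * t') < δ / T.card := by
      intro t ht t' ht'
      unfold ext0
      split_ifs with hm
      · by_contra hge
        exact hn ⟨(t, ⟨_, hm⟩, t'), ⟨ht, not_lt.1 hge, ht'⟩, by simp [mul_assoc]⟩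
      · positivity
    have h2 : ∑ t ∈ T, ∑ t' ∈ T, ext0 H φ (t⁻¹ * g * t') < ∑ t ∈ T, ∑ t' ∈ T, δ / T.card :=
      Finset.sum_lt_sum_of_nonempty hT fun t ht =>
        Finset.sum_lt_sum_of_nonempty hT fun t' ht' => hlt t ht t' ht'
    simp only [Finset.sum_const, nsmul_eq_mul] at h2
    rw [inv_mul_eq_div, le_div_iff₀ hTc] at hg
    have : (T.card : ℝ) * (T.card * (δ / T.card)) = δ * T.card := by field_simp
    linarith
  · have h2 : ∀ t ∈ T.filter (fun t => ∃ t' ∈ T, t⁻¹ * g * t' ∈ H),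
        1 - ε / 2 ≤ ∑ t' ∈ T, ext0 H φ (t⁻¹ * g * t') := by
      intro t ht
      obtain ⟨ht, t', ht', hm⟩ := Finset.mem_filter.1 ht
      refine le_trans ?_ (Finset.single_le_sum (f := fun t' => ext0 H φ (t⁻¹ * g * t'))
        (fun _ _ => e0 _) ht')
      simp only [ext0, hm, dif_pos]
      refine hS' _ ?_
      simp only [S', Finset.mem_subtype, Finset.mem_image]
      exact ⟨(g, t, t'), by simp [hg, ht, ht'], rfl⟩
    have h3 := Finset.sum_le_sum h2
    have h4 : ∑ t ∈ T.filter (fun t => ∃ t' ∈ T, t⁻¹ * g * t' ∈ H),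
        ∑ t' ∈ T, ext0 H φ (t⁻¹ * g * t') ≤ ∑ t ∈ T, ∑ t' ∈ T, ext0 H φ (t⁻¹ * g * t') :=
      Finset.sum_le_sum_of_subset_of_nonneg (Finset.filter_subset _ _) fun _ _ _ =>
        Finset.sum_nonneg fun _ _ => e0 _
    simp only [Finset.sum_const, nsmul_eq_mul] at h3
    have h5 := hS g hg
    dsimp only
    rw [inv_mul_eq_div, le_div_iff₀ hTc]
    have h6 : (1 - ε / 2) * T.card * (1 - ε / 2) ≤
        (T.filter fun t => ∃ t' ∈ T, t⁻¹ * g * t' ∈ H).card * (1 - ε / 2) :=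
      mul_le_mul_of_nonneg_right h5 (by linarith)
    nlinarith [sq_nonneg ε]

theorem HP.of_finiteIndex {Γ : Type} [Group Γ] {H : Subgroup Γ} (hH : HP H)
    (hi : H.index ≠ 0) : HP Γ := by
  classical
  have : H.FiniteIndex := ⟨hi⟩
  have : Fintype (Γ ⧸ H) := Fintype.ofFinite _
  refine hH.of_folner fun S ε hε => ⟨Finset.univ.image (Quotient.out : Γ ⧸ H → Γ),
    ⟨_, Finset.mem_image_of_mem _ (Finset.mem_univ (QuotientGroup.mk 1))⟩, ?_, fun γ _ => ?_⟩
  · intro t ht t' ht' hm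
    obtain ⟨q, -, rfl⟩ := Finset.mem_image.1 ht
    obtain ⟨q', -, rfl⟩ := Finset.mem_image.1 ht'
    have := QuotientGroup.eq.2 hm
    simp only [QuotientGroup.out_eq'] at this
    rw [this]
  · rw [Finset.filter_true_of_mem]
    · have : (0 : ℝ) ≤ (Finset.univ.image (Quotient.out : Γ ⧸ H → Γ)).card := by positivity
      nlinarith
    · intro t _
      refine ⟨_, Finset.mem_image_of_mem _ (Finset.mem_univ (QuotientGroup.mk (γ⁻¹ * t))), ?_⟩
      have : (γ⁻¹ * t)⁻¹ * Quotient.out (QuotientGroup.mk (γ⁻¹ * t) : Γ ⧸ H) ∈ H := by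
        rw [← QuotientGroup.eq]; simp
      simpa [mul_assoc] using this

theorem HP.of_cyclic {Γ : Type} [Group Γ] {H : Subgroup Γ} [hN : H.Normal] (hH : HP H) (t : Γ)
    (ht : ∀ γ : Γ, ∃ m : ℤ, (t ^ m)⁻¹ * γ ∈ H) : HP Γ := by
  classical
  by_cases hfin : ∃ n : ℤ, n ≠ 0 ∧ t ^ n ∈ H
  · obtain ⟨n, hn, hnH⟩ := hfin
    refine hH.of_finiteIndex ?_
    have : IsOfFinOrder (QuotientGroup.mk t : Γ ⧸ H) := by
      rw [isOfFinOrder_iff_zpow_eq_one]
      exact ⟨n, hn, by rw [← QuotientGroup.mk_zpow, QuotientGroup.eq_one_iff]; exact hnH⟩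
    have h2 : (Subgroup.zpowers (QuotientGroup.mk t : Γ ⧸ H) : Set (Γ ⧸ H)) = Set.univ := by
      ext q
      obtain ⟨γ, rfl⟩ := QuotientGroup.mk_surjective q
      obtain ⟨m, hm⟩ := ht γ
      simp only [SetLike.mem_coe, Subgroup.mem_zpowers_iff, Set.mem_univ, iff_true]
      exact ⟨m, by rw [← QuotientGroup.mk_zpow]; exact QuotientGroup.eq.2 hm⟩
    have h3 := this.finite_zpowers
    rw [h2] at h3
    have : Finite (Γ ⧸ H) := Set.finite_univ_iff.1 h3
    exact Subgroup.index_ne_zero_of_finite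
  push Not at hfin
  have hinj : ∀ i j : ℤ, (t ^ i)⁻¹ * t ^ j ∈ H → i = j := by
    intro i j h
    by_contra hne
    refine hfin (j - i) (by omega) ?_
    rw [sub_eq_neg_add, zpow_add, zpow_neg]; exact h
  have hinj' : Function.Injective fun i : ℤ => t ^ i := fun i j h =>
    hinj i j (by simp only at h; rw [h]; simp)
  choose m hm using ht
  refine hH.of_folner fun S ε hε => ?_
  obtain ⟨B, hB⟩ : ∃ B : ℕ, ∀ γ ∈ S, |m γ| ≤ B :=
    ⟨∑ γ ∈ S, (m γ).natAbs, fun γ hγ => by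
      have := Finset.single_le_sum (f := fun γ => (m γ).natAbs) (fun _ _ => Nat.zero_le _) hγ
      rw [← Int.natCast_natAbs]; exact_mod_cast this⟩
  obtain ⟨L, hL⟩ := exists_nat_gt (2 * B / ε + 2 * B)
  have hL0 : (0 : ℝ) < L := lt_of_le_of_lt (by positivity) hL
  have hLB : 2 * B ≤ L := by
    have : (2 * B : ℝ) ≤ L := by have : (0 : ℝ) ≤ 2 * B / ε := by positivity
                                 linarith
    exact_mod_cast this
  have hL0' : 0 < L := by exact_mod_cast hL0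
  refine ⟨(Finset.Ico (0 : ℤ) L).image fun i => t ^ i, ⟨t ^ (0 : ℤ),
    Finset.mem_image_of_mem _ (by simp [hL0'])⟩, ?_, fun γ hγ => ?_⟩
  · intro a ha b hb hab
    obtain ⟨i, -, rfl⟩ := Finset.mem_image.1 ha
    obtain ⟨j, -, rfl⟩ := Finset.mem_image.1 hb
    rw [hinj i j hab]
  · have hsub : (Finset.Ico (B : ℤ) (L - B)).image (fun i => t ^ i) ⊆
        ((Finset.Ico (0 : ℤ) L).image fun i => t ^ i).filter fun a =>
          ∃ t' ∈ (Finset.Ico (0 : ℤ) L).image fun i => t ^ i, a⁻¹ * γ * t' ∈ H := by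
      intro a ha
      obtain ⟨i, hi, rfl⟩ := Finset.mem_image.1 ha
      have hb := abs_le.1 (hB γ hγ)
      rw [Finset.mem_Ico] at hi
      refine Finset.mem_filter.2 ⟨Finset.mem_image_of_mem _ (Finset.mem_Ico.2 (by omega)),
        t ^ (i - m γ), Finset.mem_image_of_mem _ (Finset.mem_Ico.2 (by omega)), ?_⟩
      have := hN.conj_mem _ (hm γ) (t ^ (i - m γ))⁻¹
      convert this using 1
      group
    have h2 := Finset.card_le_card hsub
    rw [Finset.card_image_of_injective _ hinj'] at h2 ⊢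
    simp only [Int.card_Ico, sub_zero, Int.toNat_natCast] at h2 ⊢
    have h3 : ((L : ℤ) - B - B).toNat = L - 2 * B := by omega
    rw [h3] at h2
    have h4 : ((L - 2 * B : ℕ) : ℝ) = L - 2 * B := by rw [Nat.cast_sub hLB]; push_cast; ring
    have h5 : (2 * B : ℝ) ≤ ε * L := by
      have : 2 * B / ε ≤ L := by have : (0 : ℝ) ≤ 2 * B := by positivity
                                 linarith
      rw [div_le_iff₀ hε] at this; linarith
    refine le_trans ?_ (Nat.cast_le.2 h2)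
    rw [h4]; linarith

theorem finite_of_entries {ι : Type} [Fintype ι] (R : ℝ) :
    {v : ι → ℤ | ∀ i, ((v i : ℝ)) ^ 2 ≤ R}.Finite := by
  obtain ⟨n, hn⟩ := exists_nat_ge R
  refine (Set.Finite.pi' (t := fun _ : ι => Set.Icc (-(n : ℤ)) n)
    fun _ => Set.finite_Icc _ _).subset fun v hv i => ?_
  have h1 : ((v i : ℝ)) ^ 2 ≤ n := (hv i).trans hn
  have h2 : v i ^ 2 ≤ n := by exact_mod_cast h1
  constructor <;> nlinarith [sq_nonneg (v i - 1), sq_nonneg (v i + 1), sq_nonneg (v i)]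

theorem hp_Z2 : HP (Multiplicative (Fin 2 → ℤ)) := by
  refine Haagerup.hp ⟨fun k => ((k.toAdd 0 : ℤ) : ℝ) ^ 2 + ((k.toAdd 1 : ℤ) : ℝ) ^ 2,
    fun k => by positivity, by simp, fun k => by simp, fun n g c hc => ?_, fun R => ?_⟩
  · have hK := ((KP.rank_one fun k : Multiplicative (Fin 2 → ℤ) => ((k.toAdd 0 : ℤ) : ℝ)).add
      (KP.rank_one fun k : Multiplicative (Fin 2 → ℤ) => ((k.toAdd 1 : ℤ) : ℝ))).2 _ g c
    let u : Fin n → ℝ := fun i => (((g i).toAdd 0 : ℤ) : ℝ) ^ 2 + (((g i).toAdd 1 : ℤ) : ℝ) ^ 2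
    have e : ∑ i, ∑ j, c i * c j * (((((g i)⁻¹ * g j).toAdd 0 : ℤ) : ℝ) ^ 2 +
        ((((g i)⁻¹ * g j).toAdd 1 : ℤ) : ℝ) ^ 2) = (∑ i, c i * u i) * (∑ j, c j) +
        (∑ i, c i) * (∑ j, c j * u j) - 2 * ∑ i, ∑ j, c i * c j *
          ((((g i).toAdd 0 : ℤ) : ℝ) * (((g j).toAdd 0 : ℤ) : ℝ) +
            (((g i).toAdd 1 : ℤ) : ℝ) * (((g j).toAdd 1 : ℤ) : ℝ)) := by
      rw [Finset.sum_mul_sum, Finset.sum_mul_sum, Finset.mul_sum, ← Finset.sum_add_distrib,
        ← Finset.sum_sub_distrib]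
      refine Finset.sum_congr rfl fun i _ => ?_
      rw [Finset.mul_sum, ← Finset.sum_add_distrib, ← Finset.sum_sub_distrib]
      refine Finset.sum_congr rfl fun j _ => ?_
      simp only [u, toAdd_mul, toAdd_inv, Pi.add_apply, Pi.neg_apply]
      push_cast; ring
    rw [e, hc]; linarith
  · refine Set.Finite.preimage (f := fun k : Multiplicative (Fin 2 → ℤ) => k.toAdd)
      (Multiplicative.toAdd.injective.injOn) (finite_of_entries R) |>.subset fun k hk i => ?_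
    simp only [Set.mem_ofPred_eq] at hk
    fin_cases i <;> simp only [Fin.zero_eta, Fin.mk_one] <;>
      nlinarith [sq_nonneg ((k.toAdd 0 : ℤ) : ℝ), sq_nonneg ((k.toAdd 1 : ℤ) : ℝ)]

end Pool.Agent.MP_5045a8_al
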