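import Pool.Agent.MP_5045a8_al.Herglotz

/-! The analytic core of the relative rigidity argument for Z^2. -/

namespace Pool.Agent.MP_5045a8_al

open Finset Filter Topology MeasureTheory UnitAddTorus Matrix
open scoped NNReal

/-- Linear action of an integer matrix on the torus. -/
def actA (A : Matrix (Fin 2) (Fin 2) ℤ) (θ : T2) : T2 := fun i => A i 0 • θ 0 + A i 1 • θ 1

theorem actA_cont (A : Matrix (Fin 2) (Fin 2) ℤ) : Continuous (actA A) := by
  unfold actA; fun_prop

theorem mFourier_actA (A : Matrix (Fin 2) (Fin 2) ℤ) (k : Fin 2 → ℤ) (θ : T2) :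
    mFourier k (actA A θ) = mFourier (k ᵥ* A) θ := by
  simp only [mFourier, ContinuousMap.coe_mk, Fin.prod_univ_two, actA, fourier_apply, vecMul,
    dotProduct, Fin.sum_univ_two, smul_add, smul_smul, add_smul, AddCircle.toCircle_add,
    Circle.coe_mul]
  ring

/-- The chart of the torus with values in the square of side one centred at the origin. -/
noncomputable def chart (θ : T2) : Fin 2 → ℝ := fun i => AddCircle.equivIco 1 (-1 / 2) (θ i)

theorem chart_meas : Measurable chart :=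
  measurable_pi_lambda _ fun i => measurable_subtype_coe.comp
    ((AddCircle.measurableEquivIco 1 (-1 / 2)).measurable.comp (measurable_pi_apply i))

theorem chart_coe (θ : T2) (i : Fin 2) : ((chart θ i : ℝ) : UnitAddCircle) = θ i :=
  AddCircle.coe_equivIco

theorem chart_abs (θ : T2) (i : Fin 2) : |chart θ i| ≤ 1 / 2 := by
  have := (AddCircle.equivIco 1 (-1 / 2) (θ i)).2
  rw [abs_le]; constructor <;> simp only [chart] <;> linarith [this.1, this.2]

theorem chart_ne {θ : T2} (h : θ ≠ 0) : chart θ ≠ 0 := by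
  intro e
  apply h
  funext i
  rw [← chart_coe θ i, e]; simp

theorem chart_actA (A : Matrix (Fin 2) (Fin 2) ℤ) (θ : T2)
    (h : ∀ i, |(A.map (Int.cast : ℤ → ℝ) *ᵥ chart θ) i| < 1 / 2) :
    chart (actA A θ) = A.map (Int.cast : ℤ → ℝ) *ᵥ chart θ := by
  funext i
  have e : actA A θ i = (((A.map (Int.cast : ℤ → ℝ) *ᵥ chart θ) i : ℝ) : UnitAddCircle) := by
    simp only [actA, mulVec, dotProduct, Fin.sum_univ_two, map_apply, ← zsmul_eq_mul,
      AddCircle.coe_add, AddCircle.coe_zsmul, chart_coe]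
  have := abs_lt.1 (h i)
  rw [chart, e, AddCircle.equivIco_coe_of_mem ⟨by linarith, by linarith⟩]

theorem re_fourier_le (θ : T2) (i : Fin 2) :
    (mFourier (Pi.single i 1) θ).re ≤ 1 - 8 * chart θ i ^ 2 := by
  rw [mFourier_single, ← chart_coe θ i, fourier_coe_apply]
  have e : 2 * (Real.pi : ℂ) * Complex.I * ((1 : ℤ) : ℂ) * (chart θ i : ℝ) / ((1 : ℝ) : ℂ) =
      ((2 * Real.pi * chart θ i : ℝ) : ℂ) * Complex.I := by push_cast; ring
  rw [e, Complex.exp_ofReal_mul_I_re]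
  have h1 := chart_abs θ i
  have hp := Real.pi_pos
  have := Real.cos_le_one_sub_mul_cos_sq (x := 2 * Real.pi * chart θ i) (by
    rw [abs_mul, abs_of_pos (by positivity)]; nlinarith)
  refine this.trans_eq ?_
  field_simp
  ring

theorem mFourier_at_zero (k : Fin 2 → ℤ) : mFourier k (0 : T2) = 1 := by
  simp [mFourier]

theorem integral_re_fourier {μ : Measure T2} [IsFiniteMeasure μ] {Φ : (Fin 2 → ℤ) → ℝ}
    (h : ∀ k, ∫ θ, mFourier k θ ∂μ = Φ k) (k : Fin 2 → ℤ) :
    ∫ θ, (mFourier k θ).re ∂μ = Φ k := by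
  have := integral_re (𝕜 := ℂ) (integrable_cont μ (mFourier k).continuous)
  simp only [RCLike.re_to_complex, h, Complex.ofReal_re] at this
  exact this

theorem mass_eq {μ : Measure T2} [IsFiniteMeasure μ] {Φ : (Fin 2 → ℤ) → ℝ}
    (h : ∀ k, ∫ θ, mFourier k θ ∂μ = Φ k) : μ.real Set.univ = Φ 0 := by
  have := integral_re_fourier h 0
  simpa [mFourier_zero] using this

theorem atom_le {μ : Measure T2} [IsFiniteMeasure μ] {Φ : (Fin 2 → ℤ) → ℝ}
    (h : ∀ k, ∫ θ, mFourier k θ ∂μ = Φ k) (h1 : Φ 0 = 1)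
    (hfin : {k | 1 / 60 ≤ Φ k}.Finite) : μ.real {0} ≤ 1 / 30 := by
  obtain ⟨R, hR⟩ : ∃ R : ℕ, ∀ k, 1 / 60 ≤ Φ k → |k 0| < R := by
    obtain ⟨B, hB⟩ := (hfin.image fun k => |k 0|).bddAbove
    refine ⟨B.toNat + 1, fun k hk => ?_⟩
    have : |k 0| ≤ B := hB ⟨k, hk, rfl⟩
    push_cast; omega
  let e : Fin 60 → Fin 2 → ℤ := fun i => Pi.single 0 ((i : ℤ) * R)
  let K : T2 → ℝ := fun θ => Complex.normSq (∑ i, mFourier (e i) θ)
  have hK : ∀ θ, K θ = ∑ i, ∑ j, (mFourier (e i - e j) θ).re := by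
    intro θ
    have : ((K θ : ℝ) : ℂ) = ∑ i, ∑ j, mFourier (e i - e j) θ := by
      simp only [K]
      rw [← Complex.mul_conj, map_sum, Finset.sum_mul_sum]
      refine Finset.sum_congr rfl fun i _ => Finset.sum_congr rfl fun j _ => ?_
      rw [sub_eq_add_neg, mFourier_add, mFourier_neg]
    have := congrArg Complex.re this
    simpa [Complex.re_sum] using this
  have hKc : Continuous K := by simp only [K]; fun_prop
  have hI : ∫ θ, K θ ∂μ = ∑ i, ∑ j, Φ (e i - e j) := by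
    simp only [hK]
    rw [integral_finsetSum _ fun j _ => integrable_cont _ (by fun_prop)]
    refine Finset.sum_congr rfl fun i _ => ?_
    rw [integral_finsetSum _ fun j _ => integrable_cont _ (by fun_prop)]
    exact Finset.sum_congr rfl fun j _ => integral_re_fourier h _
  have hb : ∀ i j, Φ (e i - e j) ≤ (if i = j then 1 else 0) + 1 / 60 := by
    intro i j
    split_ifs with hij
    · rw [hij, sub_self, h1]; norm_num
    · by_contra hlt
      have := hR _ (by linarith : 1 / 60 ≤ Φ (e i - e j))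
      simp only [e, Pi.sub_apply, Pi.single_eq_same, ← sub_mul, abs_mul, Nat.abs_cast] at this
      have h2 : (i : ℤ) - j ≠ 0 := by
        intro h0; apply hij; ext; omega
      have h3 := Int.one_le_abs h2
      nlinarith
  have hs : ∑ i, ∑ j, Φ (e i - e j) ≤ 120 := by
    refine (Finset.sum_le_sum fun i _ => Finset.sum_le_sum fun j _ => hb i j).trans ?_
    simp [Finset.sum_add_distrib]
    norm_num
  have hM := mul_meas_ge_le_integral_of_nonneg (μ := μ) (f := K)
    (Eventually.of_forall fun θ => Complex.normSq_nonneg _) (integrable_cont _ hKc) 3600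
  have hsub : μ.real {0} ≤ μ.real {x | 3600 ≤ K x} := by
    refine measureReal_mono (Set.singleton_subset_iff.2 ?_)
    simp [K, mFourier_at_zero]
    norm_num
  linarith

theorem far_le {μ : Measure T2} [IsFiniteMeasure μ] {Φ : (Fin 2 → ℤ) → ℝ}
    (h : ∀ k, ∫ θ, mFourier k θ ∂μ = Φ k) (h1 : Φ 0 = 1) {ε r : ℝ} (hr : 0 < r)
    (hε : ∀ i, 1 - ε ≤ Φ (Pi.single i 1)) :
    8 * r ^ 2 * μ.real {θ | ∃ i, r ≤ |chart θ i|} ≤ 2 * ε := by
  let K : T2 → ℝ := fun θ => ∑ i, (1 - (mFourier (Pi.single i 1 : Fin 2 → ℤ) θ).re)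
  have hKc : Continuous K := by simp only [K]; fun_prop
  have h0 : ∀ θ i, 0 ≤ 1 - (mFourier (Pi.single i 1 : Fin 2 → ℤ) θ).re := fun θ i => by
    nlinarith [re_fourier_le θ i, sq_nonneg (chart θ i)]
  have hI : ∫ θ, K θ ∂μ ≤ 2 * ε := by
    simp only [K]
    rw [integral_finsetSum _ fun j _ => integrable_cont _ (by fun_prop)]
    have : ∀ i, ∫ θ, (1 - (mFourier (Pi.single i 1 : Fin 2 → ℤ) θ).re) ∂μ ≤ ε := by
      intro i
      rw [integral_sub (integrable_const _) (integrable_cont _ (by fun_prop)),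
        integral_re_fourier h]
      simp only [integral_const, mass_eq h, h1, smul_eq_mul, mul_one]
      linarith [hε i]
    simp only [Fin.sum_univ_two]
    linarith [this 0, this 1]
  have hM := mul_meas_ge_le_integral_of_nonneg (μ := μ) (f := K)
    (Eventually.of_forall fun θ => Finset.sum_nonneg fun i _ => h0 θ i) (integrable_cont _ hKc)
    (8 * r ^ 2)
  refine le_trans (mul_le_mul_of_nonneg_left (measureReal_mono ?_) (by positivity)) (hM.trans hI)
  rintro θ ⟨i, hi⟩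
  have h2 := Finset.single_le_sum
    (f := fun i => 1 - (mFourier (Pi.single i 1 : Fin 2 → ℤ) θ).re) (fun i _ => h0 θ i)
    (Finset.mem_univ i)
  have h3 := re_fourier_le θ i
  have h4 : r ^ 2 ≤ chart θ i ^ 2 := by rw [← sq_abs (chart θ i)]; gcongr
  simp only [Set.mem_ofPred_eq, K]
  linarith

/-- Matrix coefficient of the vector with weights on the identity and on a. -/
def coef2 {Γ : Type} [Group Γ] (φ : Γ → ℝ) (τ : (Fin 2 → ℤ) → Γ) (a : Γ) (α β : ℝ)
    (k : Fin 2 → ℤ) : ℝ :=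
  α ^ 2 * φ (τ k) + α * β * (φ (τ k * a) + φ (a⁻¹ * τ k)) + β ^ 2 * φ (a⁻¹ * τ k * a)

theorem kp_two {Γ : Type} [Group Γ] {φ : Γ → ℝ} (hφ : PD φ) {τ : (Fin 2 → ℤ) → Γ}
    (hτ : ∀ k l, τ (l - k) = (τ k)⁻¹ * τ l) (a : Γ) (α β : ℝ) :
    KP fun k l => coef2 φ τ a α β (l - k) := by
  unfold coef2
  refine ⟨fun k l => ?_, fun ι _ x c => ?_⟩
  · simp only [hτ]
    rw [← hφ.inv ((τ k)⁻¹ * τ l), ← hφ.inv ((τ k)⁻¹ * τ l * a), ← hφ.inv (a⁻¹ * ((τ k)⁻¹ * τ l)),
      ← hφ.inv (a⁻¹ * ((τ k)⁻¹ * τ l) * a)]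
    simp only [_root_.mul_inv_rev, inv_inv, mul_assoc]
    ring
  · have := hφ.2 (ι × Bool) (fun p => τ (x p.1) * (if p.2 then a else 1))
      (fun p => c p.1 * (if p.2 then β else α))
    refine this.trans_eq ?_
    simp only [Fintype.sum_prod_type, Fintype.sum_bool, ← Finset.sum_add_distrib, hτ]
    refine Finset.sum_congr rfl fun i _ => Finset.sum_congr rfl fun j _ => ?_
    simp only [if_true, Bool.false_eq_true, if_false, mul_one, _root_.mul_inv_rev, mul_assoc]
    ring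

theorem tv_bound {Γ : Type} [Group Γ] {φ : Γ → ℝ} (hφ : PD φ) (h1 : φ 1 = 1)
    {τ : (Fin 2 → ℤ) → Γ} (hτ : ∀ k l, τ (l - k) = (τ k)⁻¹ * τ l) {a : Γ}
    {A : Matrix (Fin 2) (Fin 2) ℤ} (ha : ∀ k, a⁻¹ * τ k * a = τ (k ᵥ* A))
    {μ : Measure T2} [IsFiniteMeasure μ] (h : ∀ k, ∫ θ, mFourier k θ ∂μ = φ (τ k))
    {S : Set T2} (hS : MeasurableSet S) :
    2 * μ.real (actA A ⁻¹' S) ≤ 3 * μ.real S + 12 * (1 - φ a) := by
  obtain ⟨μv, _, hv⟩ := herglotz (kp_two hφ hτ a (-1) 1)
  obtain ⟨μw, _, hw⟩ := herglotz (kp_two hφ hτ a 3 (-2))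
  have e : (2 : ℝ≥0) • μ.map (actA A) + μw = (3 : ℝ≥0) • μ + (6 : ℝ≥0) • μv := by
    refine measure_ext_fourier fun k => ?_
    rw [integral_add_measure (integrable_cont _ (mFourier k).continuous)
      (integrable_cont _ (mFourier k).continuous),
      integral_add_measure (integrable_cont _ (mFourier k).continuous)
      (integrable_cont _ (mFourier k).continuous), integral_smul_nnreal_measure,
      integral_smul_nnreal_measure, integral_smul_nnreal_measure,
      integral_map (actA_cont A).aemeasurable (mFourier k).continuous.aestronglyMeasurable]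
    simp only [mFourier_actA, h, hv, hw, ← ha, NNReal.smul_def, Complex.real_smul, coef2]
    push_cast; ring
  have e2 := congrArg (fun m : Measure T2 => m.real S) e
  simp only [measureReal_add_apply, measureReal_nnreal_smul_apply,
    map_measureReal_apply (actA_cont A).measurable hS, measure_ne_top, ne_eq,
    not_false_eq_true] at e2
  have h0 : τ 0 = 1 := by simpa using hτ 0 0
  have e3 := mass_eq hv
  simp only [coef2, h0, one_mul, mul_one, inv_mul_cancel, h1, hφ.inv] at e3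
  have e4 : μv.real S ≤ μv.real Set.univ := measureReal_mono (Set.subset_univ _)
  have e5 : 0 ≤ μw.real S := measureReal_nonneg
  push_cast at e2
  nlinarith

theorem burger_core {Γ : Type} [Group Γ] (hΓ : HP Γ) {τ : (Fin 2 → ℤ) → Γ}
    (hτ : ∀ k l, τ (l - k) = (τ k)⁻¹ * τ l) (hinj : Function.Injective τ)
    (a : Fin 3 → Γ) (A : Fin 3 → Matrix (Fin 2) (Fin 2) ℤ)
    (ha : ∀ i k, (a i)⁻¹ * τ k * a i = τ (k ᵥ* A i)) (X Y : Fin 3 → Set (Fin 2 → ℝ))
    (hX : ∀ i, MeasurableSet (X i)) (hY : ∀ i, MeasurableSet (Y i))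
    (hXd : Pairwise (Function.onFun Disjoint X)) (hYd : Pairwise (Function.onFun Disjoint Y))
    (hpp : ∀ i z, z ≠ 0 → z ∉ Y i → (A i).map (Int.cast : ℤ → ℝ) *ᵥ z ∈ X i) : False := by
  classical
  obtain ⟨B, hB1, hB⟩ : ∃ B : ℝ, 1 ≤ B ∧ ∀ i j l, |(A i j l : ℝ)| ≤ B := by
    obtain ⟨B, hB⟩ := (Set.finite_range fun p : Fin 3 × Fin 2 × Fin 2 =>
      |(A p.1 p.2.1 p.2.2 : ℝ)|).bddAbove
    exact ⟨max 1 B, le_max_left _ _, fun i j l => (hB ⟨(i, j, l), rfl⟩).trans (le_max_right _ _)⟩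
  set r : ℝ := 1 / (5 * B) with hr
  have hr0 : 0 < r := by positivity
  have hrB : B * r = 1 / 5 := by rw [hr]; field_simp
  have hr1 : r ≤ 1 / 5 := by nlinarith
  obtain ⟨φ, hφ, h1, -, hfin, hS⟩ := hΓ (Finset.univ.image a ∪
    Finset.univ.image fun i : Fin 2 => τ (Pi.single i 1)) (r ^ 2 / 40) (by positivity)
  have h0 : τ 0 = 1 := by simpa using hτ 0 0
  obtain ⟨μ, _, hμ⟩ := herglotz (Φ := fun k => φ (τ k))
    ((KP.comp hφ τ).congr fun k l => by simp only [hτ])
  have hΦ0 : φ (τ 0) = 1 := by rw [h0, h1]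
  have hm : μ.real Set.univ = 1 := by rw [mass_eq hμ, hΦ0]
  have hat := atom_le hμ hΦ0 (Set.Finite.preimage (f := τ) hinj.injOn (hfin _ (by norm_num)))
  have hfar := far_le hμ hΦ0 hr0 (ε := r ^ 2 / 40) fun i => hS _ (by simp)
  have hfar' : μ.real {θ | ∃ i, r ≤ |chart θ i|} ≤ 1 / 160 := by
    by_contra hlt
    have : 0 < r ^ 2 := by positivity
    nlinarith
  have hup : ∀ i, 2 * μ.real (actA (A i) ⁻¹' (chart ⁻¹' X i)) ≤
      3 * μ.real (chart ⁻¹' X i) + 12 * (r ^ 2 / 40) := fun i => by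
    have := tv_bound hφ h1 hτ (ha i) hμ (chart_meas (hX i))
    linarith [hS (a i) (by simp)]
  have hlow : ∀ i, 1 ≤ μ.real (actA (A i) ⁻¹' (chart ⁻¹' X i)) + μ.real (chart ⁻¹' Y i) +
      1 / 30 + 1 / 160 := by
    intro i
    have hcov : Set.univ ⊆ ((actA (A i) ⁻¹' (chart ⁻¹' X i) ∪ chart ⁻¹' Y i) ∪ {0}) ∪
        {θ | ∃ i, r ≤ |chart θ i|} := by
      intro θ _
      by_contra hn
      simp only [Set.mem_union, Set.mem_preimage, Set.mem_singleton_iff, Set.mem_ofPred_eq,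
        not_or, not_exists, not_le] at hn
      obtain ⟨⟨⟨n1, n2⟩, n3⟩, n4⟩ := hn
      apply n1
      rw [chart_actA]
      · exact hpp i _ (chart_ne n3) n2
      · intro j
        simp only [mulVec, dotProduct, Fin.sum_univ_two, map_apply]
        refine (abs_add_le _ _).trans_lt ?_
        rw [abs_mul, abs_mul]
        have a0 := mul_le_mul (hB i j 0) (n4 0).le (abs_nonneg _) (by linarith)
        have a1 := mul_le_mul (hB i j 1) (n4 1).le (abs_nonneg _) (by linarith)
        linarith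
    have c1 := measureReal_mono (μ := μ) hcov
    have c2 := measureReal_union_le (μ := μ)
      ((actA (A i) ⁻¹' (chart ⁻¹' X i) ∪ chart ⁻¹' Y i) ∪ {0}) {θ | ∃ i, r ≤ |chart θ i|}
    have c3 := measureReal_union_le (μ := μ) (actA (A i) ⁻¹' (chart ⁻¹' X i) ∪ chart ⁻¹' Y i) {0}
    have c4 := measureReal_union_le (μ := μ) (actA (A i) ⁻¹' (chart ⁻¹' X i)) (chart ⁻¹' Y i)
    linarith
  have hsX := sum_measureReal_le_measureReal_univ (μ := μ) (s := Finset.univ)
    (t := fun i => chart ⁻¹' X i) (fun i _ => chart_meas (hX i))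
    (fun i _ j _ hij => (hXd hij).preimage _)
  have hsY := sum_measureReal_le_measureReal_univ (μ := μ) (s := Finset.univ)
    (t := fun i => chart ⁻¹' Y i) (fun i _ => chart_meas (hY i))
    (fun i _ j _ hij => (hYd hij).preimage _)
  simp only [Fin.sum_univ_three] at hsX hsY
  have : r ^ 2 ≤ 1 / 25 := by nlinarith
  linarith [hup 0, hup 1, hup 2, hlow 0, hlow 1, hlow 2]

end Pool.Agent.MP_5045a8_al
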