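import Pool.Agent.MP_5045a8_al.VC
import Pool.Agent.MP_5045a8_al.Burger

/-! Ping-pong certificates for subgroups of GL(2,Z) that are not virtually cyclic. -/

namespace Pool.Agent.MP_5045a8_al

open Finset Filter Topology Matrix

theorem three_indep {C : Subgroup G2} (h : ¬ VirtCyclic C) {a : Fin 2 → ℝ} (ha : a ≠ 0) :
    ∃ k : Fin 3 → G2, (∀ i, k i ∈ C) ∧ ∀ i j, i ≠ j → d2 (act (k i) a) (act (k j) a) ≠ 0 := by
  by_contra hn
  apply h
  have hsym : ∀ x y, d2 x y = -d2 y x := fun x y => by unfold d2; ring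
  let S : Subgroup G2 :=
    { carrier := {g | g ∈ C ∧ d2 (act g a) a = 0}
      one_mem' := ⟨C.one_mem, by rw [act_one]; unfold d2; ring⟩
      mul_mem' := fun {g h} hg hh => ⟨C.mul_mem hg.1 hh.1, by
        obtain ⟨t, ht⟩ := par ha hh.2
        obtain ⟨s, hs⟩ := par ha hg.2
        rw [act_mul, ht, act_smul, hs]
        simp only [d2, Pi.smul_apply, smul_eq_mul]; ring⟩
      inv_mem' := fun {g} hg => ⟨C.inv_mem hg.1, by
        rw [← d2_act_eq_zero g, act_inv', hsym, hg.2, neg_zero]⟩ }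
  refine (vc_of_line (S := S) ha fun g hg => hg.2).of_relIndex (fun g hg => hg.1)
    (relIndex_of_colour (fun g => d2 (act g a) a = 0) fun g hg k hk e => ?_)
  simp only [eq_iff_iff] at e
  by_cases h0 : d2 (act g a) a = 0
  · exact S.mul_mem (S.inv_mem ⟨hg, h0⟩) ⟨hk, e.1 h0⟩
  refine ⟨C.mul_mem (C.inv_mem hg) hk, ?_⟩
  rw [← d2_act_eq_zero g, act_mul, act_inv']
  by_contra h1
  have h2 : d2 (act k a) a ≠ 0 := fun x => h0 (e.2 x)
  refine hn ⟨![1, g, k], fun i => by fin_cases i <;> simp [C.one_mem, hg, hk], fun i j hij => ?_⟩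
  fin_cases i <;> fin_cases j <;> simp only [Fin.zero_eta, Fin.mk_one, Fin.reduceFinMk,
    Matrix.cons_val_zero, Matrix.cons_val_one, Matrix.cons_val, act_one] <;>
    first
    | exact (hij rfl).elim
    | assumption
    | (rw [hsym, neg_ne_zero]; assumption)

theorem rank_one_limit {C : Subgroup G2} (h : ¬ VirtCyclic C) :
    ∃ r : Fin 2 → Fin 2 → ℝ, r ≠ 0 ∧ r 0 0 * r 1 1 - r 0 1 * r 1 0 = 0 ∧
      ∃ᶠ E in 𝓝 (0 : Fin 2 → Fin 2 → ℝ), ∃ g ∈ C, ∃ s : ℝ, 0 < s ∧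
        ∀ i j, s * (g i j : ℤ) = r i j + E i j := by
  have hinf : (C : Set G2).Infinite := by
    intro hf
    apply h
    refine ⟨1, C.one_mem, ?_⟩
    have : Finite C := hf
    exact Subgroup.index_ne_zero_of_finite
  let M : G2 → Fin 2 → Fin 2 → ℝ := fun g i j => (g i j : ℤ)
  have hex : ∀ n : ℕ, ∃ g ∈ C, (n : ℝ) + 1 ≤ ‖M g‖ := by
    intro n
    obtain ⟨g, hg, hb⟩ := (hinf.sdiff (G2.finite_entries ((n + 1) ^ 2))).nonempty
    refine ⟨g, hg, ?_⟩
    simp only [Set.mem_ofPred_eq, not_forall, not_le] at hb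
    obtain ⟨i, j, hij⟩ := hb
    have h1 : ‖M g i j‖ ≤ ‖M g‖ := (norm_le_pi_norm (M g i) j).trans (norm_le_pi_norm (M g) i)
    refine le_trans ?_ h1
    exact (abs_le_of_sq_le_sq' (by rw [Real.norm_eq_abs, sq_abs]; exact hij.le) (norm_nonneg _)).2
  choose g hg hn using hex
  have hpos : ∀ n, 0 < ‖M (g n)‖ := fun n => lt_of_lt_of_le (by positivity) (hn n)
  obtain ⟨r, hr, φ, hφ, hlim⟩ := (isCompact_sphere (0 : Fin 2 → Fin 2 → ℝ) 1).tendsto_subseq
    (x := fun n => ‖M (g n)‖⁻¹ • M (g n)) fun n => by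
      simp [norm_smul, (hpos n).ne']
  refine ⟨r, fun e => by simp [e] at hr, ?_, ?_⟩
  · have hc : Continuous fun r : Fin 2 → Fin 2 → ℝ => |r 0 0 * r 1 1 - r 0 1 * r 1 0| := by
      fun_prop
    have h1 := (hc.tendsto r).comp hlim
    have h2 : Tendsto (fun n : ℕ => 1 / ((φ n : ℝ) + 1)) atTop (𝓝 0) :=
      tendsto_one_div_add_atTop_nhds_zero_nat.comp hφ.tendsto_atTop
    have h3 := le_of_tendsto_of_tendsto' h1 h2 fun n => by
      simp only [Function.comp, Pi.smul_apply, smul_eq_mul, M]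
      have e : |dt (g (φ n))| = 1 := by rcases dt_cases (g (φ n)) with h | h <;> simp [h]
      have e2 := hn (φ n)
      have e3 := hpos (φ n)
      simp only [M] at e2 e3
      generalize ‖fun i j => ((g (φ n) i j : ℤ) : ℝ)‖ = N at e2 e3
      have : N⁻¹ * ((g (φ n) 0 0 : ℤ) : ℝ) * (N⁻¹ * (g (φ n) 1 1 : ℤ)) -
          N⁻¹ * (g (φ n) 0 1 : ℤ) * (N⁻¹ * (g (φ n) 1 0 : ℤ)) = N⁻¹ ^ 2 * dt (g (φ n)) := by
        unfold dt; push_cast; ring
      rw [this, abs_mul, e, mul_one, abs_of_nonneg (by positivity), inv_pow, ← one_div]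
      have : (0 : ℝ) ≤ φ n := by positivity
      exact one_div_le_one_div_of_le (by positivity) (by nlinarith)
    exact abs_eq_zero.1 (le_antisymm h3 (abs_nonneg _))
  · have h1 := hlim.sub_const r
    rw [sub_self] at h1
    refine h1.frequently (Eventually.frequently (Eventually.of_forall fun n => ?_))
    exact ⟨g (φ n), hg _, _, inv_pos.2 (hpos (φ n)), fun i j => by simp [M]⟩

theorem rank_one_factor {r : Fin 2 → Fin 2 → ℝ} (h0 : r ≠ 0)
    (hd : r 0 0 * r 1 1 - r 0 1 * r 1 0 = 0) : ∃ a b : Fin 2 → ℝ, a ≠ 0 ∧ b ≠ 0 ∧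
      ∀ (z : Fin 2 → ℝ) i, r i 0 * z 0 + r i 1 * z 1 = d2 z b * a i := by
  by_cases h1 : r 0 0 ≠ 0
  · refine ⟨![r 0 0, r 1 0], ![-(r 0 1 / r 0 0), 1], by simp [h1], by simp, fun z i => ?_⟩
    fin_cases i <;> simp [d2] <;> field_simp
    linear_combination z 1 * hd
  by_cases h2 : r 1 0 ≠ 0
  · refine ⟨![r 0 0, r 1 0], ![-(r 1 1 / r 1 0), 1], by simp [h2], by simp, fun z i => ?_⟩
    fin_cases i <;> simp [d2] <;> field_simp
    linear_combination -z 1 * hd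
  push Not at h1 h2
  refine ⟨![r 0 1, r 1 1], ![-1, 0], fun e => h0 ?_, by simp, fun z i => ?_⟩
  · have e0 := congrFun e 0
    have e1 := congrFun e 1
    funext i j
    fin_cases i <;> fin_cases j <;> simp_all
  · fin_cases i <;> simp [d2, h1, h2] <;> ring

theorem contract {a a' b b' : Fin 2 → ℝ} (ha : d2 a a' ≠ 0) (hb : d2 b b' ≠ 0) :
    ∀ᶠ E in 𝓝 (0 : Fin 2 → Fin 2 → ℝ), ∀ w v : Fin 2 → ℝ, w ≠ 0 → |d2 w b'| ≤ |d2 w b| →
      (∀ i, v i = d2 w b * a i + (E i 0 * w 0 + E i 1 * w 1)) → |d2 v a| < |d2 v a'| := by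
  set c : ℝ := (|b 0| + |b 1| + |b' 0| + |b' 1|) / |d2 b b'| with hc
  set m : ℝ := |a 0| + |a 1| + |a' 0| + |a' 1| with hm
  have hb' := abs_pos.2 hb
  have ha' := abs_pos.2 ha
  have hc0 : 0 ≤ c := by positivity
  have hm0 : 0 ≤ m := by positivity
  filter_upwards [Metric.ball_mem_nhds (0 : Fin 2 → Fin 2 → ℝ)
    (show 0 < |d2 a a'| / (2 * c * m + 1) by positivity)] with E hE w v hw hle hv
  rw [mem_ball_zero_iff, lt_div_iff₀ (by positivity)] at hE
  have hEe : ∀ i j, |E i j| ≤ ‖E‖ := fun i j =>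
    (norm_le_pi_norm (E i) j).trans (norm_le_pi_norm E i)
  have hw' : ∀ i, |w i| ≤ c * |d2 w b| := by
    intro i
    have e : w i * d2 b b' = d2 w b' * b i - d2 w b * b' i := by
      fin_cases i <;> simp [d2] <;> ring
    have e2 : |w i| * |d2 b b'| ≤ |d2 w b| * (|b i| + |b' i|) := by
      rw [← abs_mul, e]
      refine (abs_sub _ _).trans ?_
      rw [abs_mul, abs_mul]
      nlinarith [abs_nonneg (b i)]
    have e3 : |b i| + |b' i| ≤ |b 0| + |b 1| + |b' 0| + |b' 1| := by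
      fin_cases i <;> simp <;> linarith [abs_nonneg (b 0), abs_nonneg (b 1), abs_nonneg (b' 0),
        abs_nonneg (b' 1)]
    rw [hc, div_mul_eq_mul_div, le_div_iff₀ hb']
    nlinarith [abs_nonneg (d2 w b)]
  have hD : 0 < |d2 w b| := by
    by_contra hn
    have : |d2 w b| = 0 := le_antisymm (not_lt.1 hn) (abs_nonneg _)
    apply hw
    funext i
    have := hw' i
    simp_all
  set D := d2 w b
  have hu : ∀ i, |E i 0 * w 0 + E i 1 * w 1| ≤ 2 * c * ‖E‖ * |D| := by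
    intro i
    refine (abs_add_le _ _).trans ?_
    rw [abs_mul, abs_mul]
    have a0 := mul_le_mul (hEe i 0) (hw' 0) (abs_nonneg _) (norm_nonneg _)
    have a1 := mul_le_mul (hEe i 1) (hw' 1) (abs_nonneg _) (norm_nonneg _)
    linarith
  have hx : ∀ x : Fin 2 → ℝ, |d2 v x - D * d2 a x| ≤ 2 * c * ‖E‖ * |D| * (|x 0| + |x 1|) := by
    intro x
    have e : d2 v x - D * d2 a x = (E 0 0 * w 0 + E 0 1 * w 1) * x 1 -
        (E 1 0 * w 0 + E 1 1 * w 1) * x 0 := by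
      simp only [d2, hv]; ring
    rw [e]
    refine (abs_sub _ _).trans ?_
    rw [abs_mul, abs_mul]
    have a0 := mul_le_mul_of_nonneg_right (hu 0) (abs_nonneg (x 1))
    have a1 := mul_le_mul_of_nonneg_right (hu 1) (abs_nonneg (x 0))
    linarith
  have h1 := hx a
  have h2 := hx a'
  have e0 : d2 a a = 0 := by unfold d2; ring
  rw [e0, mul_zero, sub_zero] at h1
  have h3 := abs_sub_abs_le_abs_sub (D * d2 a a') (d2 v a')
  rw [abs_sub_comm, abs_mul] at h3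
  have h4 : |D| * (‖E‖ * (2 * c * m + 1)) < |D| * |d2 a a'| := mul_lt_mul_of_pos_left hE hD
  have h5 : 0 ≤ |D| * ‖E‖ := by positivity
  rw [hm] at h4
  nlinarith

/-- The cone of vectors closest to the i-th of three lines. -/
def cone (a : Fin 3 → Fin 2 → ℝ) (i : Fin 3) : Set (Fin 2 → ℝ) :=
  {z | ∀ j, j ≠ i → |d2 z (a i)| < |d2 z (a j)|}

theorem cone_meas (a : Fin 3 → Fin 2 → ℝ) (i : Fin 3) : MeasurableSet (cone a i) := by
  have : cone a i = ⋂ j, ⋂ _ : j ≠ i, {z | |d2 z (a i)| < |d2 z (a j)|} := by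
    ext z; simp [cone]
  rw [this]
  refine MeasurableSet.iInter fun j => MeasurableSet.iInter fun _ => ?_
  exact (isOpen_lt (by unfold d2; fun_prop) (by unfold d2; fun_prop)).measurableSet

theorem cone_disj (a : Fin 3 → Fin 2 → ℝ) : Pairwise (Function.onFun Disjoint (cone a)) := by
  intro i j hij
  rw [Function.onFun, Set.disjoint_left]
  intro z h1 h2
  exact lt_asymm (h1 j hij.symm) (h2 i hij)

theorem burger {Γ : Type} [Group Γ] (hΓ : HP Γ) {τ : (Fin 2 → ℤ) → Γ}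
    (hτ : ∀ k l, τ (l - k) = (τ k)⁻¹ * τ l) (hinj : Function.Injective τ) {C : Subgroup G2}
    (hC : ∀ A ∈ C, ∃ a : Γ, ∀ k, a⁻¹ * τ k * a = τ (k ᵥ* (A : Matrix (Fin 2) (Fin 2) ℤ))) :
    VirtCyclic C := by
  by_contra h
  obtain ⟨r, hr0, hrd, hfr⟩ := rank_one_limit h
  obtain ⟨a, b, ha, hb, hab⟩ := rank_one_factor hr0 hrd
  obtain ⟨p, hp, hpa⟩ := three_indep h ha
  obtain ⟨q, hq, hqb⟩ := three_indep h hb
  have hev : ∀ᶠ E in 𝓝 (0 : Fin 2 → Fin 2 → ℝ), ∀ i j l : Fin 3, j ≠ i → l ≠ i →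
      ∀ w v : Fin 2 → ℝ, w ≠ 0 → |d2 w (act (q i)⁻¹ (act (q j) b))| ≤ |d2 w b| →
      (∀ m, v m = d2 w b * a m + (E m 0 * w 0 + E m 1 * w 1)) →
      |d2 v a| < |d2 v (act (p i)⁻¹ (act (p l) a))| := by
    simp only [eventually_all]
    intro i j l hj hl
    refine contract ?_ ?_
    · rw [Ne, ← d2_act_eq_zero (p i), act_inv']; exact hpa _ _ hl.symm
    · rw [Ne, ← d2_act_eq_zero (q i), act_inv']; exact hqb _ _ hj.symm
  obtain ⟨E, ⟨g, hg, s, hs, hE⟩, hE'⟩ := (hfr.and_eventually hev).exists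
  have hA : ∀ i, p i * g * (q i)⁻¹ ∈ C := fun i =>
    C.mul_mem (C.mul_mem (hp i) hg) (C.inv_mem (hq i))
  choose u hu using fun i => hC _ (hA i)
  refine burger_core hΓ hτ hinj u _ hu (cone fun i => act (p i) a) (cone fun i => act (q i) b)
    (cone_meas _) (cone_meas _) (cone_disj _) (cone_disj _) fun i z hz hY l hl => ?_
  simp only [cone, Set.mem_ofPred_eq, not_forall, not_lt] at hY
  obtain ⟨j, hj, hle⟩ := hY
  have := hE' i j l hj hl (act (q i)⁻¹ z) (s • act g (act (q i)⁻¹ z)) (act_ne _ hz)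
    (by rw [abs_d2_act, ← abs_d2_act (q i) _ b, act_inv']; exact hle) (fun m => by
      rw [← hab, Pi.smul_apply, act_apply g, smul_eq_mul, mul_add, ← mul_assoc, ← mul_assoc, hE,
        hE]
      ring)
  have e : ∀ x y, |d2 (s • x) y| = s * |d2 x y| := fun x y => by
    rw [← abs_of_pos hs, ← abs_mul, abs_of_pos hs]; congr 1
    simp only [d2, Pi.smul_apply, smul_eq_mul]; ring
  rw [e, e, mul_lt_mul_iff_right₀ hs, ← abs_d2_act (p i) _ a,
    ← abs_d2_act (p i) _ (act (p i)⁻¹ _), act_inv', ← act_mul, ← act_mul] at this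
  exact this

theorem not_vc_parabolic {C : Subgroup G2} (hC : VirtCyclic C) {L R : G2} (hL : L ∈ C)
    (hR : R ∈ C) {m m' : ℤ} (hm : m ≠ 0) (hm' : m' ≠ 0)
    (eL : (L : Matrix (Fin 2) (Fin 2) ℤ) = !![1, 0; m, 1])
    (eR : (R : Matrix (Fin 2) (Fin 2) ℤ) = !![1, m'; 0, 1]) : False := by
  obtain ⟨c, -, hc⟩ := hC
  obtain ⟨n, hn, -, h1⟩ := Subgroup.exists_pow_mem_of_relIndex_ne_zero hc hL
  obtain ⟨n', hn', -, h2⟩ := Subgroup.exists_pow_mem_of_relIndex_ne_zero hc hR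
  have pL : ∀ n : ℕ, ((L ^ n : G2) : Matrix (Fin 2) (Fin 2) ℤ) = !![1, 0; n * m, 1] := by
    intro n
    induction n with
    | zero => simp [Matrix.one_fin_two]
    | succ n ih => rw [pow_succ, Units.val_mul, ih, eL]; simp [add_mul]
  have pR : ∀ n : ℕ, ((R ^ n : G2) : Matrix (Fin 2) (Fin 2) ℤ) = !![1, n * m'; 0, 1] := by
    intro n
    induction n with
    | zero => simp [Matrix.one_fin_two]
    | succ n ih => rw [pow_succ, Units.val_mul, ih, eR]; simp [add_mul, add_comm]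
  obtain ⟨i, hi⟩ := h1.1
  obtain ⟨j, hj⟩ := h2.1
  have e : L ^ n * R ^ n' = R ^ n' * L ^ n := by
    rw [← hi, ← hj]; exact zpow_mul_comm c i j
  have := congrArg (fun g : G2 => (g : Matrix (Fin 2) (Fin 2) ℤ) 0 0) e
  simp [pL, pR, hm, hm', hn.ne', hn'.ne', -Units.val_pow_eq_pow_val] at this

end Pool.Agent.MP_5045a8_al
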