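import Pool.Agent.Mg.F5045a8.G1db804

/-! Continuum many conjugacy classes of maximal Haagerup subgroups of SL(3,Z) that stabilise the
plane x_3 = 0 and act faithfully on it. -/

namespace Pool.Agent.MP_5045a8_al.ContinuumOld

open Pool.Agent.MP_5045a8_al

theorem result : ∃ S : Set (Subgroup G3), Cardinal.mk S = Cardinal.continuum ∧
    (∀ H ∈ S, IsMaxHaagerup H ∧ IsPlaneLift ![0, 0, 1] H) ∧
    ∀ H ∈ S, ∀ K ∈ S, H ≠ K → ¬ ∃ γ : G3, ∀ g, g ∈ K ↔ γ * g * γ⁻¹ ∈ H := by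
  simpa only [isMax_iff] using continuum_lifts

end Pool.Agent.MP_5045a8_al.ContinuumOld
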