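import Mathlib

/-! Definitions used in the statements on maximal Haagerup subgroups of SL(3,Z). -/

namespace Pool.Agent.MP_5045a8_al

open Matrix

/-- The group SL(3,Z). -/
abbrev G3 : Type := Matrix.SpecialLinearGroup (Fin 3) ℤ

/-- The Haagerup property: a proper conditionally negative definite function. -/
def Haagerup (Γ : Type) [Group Γ] : Prop :=
  ∃ ψ : Γ → ℝ, (∀ g, 0 ≤ ψ g) ∧ ψ 1 = 0 ∧ (∀ g, ψ g⁻¹ = ψ g) ∧
    (∀ (n : ℕ) (g : Fin n → Γ) (c : Fin n → ℝ), ∑ i, c i = 0 →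
      ∑ i, ∑ j, c i * c j * ψ ((g i)⁻¹ * g j) ≤ 0) ∧
    ∀ R : ℝ, {g | ψ g ≤ R}.Finite

/-- Maximal Haagerup subgroups of SL(3,Z). -/
def IsMaxHaagerup (H : Subgroup G3) : Prop :=
  Haagerup H ∧ ∀ K : Subgroup G3, H < K → ¬ Haagerup K

/-- A subgroup of GL(2,Z) with a cyclic subgroup of finite index. -/
def VirtCyclic (C : Subgroup (GL (Fin 2) ℤ)) : Prop :=
  ∃ c ∈ C, (Subgroup.zpowers c).relIndex C ≠ 0

/-- The matrix has bottom row (0, 0, *) and its upper left 2 x 2 block lies in C. -/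
def InBlock (C : Subgroup (GL (Fin 2) ℤ)) (M : Matrix (Fin 3) (Fin 3) ℤ) : Prop :=
  M 2 0 = 0 ∧ M 2 1 = 0 ∧
    ∃ A ∈ C, (A : Matrix (Fin 2) (Fin 2) ℤ) = !![M 0 0, M 0 1; M 1 0, M 1 1]

/-- H is conjugate to the full block group over a maximal virtually cyclic subgroup C of
GL(2,Z), or to its transpose. -/
def IsBlockType (H : Subgroup G3) : Prop :=
  ∃ (γ : G3) (C : Subgroup (GL (Fin 2) ℤ)), VirtCyclic C ∧ (∀ D, C < D → ¬ VirtCyclic D) ∧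
    ((∀ g : G3, g ∈ H ↔ InBlock C (γ⁻¹ * g * γ : G3)) ∨
      (∀ g : G3, g ∈ H ↔ InBlock C ((γ⁻¹ * g * γ : G3) : Matrix (Fin 3) (Fin 3) ℤ)ᵀ))

/-- H contains a subgroup isomorphic to Z^2 generated by two commuting unipotent elements. -/
def HasUnipotentZ2 (H : Subgroup G3) : Prop :=
  ∃ a ∈ H, ∃ b ∈ H, IsNilpotent ((a : Matrix (Fin 3) (Fin 3) ℤ) - 1) ∧
    IsNilpotent ((b : Matrix (Fin 3) (Fin 3) ℤ) - 1) ∧ a * b = b * a ∧
    ∀ m n : ℤ, a ^ m * b ^ n = 1 → m = 0 ∧ n = 0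

/-- K stabilises the plane f = 0 and acts faithfully on it. -/
def IsPlaneLift (f : Fin 3 → ℤ) (K : Subgroup G3) : Prop :=
  (∀ g ∈ K, f ᵥ* (g : Matrix (Fin 3) (Fin 3) ℤ) = f ∨ f ᵥ* (g : Matrix (Fin 3) (Fin 3) ℤ) = -f) ∧
    ∀ g ∈ K, (∀ x, f ⬝ᵥ x = 0 → (g : Matrix (Fin 3) (Fin 3) ℤ) *ᵥ x = x) → g = 1

/-- The stabiliser, up to sign, of a vector v and of a covector f. -/
def Levi (v f : Fin 3 → ℤ) : Subgroup G3 where
  carrier := {g | ((g : Matrix (Fin 3) (Fin 3) ℤ) *ᵥ v = v ∨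
      (g : Matrix (Fin 3) (Fin 3) ℤ) *ᵥ v = -v) ∧
    (f ᵥ* (g : Matrix (Fin 3) (Fin 3) ℤ) = f ∨ f ᵥ* (g : Matrix (Fin 3) (Fin 3) ℤ) = -f)}
  one_mem' := ⟨Or.inl (one_mulVec v), Or.inl (vecMul_one f)⟩
  mul_mem' := by
    rintro a b ⟨ha, ha'⟩ ⟨hb, hb'⟩
    have e : (a * b).1 = a.1 * b.1 := rfl
    refine ⟨?_, ?_⟩
    · rw [e, ← mulVec_mulVec]
      rcases ha with ha | ha <;> rcases hb with hb | hb <;> simp [ha, hb, mulVec_neg]
    · rw [e, ← vecMul_vecMul]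
      rcases ha' with ha | ha <;> rcases hb' with hb | hb <;> simp [ha, hb, neg_vecMul]
  inv_mem' := by
    rintro a ⟨ha, ha'⟩
    have e : (a⁻¹).1 * a.1 = 1 := congrArg Subtype.val (inv_mul_cancel a)
    have e' : a.1 * (a⁻¹).1 = 1 := congrArg Subtype.val (mul_inv_cancel a)
    have h1 := congrArg (· *ᵥ v) e
    have h2 := congrArg (f ᵥ* ·) e'
    simp only [← mulVec_mulVec, ← vecMul_vecMul, one_mulVec, vecMul_one] at h1 h2
    refine ⟨ha.imp (fun h => by rwa [h] at h1) fun h => ?_,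
      ha'.imp (fun h => by rwa [h] at h2) fun h => ?_⟩
    · rwa [h, mulVec_neg, neg_eq_iff_eq_neg] at h1
    · rwa [h, neg_vecMul, neg_eq_iff_eq_neg] at h2

end Pool.Agent.MP_5045a8_al
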