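import Pool.Agent.MP_5045a8_al.DefsO

/-! Definitions for the classification of finitely generated maximal Haagerup subgroups of
SL(3,Z) that are not Zariski dense. -/

namespace Pool.Agent.MP_5045a8_al

open Matrix

/-- H is Zariski dense in SL(3,R). -/
def ZDense (H : Subgroup G3) : Prop :=
  ∀ P : MvPolynomial (Fin 3 × Fin 3) ℝ,
    (∀ h ∈ H, MvPolynomial.eval (fun ij => ((h ij.1 ij.2 : ℤ) : ℝ)) P = 0) →
    ∀ M : Matrix (Fin 3) (Fin 3) ℝ, M.det = 1 →
      MvPolynomial.eval (fun ij => M ij.1 ij.2) P = 0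

/-- The group of the transposes of the elements of K. -/
def Transp (K : Subgroup G3) : Subgroup G3 where
  carrier := {g | g.transpose ∈ K}
  one_mem' := by
    have e : (1 : G3).transpose = 1 := Subtype.ext transpose_one
    simp only [Set.mem_ofPred_eq, e, K.one_mem]
  mul_mem' := fun {a b} ha hb => by
    have e : (a * b).transpose = b.transpose * a.transpose :=
      Subtype.ext (transpose_mul a.1 b.1)
    simp only [Set.mem_ofPred_eq, e] at *
    exact K.mul_mem hb ha
  inv_mem' := fun {a} ha => by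
    have e : (a⁻¹).transpose = (a.transpose)⁻¹ := Subtype.ext (adjugate_transpose a.1)
    simp only [Set.mem_ofPred_eq, e] at *
    exact K.inv_mem ha

/-- The restrictions to the plane f = 0 of the elements of K have finite index among the
restrictions of all elements of SL(3,Z) that stabilise the plane. -/
def FinImage (f : Fin 3 → ℤ) (K : Subgroup G3) : Prop :=
  ∃ S : Finset G3, ∀ g : G3,
    (f ᵥ* (g : Matrix (Fin 3) (Fin 3) ℤ) = f ∨ f ᵥ* (g : Matrix (Fin 3) (Fin 3) ℤ) = -f) →
    ∃ h ∈ K, ∃ s ∈ S, ∀ x, f ⬝ᵥ x = 0 →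
      (g : Matrix (Fin 3) (Fin 3) ℤ) *ᵥ x = ((h * s : G3) : Matrix (Fin 3) (Fin 3) ℤ) *ᵥ x

/-- K stabilises the plane f = 0, acts faithfully on it with an image of finite index, and is
maximal among the subgroups that stabilise the plane and act faithfully on it. -/
def IsLatticeLift (f : Fin 3 → ℤ) (K : Subgroup G3) : Prop :=
  IsPlaneLift f K ∧ FinImage f K ∧ ∀ L, IsPlaneLift f L → K ≤ L → L = K

end Pool.Agent.MP_5045a8_al
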