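import Pool.Agent.MP_5045a8_al.DefsH

/-! The two exceptional families of subgroups of SL(3,Z), and indefinite forms. -/

namespace Pool.Agent.MP_5045a8_al

open Matrix

/-- B is symmetric, nondegenerate and indefinite. -/
def Indef (B : Matrix (Fin 3) (Fin 3) ℤ) : Prop :=
  Bᵀ = B ∧ B.det ≠ 0 ∧ (∃ u : Fin 3 → ℤ, 0 < u ⬝ᵥ B *ᵥ u) ∧ ∃ v : Fin 3 → ℤ, v ⬝ᵥ B *ᵥ v < 0

/-- H is the normaliser of the centraliser of an element without eigenvalue 1 or -1. -/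
def IsTorusType (H : Subgroup G3) : Prop :=
  ∃ g : G3, ((g : Matrix (Fin 3) (Fin 3) ℤ) - 1).det ≠ 0 ∧
    ((g : Matrix (Fin 3) (Fin 3) ℤ) + 1).det ≠ 0 ∧
    H = Subgroup.normalizer (Subgroup.centralizer {g} : Subgroup G3)

/-- H is SO(B,Z) for an anisotropic indefinite form B and contains no involution. -/
def IsAnisoType (H : Subgroup G3) : Prop :=
  ∃ B, Indef B ∧ (∀ p : Fin 3 → ℤ, p ⬝ᵥ B *ᵥ p = 0 → p = 0) ∧ H = SOq B ∧
    ∀ s ∈ H, s ^ 2 = 1 → s = 1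

end Pool.Agent.MP_5045a8_al
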