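import Pool.Agent.MP_5045a8_al.Defs

/-! The special orthogonal group of an integral ternary form. -/

namespace Pool.Agent.MP_5045a8_al

open Matrix

/-- SO(B,Z): the elements g of SL(3,Z) with gᵀ B g = B. -/
def SOq (B : Matrix (Fin 3) (Fin 3) ℤ) : Subgroup G3 where
  carrier := {g | (g : Matrix (Fin 3) (Fin 3) ℤ)ᵀ * B * (g : Matrix (Fin 3) (Fin 3) ℤ) = B}
  one_mem' := by simp
  mul_mem' := by
    intro a b ha hb
    have e : (a * b).1 = a.1 * b.1 := rfl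
    have ha' : a.1ᵀ * B * a.1 = B := ha
    have hb' : b.1ᵀ * B * b.1 = B := hb
    change (a * b).1ᵀ * B * (a * b).1 = B
    rw [e, transpose_mul]
    calc b.1ᵀ * a.1ᵀ * B * (a.1 * b.1) = b.1ᵀ * (a.1ᵀ * B * a.1) * b.1 := by
          simp only [Matrix.mul_assoc]
      _ = B := by rw [ha', hb']
  inv_mem' := by
    intro a ha
    have e : a.1 * (a⁻¹).1 = 1 := congrArg Subtype.val (mul_inv_cancel a)
    have ha' : a.1ᵀ * B * a.1 = B := ha
    change (a⁻¹).1ᵀ * B * (a⁻¹).1 = B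
    calc (a⁻¹).1ᵀ * B * (a⁻¹).1 = (a⁻¹).1ᵀ * (a.1ᵀ * B * a.1) * (a⁻¹).1 := by rw [ha']
      _ = (a.1 * (a⁻¹).1)ᵀ * B * (a.1 * (a⁻¹).1) := by
          simp only [transpose_mul, Matrix.mul_assoc]
      _ = B := by rw [e]; simp

end Pool.Agent.MP_5045a8_al
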