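import Pool.Agent.MP_5045a8_al.DefsN

/-! Maximal plane lifts and the exceptional families of subgroups of SL(3,Z). -/

namespace Pool.Agent.MP_5045a8_al

open Matrix

/-- K stabilises the plane f = 0, acts faithfully on it, and is maximal among the subgroups with
these two properties. -/
def IsMaxLift (f : Fin 3 → ℤ) (K : Subgroup G3) : Prop :=
  f ≠ 0 ∧ IsPlaneLift f K ∧ ∀ L, IsPlaneLift f L → K ≤ L → L = K

/-- K is a maximal plane lift that is not finitely generated, and some nonzero integer vector of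
the plane is fixed by no unipotent element of K other than 1. -/
def IsWildLift (K : Subgroup G3) : Prop :=
  ∃ f, IsMaxLift f K ∧ ¬ K.FG ∧ ∃ x : Fin 3 → ℤ, x ≠ 0 ∧ f ⬝ᵥ x = 0 ∧
    ∀ u ∈ K, ((u : Matrix (Fin 3) (Fin 3) ℤ) - 1) ^ 3 = 0 →
      (u : Matrix (Fin 3) (Fin 3) ℤ) *ᵥ x = x → u = 1

/-- The families of subgroups left undecided. -/
def IsExceptional (H : Subgroup G3) : Prop :=
  IsTorusType H ∨ IsAnisoType H ∨ IsWildLift H ∨ IsWildLift (Transp H)

end Pool.Agent.MP_5045a8_al
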