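import Pool.Agent.MP_5045a8_al.Amen

/-! GL(2,Z) has the Haagerup property. -/

namespace Pool.Agent.MP_5045a8_al

open Finset Filter Topology

/-- The group GL(2,Z). -/
abbrev G2 : Type := GL (Fin 2) ℤ

theorem G2.det_sq (g : G2) : (g 0 0 * g 1 1 - g 0 1 * g 1 0) ^ 2 = 1 := by
  have h : IsUnit (g : Matrix (Fin 2) (Fin 2) ℤ).det := (Matrix.isUnits_det_units g)
  rw [Matrix.det_fin_two] at h
  rcases Int.isUnit_iff.1 h with h | h <;> rw [h] <;> norm_num

theorem G2.det_cases (g : G2) :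
    g 0 0 * g 1 1 - g 0 1 * g 1 0 = 1 ∨ g 0 0 * g 1 1 - g 0 1 * g 1 0 = -1 := by
  have h : IsUnit (g : Matrix (Fin 2) (Fin 2) ℤ).det := (Matrix.isUnits_det_units g)
  rw [Matrix.det_fin_two] at h
  exact Int.isUnit_iff.1 h

theorem G2.mul_apply (g h : G2) (i j : Fin 2) :
    (g * h) i j = g i 0 * h 0 j + g i 1 * h 1 j := by
  simp [Matrix.mul_apply, Fin.sum_univ_two]

theorem G2.finite_entries (R : ℝ) : {g : G2 | ∀ i j, ((g i j : ℤ) : ℝ) ^ 2 ≤ R}.Finite := by
  refine Set.Finite.preimage (f := fun (g : G2) (p : Fin 2 × Fin 2) => g p.1 p.2) ?_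
    (finite_of_entries R) |>.subset fun g hg p => hg p.1 p.2
  intro g _ h _ e
  ext i j
  exact congrFun e (i, j)

theorem hp_GL2 : HP G2 := by
  let p : G2 → ℝ := fun g => ((g 0 0 : ℤ) : ℝ) ^ 2 + ((g 0 1 : ℤ) : ℝ) ^ 2
  let r : G2 → ℝ := fun g => ((g 1 0 : ℤ) : ℝ) ^ 2 + ((g 1 1 : ℤ) : ℝ) ^ 2
  let q : G2 → ℝ := fun g => ((g 0 0 : ℤ) : ℝ) * (g 1 0 : ℤ) + ((g 0 1 : ℤ) : ℝ) * (g 1 1 : ℤ)
  have hd : ∀ g : G2, (((g 0 0 : ℤ) : ℝ) * (g 1 1 : ℤ) - (g 0 1 : ℤ) * (g 1 0 : ℤ)) ^ 2 = 1 :=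
    fun g => by exact_mod_cast G2.det_sq g
  have hpr : ∀ g, p g * r g - q g ^ 2 = 1 := fun g => by
    rw [← hd g]; simp only [p, q, r]; ring
  have h2 : ∀ g, 2 ≤ p g + r g := fun g => by
    have h0 : 0 ≤ p g + r g := by simp only [p, r]; positivity
    nlinarith [hpr g, sq_nonneg (p g - r g), sq_nonneg (q g)]
  have hkey : ∀ g h : G2, p (g⁻¹ * h) + r (g⁻¹ * h) = p g * r h + r g * p h - 2 * q g * q h := by
    intro g h
    obtain ⟨k, rfl⟩ : ∃ k, h = g * k := ⟨g⁻¹ * h, by simp⟩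
    rw [inv_mul_cancel_left, ← one_mul (p k + r k), ← hd g]
    simp only [p, q, r, G2.mul_apply]
    push_cast; ring
  let a : G2 → ℝ := fun g => (p g - r g) / (p g + r g)
  let b : G2 → ℝ := fun g => 2 * q g / (p g + r g)
  have hab : ∀ g, a g ^ 2 + b g ^ 2 < 1 := fun g => by
    have := h2 g
    simp only [a, b, div_pow, ← add_div]
    rw [div_lt_one (by positivity)]
    nlinarith [hpr g]
  have hlt : ∀ g h, |a g * a h + b g * b h| < 1 := fun g h => by
    rw [abs_lt]
    constructor <;> nlinarith [hab g, hab h, sq_nonneg (a g - a h), sq_nonneg (b g - b h),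
      sq_nonneg (a g + a h), sq_nonneg (b g + b h)]
  have hlog : ∀ g h : G2, Real.log ((p (g⁻¹ * h) + r (g⁻¹ * h)) / 2) =
      Real.log ((p g + r g) / 2) + Real.log ((p h + r h) / 2) +
        Real.log (1 - (a g * a h + b g * b h)) := by
    intro g h
    have e1 := h2 g
    have e2 := h2 h
    have e3 := (abs_lt.1 (hlt g h)).2
    rw [← Real.log_mul (by positivity) (by positivity),
      ← Real.log_mul (by positivity) (by linarith), hkey]
    congr 1
    simp only [a, b]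
    field_simp
    ring
  have hK : KP fun g h : G2 => -Real.log (1 - (a g * a h + b g * b h)) := by
    refine KP.of_hasSum (K := fun n g h => ((n : ℝ) + 1)⁻¹ * (a g * a h + b g * b h) ^ (n + 1))
      (fun n => (((KP.rank_one a).add (KP.rank_one b)).pow _).smul (by positivity)) fun g h => ?_
    have := Real.hasSum_pow_div_log_of_abs_lt_one (hlt g h)
    simpa only [div_eq_inv_mul] using this
  have h1 : p 1 + r 1 = 2 := by simp [p, r]; norm_num
  refine Haagerup.hp ⟨fun g => Real.log ((p g + r g) / 2),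
    fun g => Real.log_nonneg (by linarith [h2 g]), by simp [h1], fun g => ?_, fun n g c hc => ?_,
    fun R => ?_⟩
  · have e1 := hkey g 1
    have e2 := hkey 1 g
    simp only [mul_one, inv_one, one_mul] at e1 e2
    simp only [e1, e2]
    congr 1; ring
  · have h3 := hK.2 _ g c
    simp only [hlog]
    let u : Fin n → ℝ := fun i => Real.log ((p (g i) + r (g i)) / 2)
    have e : ∑ i, ∑ j, c i * c j * (u i + u j +
        Real.log (1 - (a (g i) * a (g j) + b (g i) * b (g j)))) = (∑ i, c i * u i) * (∑ j, c j) +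
        (∑ i, c i) * (∑ j, c j * u j) - ∑ i, ∑ j, c i * c j *
          -Real.log (1 - (a (g i) * a (g j) + b (g i) * b (g j))) := by
      rw [Finset.sum_mul_sum, Finset.sum_mul_sum, ← Finset.sum_add_distrib,
        ← Finset.sum_sub_distrib]
      refine Finset.sum_congr rfl fun i _ => ?_
      rw [← Finset.sum_add_distrib, ← Finset.sum_sub_distrib]
      refine Finset.sum_congr rfl fun j _ => by ring
    rw [e, hc]; linarith
  · refine (G2.finite_entries (2 * Real.exp R)).subset fun g hg => ?_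
    simp only [Set.mem_ofPred_eq] at hg
    have e1 := h2 g
    have e2 : (p g + r g) / 2 ≤ Real.exp R := by
      rw [← Real.exp_log (x := (p g + r g) / 2) (by positivity)]
      exact Real.exp_le_exp.2 hg
    simp only [p, r] at e2
    intro i j
    fin_cases i <;> fin_cases j <;> simp only [Fin.zero_eta, Fin.mk_one] <;>
      nlinarith [sq_nonneg ((g 0 0 : ℤ) : ℝ), sq_nonneg ((g 0 1 : ℤ) : ℝ),
        sq_nonneg ((g 1 0 : ℤ) : ℝ), sq_nonneg ((g 1 1 : ℤ) : ℝ)]

end Pool.Agent.MP_5045a8_al
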