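import Pool.Agent.MP_5045a8_al.Cert

/-! Transvections in SL(3,Z) and the basic obstruction to the Haagerup property. -/

namespace Pool.Agent.MP_5045a8_al

open Matrix

/-- Integer vectors of length three. -/
abbrev V3 : Type := Fin 3 → ℤ

/-- Integer matrices of size three. -/
abbrev M3 : Type := Matrix (Fin 3) (Fin 3) ℤ

/-- The matrix 1 + u f. -/
def tv (u f : V3) : M3 := 1 + vecMulVec u f

/-- The cross product. -/
def cr (a b : V3) : V3 := ![a 1 * b 2 - a 2 * b 1, a 2 * b 0 - a 0 * b 2, a 0 * b 1 - a 1 * b 0]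

/-- The matrix of an element of SL(3,Z). -/
def mat (g : G3) : M3 := g.1

theorem mat_mul (g h : G3) : mat (g * h) = mat g * mat h := rfl
theorem mat_one : mat 1 = 1 := rfl
theorem mat_det (g : G3) : (mat g).det = 1 := g.2
theorem mat_ext {g h : G3} (e : mat g = mat h) : g = h := Subtype.ext e
theorem mat_transpose (g : G3) : mat g.transpose = (mat g)ᵀ := rfl
theorem mat_mul_inv (g : G3) : mat g * mat g⁻¹ = 1 := by rw [← mat_mul, mul_inv_cancel, mat_one]
theorem mat_inv_mul (g : G3) : mat g⁻¹ * mat g = 1 := by rw [← mat_mul, inv_mul_cancel, mat_one]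

theorem transpose_mul' (a b : G3) : (a * b).transpose = b.transpose * a.transpose :=
  mat_ext (by rw [mat_mul, mat_transpose, mat_transpose, mat_transpose, mat_mul, transpose_mul])

theorem transpose_one' : (1 : G3).transpose = 1 :=
  mat_ext (by rw [mat_transpose, mat_one, transpose_one])

theorem transpose_inv' (a : G3) : (a⁻¹).transpose = (a.transpose)⁻¹ := by
  rw [eq_inv_iff_mul_eq_one, ← transpose_mul', mul_inv_cancel, transpose_one']

/-- A matrix is the matrix of an element of K. -/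
def Mem (K : Subgroup G3) (M : M3) : Prop := ∃ g ∈ K, mat g = M

theorem dot3 (a b : V3) : a ⬝ᵥ b = a 0 * b 0 + a 1 * b 1 + a 2 * b 2 := by
  simp [dotProduct, Fin.sum_univ_three]

theorem ext3 {a b : V3} : a = b ↔ a 0 = b 0 ∧ a 1 = b 1 ∧ a 2 = b 2 := by
  rw [funext_iff, Fin.forall_fin_succ, Fin.forall_fin_two]; rfl

theorem dot_self_pos {a : V3} (h : a ≠ 0) : 0 < a ⬝ᵥ a := by
  rw [dot3]
  rw [Ne, ext3] at h
  simp only [Pi.zero_apply] at h
  by_contra hn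
  exact h ⟨by nlinarith [sq_nonneg (a 1), sq_nonneg (a 2), sq_nonneg (a 0)],
    by nlinarith [sq_nonneg (a 1), sq_nonneg (a 2), sq_nonneg (a 0)],
    by nlinarith [sq_nonneg (a 1), sq_nonneg (a 2), sq_nonneg (a 0)]⟩

theorem cr0 (a b : V3) : cr a b 0 = a 1 * b 2 - a 2 * b 1 := rfl
theorem cr1 (a b : V3) : cr a b 1 = a 2 * b 0 - a 0 * b 2 := rfl
theorem cr2 (a b : V3) : cr a b 2 = a 0 * b 1 - a 1 * b 0 := rfl

theorem par_dot {a b : V3} (h : cr a b = 0) (x : V3) : (a ⬝ᵥ x) • b = (b ⬝ᵥ x) • a := by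
  simp only [ext3, cr0, cr1, cr2, Pi.zero_apply, dot3, Pi.smul_apply, smul_eq_mul] at h ⊢
  obtain ⟨h0, h1, h2⟩ := h
  refine ⟨?_, ?_, ?_⟩
  · linear_combination x 2 * h1 - x 1 * h2
  · linear_combination x 0 * h2 - x 2 * h0
  · linear_combination x 1 * h0 - x 0 * h1

theorem par_dot_zero {a b x : V3} (h : cr a b = 0) (ha : a ≠ 0) (hx : a ⬝ᵥ x = 0) :
    b ⬝ᵥ x = 0 := by
  have := par_dot h x
  rw [hx, zero_smul] at this
  exact (smul_eq_zero.1 this.symm).resolve_right ha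

theorem cr_comm_zero {a b : V3} (h : cr a b = 0) : cr b a = 0 := by
  simp only [ext3, cr0, cr1, cr2, Pi.zero_apply] at h ⊢
  exact ⟨by linarith [h.1], by linarith [h.2.1], by linarith [h.2.2]⟩

theorem cr_of_perp {f u u' : V3} (h : f ⬝ᵥ u = 0) (h' : f ⬝ᵥ u' = 0) : cr f (cr u u') = 0 := by
  simp only [ext3, cr0, cr1, cr2, Pi.zero_apply, dot3] at h h' ⊢
  refine ⟨?_, ?_, ?_⟩
  · linear_combination u 0 * h' - u' 0 * h
  · linear_combination u 1 * h' - u' 1 * h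
  · linear_combination u 2 * h' - u' 2 * h

theorem cr_trans {a b c : V3} (hb : b ≠ 0) (h : cr a b = 0) (h' : cr c b = 0) : cr a c = 0 := by
  have e1 := par_dot h b
  have e2 := par_dot h' b
  have hp := (dot_self_pos hb).ne'
  simp only [ext3, cr0, cr1, cr2, Pi.zero_apply, Pi.smul_apply, smul_eq_mul] at e1 e2 ⊢
  generalize b ⬝ᵥ b = n at *
  generalize a ⬝ᵥ b = s at *
  generalize c ⬝ᵥ b = t at *
  obtain ⟨a0, a1, a2⟩ := e1
  obtain ⟨c0, c1, c2⟩ := e2
  refine ⟨mul_left_cancel₀ (mul_ne_zero hp hp) ?_, mul_left_cancel₀ (mul_ne_zero hp hp) ?_,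
    mul_left_cancel₀ (mul_ne_zero hp hp) ?_⟩
  · rw [mul_zero]
    have : n * n * (a 1 * c 2 - a 2 * c 1) = (n * a 1) * (n * c 2) - (n * a 2) * (n * c 1) := by
      ring
    rw [this, ← a1, ← a2, ← c1, ← c2]; ring
  · rw [mul_zero]
    have : n * n * (a 2 * c 0 - a 0 * c 2) = (n * a 2) * (n * c 0) - (n * a 0) * (n * c 2) := by
      ring
    rw [this, ← a0, ← a2, ← c0, ← c2]; ring
  · rw [mul_zero]
    have : n * n * (a 0 * c 1 - a 1 * c 0) = (n * a 0) * (n * c 1) - (n * a 1) * (n * c 0) := by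
      ring
    rw [this, ← a0, ← a1, ← c0, ← c1]; ring

theorem tv_apply (u f : V3) (i j : Fin 3) : tv u f i j = (1 : M3) i j + u i * f j := rfl

theorem det_tv (u f : V3) : (tv u f).det = 1 + f ⬝ᵥ u := by
  simp [det_fin_three, tv_apply, dot3]; ring

theorem tv_smul (n : ℤ) (u f : V3) : tv (n • u) f = tv u (n • f) := by
  rw [tv, tv, smul_vecMulVec, vecMulVec_smul]

theorem tv_transpose (u f : V3) : (tv u f)ᵀ = tv f u := by simp [tv]

theorem tv_zero_left (f : V3) : tv 0 f = 1 := by simp [tv]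

theorem tv_mulVec (u f x : V3) : tv u f *ᵥ x = x + (f ⬝ᵥ x) • u := by
  simp [tv, add_mulVec, vecMulVec_mulVec]

theorem vecMul_tv (u f x : V3) : x ᵥ* tv u f = x + (x ⬝ᵥ u) • f := by
  simp [tv, vecMul_add, vecMul_vecMulVec]

theorem tv_mul_axis {u u' f : V3} (h : f ⬝ᵥ u' = 0) : tv u f * tv u' f = tv (u + u') f := by
  simp only [tv, mul_add, add_mul, one_mul, mul_one, vecMulVec_mul_vecMulVec, h, zero_smul,
    vecMulVec_zero, add_vecMulVec]
  abel

theorem tv_mul_centre {u f f' : V3} (h : f ⬝ᵥ u = 0) : tv u f * tv u f' = tv u (f + f') := by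
  simp only [tv, mul_add, add_mul, one_mul, mul_one, vecMulVec_mul_vecMulVec, h, zero_smul,
    vecMulVec_zero, vecMulVec_add]
  abel

theorem tv_conj (g : G3) (u f : V3) :
    mat g * tv u f * mat g⁻¹ = tv (mat g *ᵥ u) (f ᵥ* mat g⁻¹) := by
  rw [tv, mul_add, add_mul, mul_one, mat_mul_inv, mul_vecMulVec, vecMulVec_mul]
  rfl

theorem Mem.dot {K : Subgroup G3} {u f : V3} (h : Mem K (tv u f)) : f ⬝ᵥ u = 0 := by
  obtain ⟨g, -, e⟩ := h
  have := mat_det g
  rw [e, det_tv] at this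
  linarith

theorem Mem.mul {K : Subgroup G3} {M N : M3} (h : Mem K M) (h' : Mem K N) : Mem K (M * N) := by
  obtain ⟨g, hg, rfl⟩ := h
  obtain ⟨g', hg', rfl⟩ := h'
  exact ⟨g * g', K.mul_mem hg hg', rfl⟩

theorem Mem.mono {K L : Subgroup G3} {M : M3} (h : Mem K M) (hle : K ≤ L) : Mem L M := by
  obtain ⟨g, hg, e⟩ := h
  exact ⟨g, hle hg, e⟩

theorem Mem.conj {K : Subgroup G3} {u f : V3} (h : Mem K (tv u f)) {g : G3} (hg : g ∈ K) :
    Mem K (tv (mat g *ᵥ u) (f ᵥ* mat g⁻¹)) := by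
  rw [← tv_conj]
  exact ((Mem.mul ⟨g, hg, rfl⟩ h).mul ⟨_, K.inv_mem hg, rfl⟩)

theorem inv_tv {g : G3} {u f : V3} (e : mat g = tv u f) : mat g⁻¹ = tv (-u) f := by
  have h : f ⬝ᵥ u = 0 := Mem.dot (K := ⊤) ⟨g, trivial, e⟩
  have : tv (-u) f * mat g = 1 := by rw [e, tv_mul_axis h]; simp [tv]
  calc mat g⁻¹ = tv (-u) f * mat g * mat g⁻¹ := by rw [this, one_mul]
    _ = tv (-u) f := by rw [mul_assoc, mat_mul_inv, mul_one]

theorem zpow_tv {g : G3} {u f : V3} (e : mat g = tv u f) (n : ℤ) :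
    mat (g ^ n) = tv (n • u) f := by
  have h : f ⬝ᵥ u = 0 := Mem.dot (K := ⊤) ⟨g, trivial, e⟩
  induction n using Int.induction_on with
  | zero => simp [tv, mat_one]
  | succ n ih =>
    rw [_root_.zpow_add_one, mat_mul, ih, e, tv_mul_axis h, add_smul, one_smul]
  | pred n ih =>
    rw [_root_.zpow_sub_one, mat_mul, ih, inv_tv e,
      tv_mul_axis (by simp [h]), sub_smul, one_smul, sub_eq_add_neg]

theorem Mem.zsmul {K : Subgroup G3} {u f : V3} (h : Mem K (tv u f)) (n : ℤ) :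
    Mem K (tv (n • u) f) := by
  obtain ⟨g, hg, e⟩ := h
  exact ⟨g ^ n, K.zpow_mem hg n, zpow_tv e n⟩

theorem Mem.zsmul' {K : Subgroup G3} {u f : V3} (h : Mem K (tv u f)) (n : ℤ) :
    Mem K (tv u (n • f)) := by
  rw [← tv_smul]; exact h.zsmul n

theorem Mem.add_axis {K : Subgroup G3} {u u' f : V3} (h : Mem K (tv u f)) (h' : Mem K (tv u' f)) :
    Mem K (tv (u + u') f) := by
  rw [← tv_mul_axis h'.dot]; exact h.mul h'

theorem Mem.add_centre {K : Subgroup G3} {u f f' : V3} (h : Mem K (tv u f))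
    (h' : Mem K (tv u f')) : Mem K (tv u (f + f')) := by
  rw [← tv_mul_centre h.dot]; exact h.mul h'

/-- Conjugating one transvection by another. -/
theorem Mem.conj_tv {K : Subgroup G3} {u f u' f' : V3} (h : Mem K (tv u f))
    (h' : Mem K (tv u' f')) : Mem K (tv (u + (f' ⬝ᵥ u) • u') (f - (f ⬝ᵥ u') • f')) := by
  obtain ⟨g, hg, e⟩ := h'
  have := h.conj hg
  rw [inv_tv e, e, tv_mulVec, vecMul_tv] at this
  simpa [sub_eq_add_neg] using this

/-- The transposed subgroup. -/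
def tr (K : Subgroup G3) : Subgroup G3 where
  carrier := {g | g.transpose ∈ K}
  one_mem' := by
    simp only [Set.mem_ofPred_eq, transpose_one', K.one_mem]
  mul_mem' := fun {a b} ha hb => by
    simp only [Set.mem_ofPred_eq, transpose_mul'] at *
    exact K.mul_mem hb ha
  inv_mem' := fun {a} ha => by
    simp only [Set.mem_ofPred_eq, transpose_inv'] at *
    exact K.inv_mem ha

theorem mem_tr {K : Subgroup G3} {g : G3} : g ∈ tr K ↔ g.transpose ∈ K := Iff.rfl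

theorem transpose_transpose' (g : G3) : g.transpose.transpose = g := rfl

theorem tr_tr (K : Subgroup G3) : tr (tr K) = K := rfl

theorem tr_le {K L : Subgroup G3} : tr K ≤ tr L ↔ K ≤ L :=
  ⟨fun h g hg => h (x := g.transpose) hg, fun h _ hg => h hg⟩

theorem tr_lt {K L : Subgroup G3} : tr K < tr L ↔ K < L := by
  simp only [lt_iff_le_not_ge, tr_le]

theorem Mem.tr {K : Subgroup G3} {M : M3} (h : Mem K M) : Mem (tr K) Mᵀ := by
  obtain ⟨g, hg, rfl⟩ := h
  exact ⟨g.transpose, hg, rfl⟩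

theorem Mem.tr_tv {K : Subgroup G3} {u f : V3} (h : Mem K (tv u f)) :
    Mem (MP_5045a8_al.tr K) (tv f u) := by
  rw [← tv_transpose]; exact h.tr

theorem HP.tr {K : Subgroup G3} (h : HP K) : HP (tr K) := by
  refine h.of_injective (MonoidHom.mk' (fun g => ⟨(g.1.transpose)⁻¹, K.inv_mem g.2⟩)
    fun a b => ?_) fun a b e => ?_
  · ext1
    simp [transpose_mul']
  · have : a.1.transpose = b.1.transpose := by simpa using e
    exact Subtype.ext (congrArg SpecialLinearGroup.transpose this)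

/-- Matrices realised by conjugation on a copy of Z^2. -/
def normSub {Γ : Type} [Group Γ] (τ : (Fin 2 → ℤ) → Γ) : Subgroup G2 where
  carrier := {A | ∃ a : Γ, ∀ k, a⁻¹ * τ k * a = τ (k ᵥ* (A : Matrix (Fin 2) (Fin 2) ℤ))}
  one_mem' := ⟨1, fun k => by simp⟩
  mul_mem' := fun {A B} ⟨a, ha⟩ ⟨b, hb⟩ => ⟨a * b, fun k => by
    rw [Units.val_mul, ← vecMul_vecMul, ← hb, ← ha]; group⟩
  inv_mem' := fun {A} ⟨a, ha⟩ => ⟨a⁻¹, fun k => by
    have := ha (k ᵥ* ((A⁻¹ : G2) : Matrix (Fin 2) (Fin 2) ℤ))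
    rw [vecMul_vecMul, ← Units.val_mul, inv_mul_cancel, Units.val_one, vecMul_one] at this
    rw [← this]; group⟩

theorem no_pair {K : Subgroup G3} (hK : HP K) {x ψ ψ' y y' : V3} (hx : x ≠ 0)
    (h1 : Mem K (tv x ψ)) (h2 : Mem K (tv x ψ')) (hy : Mem K (tv y ψ)) (hy' : Mem K (tv y' ψ'))
    (hm : ψ' ⬝ᵥ y ≠ 0) (hm' : ψ ⬝ᵥ y' ≠ 0) : False := by
  have hk : ∀ k : Fin 2 → ℤ, ∃ g : K, mat g = tv x (k 0 • ψ + k 1 • ψ') := fun k => by
    obtain ⟨g, hg, e⟩ := (h1.zsmul' (k 0)).add_centre (h2.zsmul' (k 1))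
    exact ⟨⟨g, hg⟩, e⟩
  choose τ hτ using hk
  have hext : ∀ a b : K, mat a = mat b → a = b := fun a b e => Subtype.ext (mat_ext e)
  have hsub : ∀ k l, τ (l - k) = (τ k)⁻¹ * τ l := by
    intro k l
    rw [eq_inv_mul_iff_mul_eq]
    apply hext
    rw [Subgroup.coe_mul, mat_mul, hτ, hτ, hτ,
      tv_mul_centre (by simp [h1.dot, h2.dot, -zsmul_eq_mul])]
    congr 1
    simp only [Pi.sub_apply, sub_smul]; abel
  have hinj : Function.Injective τ := by
    intro k l e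
    have e1 := hτ k
    rw [e, hτ, tv, tv, add_right_inj, ← sub_eq_zero, sub_eq_add_neg, ← vecMulVec_neg,
      ← vecMulVec_add, vecMulVec_eq_zero] at e1
    have e2 := e1.resolve_left hx
    have a1 := congrArg (· ⬝ᵥ y) e2
    have a2 := congrArg (· ⬝ᵥ y') e2
    simp only [add_dotProduct, neg_dotProduct, smul_dotProduct, hy.dot, hy'.dot, smul_eq_mul,
      zero_dotProduct] at a1 a2
    funext i
    fin_cases i
    · exact mul_right_cancel₀ hm' (by simp only [Fin.zero_eta]; linarith)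
    · exact mul_right_cancel₀ hm (by simp only [Fin.mk_one]; linarith)
  have hvc := burger (C := normSub τ) hK hsub hinj fun A hA => hA
  have key : ∀ (a : K) (z φ : V3), mat a = tv z φ → φ ⬝ᵥ x = 0 → ∀ k,
      mat (a⁻¹ * τ k * a : K) =
        tv x (k 0 • ψ + k 1 • ψ' + ((k 0 • ψ + k 1 • ψ') ⬝ᵥ z) • φ) := by
    intro a z φ e hφ k
    have := tv_conj (a : G3)⁻¹ x (k 0 • ψ + k 1 • ψ')
    rw [inv_inv, ← hτ] at this
    simp only [Subgroup.coe_mul, Subgroup.coe_inv, mat_mul]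
    rw [this, inv_tv e, e, tv_mulVec, vecMul_tv, hφ, zero_smul, add_zero]
  obtain ⟨a, ha, ea⟩ := hy
  obtain ⟨a', ha', ea'⟩ := hy'
  have hy0 : ψ ⬝ᵥ y = 0 := Mem.dot ⟨a, ha, ea⟩
  have hy0' : ψ' ⬝ᵥ y' = 0 := Mem.dot ⟨a', ha', ea'⟩
  refine not_vc_parabolic hvc
    (L := GeneralLinearGroup.mk'' !![1, 0; ψ' ⬝ᵥ y, 1] (by simp))
    (R := GeneralLinearGroup.mk'' !![1, ψ ⬝ᵥ y'; 0, 1] (by simp))
    ⟨⟨a, ha⟩, fun k => hext _ _ ?_⟩ ⟨⟨a', ha'⟩, fun k => hext _ _ ?_⟩ hm hm' rfl rfl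
  · rw [key _ _ _ ea h1.dot, hτ]
    congr 1
    have e0 : (k ᵥ* !![1, 0; ψ' ⬝ᵥ y, 1]) 0 = k 0 + k 1 * (ψ' ⬝ᵥ y) := by
      simp [vecMul, dotProduct]
    have e1 : (k ᵥ* !![1, 0; ψ' ⬝ᵥ y, 1]) 1 = k 1 := by simp [vecMul, dotProduct]
    erw [e0, e1]
    simp only [add_dotProduct, smul_dotProduct, hy0, smul_eq_mul, add_smul, mul_zero, zero_smul]
    abel
  · rw [key _ _ _ ea' h2.dot, hτ]
    congr 1
    have e0 : (k ᵥ* !![1, ψ ⬝ᵥ y'; 0, 1]) 0 = k 0 := by simp [vecMul, dotProduct]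
    have e1 : (k ᵥ* !![1, ψ ⬝ᵥ y'; 0, 1]) 1 = k 0 * (ψ ⬝ᵥ y') + k 1 := by
      simp [vecMul, dotProduct]
    erw [e0, e1]
    simp only [add_dotProduct, smul_dotProduct, hy0', smul_eq_mul, add_smul, mul_zero, zero_smul]
    abel

end Pool.Agent.MP_5045a8_al
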