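import Pool.Agent.MP_5045a8_al.Kernel

/-! Herglotz representation of positive definite functions on Z^2. -/

namespace Pool.Agent.MP_5045a8_al

open Finset Filter Topology MeasureTheory UnitAddTorus

/-- The two-dimensional torus. -/
abbrev T2 : Type := UnitAddTorus (Fin 2)

/-- Haar probability measure on the torus. -/
noncomputable def vol2 : Measure T2 := Measure.pi fun _ : Fin 2 => AddCircle.haarAddCircle (T := 1)

instance vol2_prob : IsProbabilityMeasure vol2 := by unfold vol2; infer_instance

theorem integral_fourier_haar (n : ℤ) :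
    ∫ x : UnitAddCircle, fourier n x ∂(AddCircle.haarAddCircle (T := 1)) =
      if n = 0 then 1 else 0 := by
  split_ifs with h
  · simp [h]
  · exact integral_eq_zero_of_add_right_eq_neg (μ := AddCircle.haarAddCircle)
      (fourier_add_half_inv_index h one_pos)

theorem integral_mFourier (k : Fin 2 → ℤ) :
    ∫ θ, mFourier k θ ∂vol2 = if k = 0 then 1 else 0 := by
  have := integral_fintype_prod_eq_prod (𝕜 := ℂ) (ι := Fin 2) (E := fun _ => UnitAddCircle)
    (fun i x => fourier (k i) x) (μ := fun _ => AddCircle.haarAddCircle (T := 1))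
  simp only [mFourier, ContinuousMap.coe_mk, vol2]
  rw [this]
  simp only [integral_fourier_haar, Fin.prod_univ_two]
  by_cases h0 : k 0 = 0 <;> by_cases h1 : k 1 = 0 <;> simp [h0, h1, funext_iff, Fin.forall_fin_two]

theorem integrable_cont (μ : Measure T2) [IsFiniteMeasure μ] {E : Type} [NormedAddCommGroup E]
    {f : T2 → E} (hf : Continuous f) : Integrable f μ :=
  hf.integrable_of_hasCompactSupport (HasCompactSupport.of_compactSpace f)

theorem measure_ext_fourier {μ ν : Measure T2} [IsFiniteMeasure μ] [IsFiniteMeasure ν]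
    (h : ∀ k, ∫ θ, mFourier k θ ∂μ = ∫ θ, mFourier k θ ∂ν) : μ = ν := by
  have key : ∀ f : C(T2, ℂ), ∫ θ, f θ ∂μ = ∫ θ, f θ ∂ν := by
    let L : ∀ (m : Measure T2) [IsFiniteMeasure m], C(T2, ℂ) →L[ℂ] ℂ := fun m _ =>
      (L1.integralCLM' ℂ).comp (ContinuousMap.toLp 1 m ℂ)
    have hL : ∀ (m : Measure T2) [IsFiniteMeasure m] (f : C(T2, ℂ)), L m f = ∫ θ, f θ ∂m := by
      intro m _ f
      simp only [L, ContinuousLinearMap.comp_apply]
      rw [← L1.integral_eq', L1.integral_eq_integral]
      exact integral_congr_ae (ContinuousMap.coeFn_toLp m f)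
    have : L μ = L ν := by
      refine ContinuousLinearMap.ext_on (s := Set.range (mFourier (d := Fin 2))) ?_ ?_
      · rw [Submodule.dense_iff_topologicalClosure_eq_top]
        exact span_mFourier_closure_eq_top
      · rintro _ ⟨k, rfl⟩
        rw [hL, hL, h]
    intro f
    rw [← hL, ← hL, this]
  refine ext_of_forall_integral_eq_of_IsFiniteMeasure fun f => ?_
  have := key ⟨fun θ => (f θ : ℂ), by fun_prop⟩
  simp only [ContinuousMap.coe_mk, integral_complex_ofReal] at this
  exact_mod_cast this

/-- The box of side N. -/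
noncomputable def box (N : ℕ) : Finset (Fin 2 → ℤ) :=
  Fintype.piFinset fun _ => Finset.Ico (0 : ℤ) N

theorem box_count (k : Fin 2 → ℤ) :
    Tendsto (fun N : ℕ => (((N : ℝ) ^ 2)⁻¹ * ((box N).filter fun j => j + k ∈ box N).card))
      atTop (𝓝 1) := by
  have h1 : ∀ N : ℕ, |k 0| + |k 1| + 1 ≤ N →
      ((N : ℝ) ^ 2)⁻¹ * ((box N).filter fun j => j + k ∈ box N).card =
        (1 - |(k 0 : ℝ)| / N) * (1 - |(k 1 : ℝ)| / N) := by
    intro N hN
    have a0 := abs_nonneg (k 0)
    have a1 := abs_nonneg (k 1)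
    have e : (box N).filter (fun j => j + k ∈ box N) =
        Fintype.piFinset fun i => Finset.Ico (max 0 (-k i)) (min (N : ℤ) (N - k i)) := by
      ext j
      simp only [box, Finset.mem_filter, Fintype.mem_piFinset, Finset.mem_Ico, Pi.add_apply,
        Fin.forall_fin_two]
      omega
    have c : ∀ i, |k i| ≤ N → (((min (N : ℤ) (N - k i) - max 0 (-k i)).toNat : ℕ) : ℝ) =
        N - |(k i : ℝ)| := by
      intro i hi
      have : (((min (N : ℤ) (N - k i) - max 0 (-k i)).toNat : ℕ) : ℤ) = N - |k i| := by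
        rcases abs_cases (k i) with h | h <;> omega
      exact_mod_cast congrArg (Int.cast : ℤ → ℝ) this
    have hN0 : (0 : ℝ) < N := by
      have : (0 : ℤ) < N := by omega
      exact_mod_cast this
    rw [e, Fintype.card_piFinset]
    simp only [Int.card_Ico, Fin.prod_univ_two, Nat.cast_mul]
    rw [c 0 (by omega), c 1 (by omega)]
    field_simp
  have h2 : Tendsto (fun N : ℕ => (1 - |(k 0 : ℝ)| / N) * (1 - |(k 1 : ℝ)| / N)) atTop
      (𝓝 ((1 - 0) * (1 - 0))) :=
    (tendsto_const_nhds.sub (tendsto_const_div_atTop_nhds_zero_nat _)).mul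
      (tendsto_const_nhds.sub (tendsto_const_div_atTop_nhds_zero_nat _))
  simp only [sub_zero, mul_one] at h2
  refine h2.congr' ?_
  filter_upwards [eventually_ge_atTop (|k 0| + |k 1| + 1).toNat] with N hN
  exact (h1 N (by omega)).symm

theorem herglotz {Φ : (Fin 2 → ℤ) → ℝ} (h : KP fun k l => Φ (l - k)) :
    ∃ μ : Measure T2, IsFiniteMeasure μ ∧ ∀ k, ∫ θ, mFourier k θ ∂μ = Φ k := by
  classical
  have hev : ∀ k, Φ (-k) = Φ k := fun k => by simpa using h.1 k 0
  let R : ℕ → T2 → ℝ := fun N θ => ((N : ℝ) ^ 2)⁻¹ * ∑ j ∈ box N, ∑ l ∈ box N,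
    Φ (l - j) * (mFourier (j - l) θ).re
  have hRc : ∀ N, Continuous (R N) := fun N => by simp only [R]; fun_prop
  have hR0 : ∀ N θ, 0 ≤ R N θ := by
    intro N θ
    refine mul_nonneg (by positivity) ?_
    have h1 := h.2 (box N) (fun j => j) (fun j => (mFourier j.1 θ).re)
    have h2 := h.2 (box N) (fun j => j) (fun j => (mFourier j.1 θ).im)
    refine (add_nonneg h1 h2).trans_eq ?_
    rw [← Finset.sum_add_distrib, ← Finset.sum_coe_sort (box N)]
    refine Finset.sum_congr rfl fun j _ => ?_
    rw [← Finset.sum_add_distrib, ← Finset.sum_coe_sort (box N)]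
    refine Finset.sum_congr rfl fun l _ => ?_
    rw [sub_eq_add_neg j.1, mFourier_add, mFourier_neg]
    simp only [Complex.mul_re, Complex.conj_re, Complex.conj_im]
    ring
  have hint : ∀ (N : ℕ) k, ∫ θ, (R N θ : ℂ) * mFourier k θ ∂vol2 =
      ((((N : ℝ) ^ 2)⁻¹ * ((box N).filter fun j => j + k ∈ box N).card * Φ k : ℝ) : ℂ) := by
    intro N k
    have e : ∀ θ, (R N θ : ℂ) * mFourier k θ = (((N : ℝ) ^ 2)⁻¹ : ℝ) * ∑ j ∈ box N, ∑ l ∈ box N,
        ((Φ (l - j) / 2 : ℝ) * mFourier (j - l + k) θ +
          (Φ (l - j) / 2 : ℝ) * mFourier (l - j + k) θ) := by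
      intro θ
      simp only [R, Complex.ofReal_mul, Complex.ofReal_sum, mul_assoc, Finset.sum_mul]
      congr 1
      refine Finset.sum_congr rfl fun j _ => Finset.sum_congr rfl fun l _ => ?_
      rw [mFourier_add, mFourier_add, ← neg_sub j l, mFourier_neg, Complex.re_eq_add_conj]
      push_cast; ring
    simp only [e]
    rw [integral_const_mul, integral_finsetSum _ fun j _ => integrable_cont _ (by fun_prop)]
    have e2 : ∀ j ∈ box N, ∫ θ, ∑ l ∈ box N, ((Φ (l - j) / 2 : ℝ) * mFourier (j - l + k) θ +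
          (Φ (l - j) / 2 : ℝ) * mFourier (l - j + k) θ) ∂vol2 =
        ∑ l ∈ box N, (((if l = j + k then Φ k / 2 else 0 : ℝ) : ℂ) +
          ((if j = l + k then Φ k / 2 else 0 : ℝ) : ℂ)) := by
      intro j _
      rw [integral_finsetSum _ fun l _ => integrable_cont _ (by fun_prop)]
      refine Finset.sum_congr rfl fun l _ => ?_
      rw [integral_add (integrable_cont _ (by fun_prop)) (integrable_cont _ (by fun_prop)),
        integral_const_mul, integral_const_mul, integral_mFourier, integral_mFourier]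
      congr 1
      · by_cases hl : l = j + k
        · simp [hl]
        · rw [if_neg hl, if_neg fun h0 => hl (by linear_combination -h0)]; simp
      · by_cases hl : j = l + k
        · simp [hl, hev]
        · rw [if_neg hl, if_neg fun h0 => hl (by linear_combination -h0)]; simp
    rw [Finset.sum_congr rfl e2]
    simp only [Finset.sum_add_distrib]
    rw [Finset.sum_comm (s := box N) (t := box N)
      (f := fun j l => ((if j = l + k then Φ k / 2 else 0 : ℝ) : ℂ))]
    simp only [← Complex.ofReal_sum, Finset.sum_ite_eq', ← Finset.sum_filter, Finset.sum_const,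
      nsmul_eq_mul]
    push_cast; ring
  let μ : ℕ → Measure T2 := fun N => vol2.withDensity fun θ => (R N θ).toNNReal
  have hμ : ∀ N k, ∫ θ, mFourier k θ ∂μ N = ∫ θ, (R N θ : ℂ) * mFourier k θ ∂vol2 := by
    intro N k
    rw [integral_withDensity_eq_integral_smul (hRc N).measurable.real_toNNReal]
    refine integral_congr_ae (Eventually.of_forall fun θ => ?_)
    simp [NNReal.smul_def, hR0 N θ]
  have hfin : ∀ N, IsFiniteMeasure (μ N) := fun N =>
    isFiniteMeasure_withDensity_ofReal (integrable_cont vol2 (hRc N)).hasFiniteIntegral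
  let m : ℕ → FiniteMeasure T2 := fun N => ⟨μ N, hfin N⟩
  have hΦ0 : 0 ≤ Φ 0 := by simpa using h.2 Unit (fun _ => 0) (fun _ => 1)
  have hmass : ∀ N, (m N).mass ≤ (Φ 0).toNNReal := by
    intro N
    have h1 := hμ N 0
    rw [hint, mFourier_zero] at h1
    simp only [ContinuousMap.one_apply, integral_const, Complex.real_smul, mul_one,
      Complex.ofReal_inj] at h1
    rw [Real.le_toNNReal_iff_coe_le hΦ0]
    change (μ N).real Set.univ ≤ Φ 0
    rw [h1]
    have h2 : ((N : ℝ) ^ 2)⁻¹ * ((box N).filter fun j => j + 0 ∈ box N).card ≤ 1 := by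
      have : ((box N).filter fun j => j + 0 ∈ box N).card ≤ N ^ 2 := by
        refine (Finset.card_filter_le _ _).trans ?_
        simp [box, Fintype.card_piFinset]
      rw [inv_mul_eq_div]
      exact div_le_one_of_le₀ (by exact_mod_cast this) (by positivity)
    nlinarith
  obtain ⟨ν, -, hν⟩ := (isCompact_setOfPred_finiteMeasure_le_of_compactSpace T2
    (Φ 0).toNNReal).ultrafilter_le_nhds ((hyperfilter ℕ).map m)
    (by
      rw [le_principal_iff, Ultrafilter.mem_coe, Ultrafilter.mem_map]
      exact Eventually.of_forall hmass)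
  refine ⟨ν, inferInstance, fun k => ?_⟩
  have h1 := (FiniteMeasure.tendsto_iff_forall_integral_rclike_tendsto ℂ
    (F := (hyperfilter ℕ : Filter ℕ)) (μs := m)).1 hν
    (BoundedContinuousFunction.mkOfCompact (mFourier k))
  have h2 : Tendsto (fun N => ∫ θ, mFourier k θ ∂μ N) atTop (𝓝 (Φ k)) := by
    simp only [hμ, hint]
    have := (box_count k).mul_const (Φ k)
    rw [one_mul] at this
    exact (Complex.continuous_ofReal.tendsto _).comp this
  exact tendsto_nhds_unique h1 (h2.mono_left Nat.hyperfilter_le_atTop)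

end Pool.Agent.MP_5045a8_al
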