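import Pool.Agent.MP_5045a8_al.Defs

/-! Positive definite kernels and functions; the approximation form of the Haagerup property. -/

namespace Pool.Agent.MP_5045a8_al

open Finset Filter Topology

/-- Positive semidefinite real kernels. -/
def KP {α : Type} (K : α → α → ℝ) : Prop :=
  (∀ a b, K a b = K b a) ∧
    ∀ (ι : Type) [Fintype ι] (x : ι → α) (c : ι → ℝ),
      0 ≤ ∑ i, ∑ j, c i * c j * K (x i) (x j)

namespace KP

variable {α β : Type}

theorem comp {K : α → α → ℝ} (h : KP K) (e : β → α) : KP (fun a b => K (e a) (e b)) :=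
  ⟨fun _ _ => h.1 _ _, fun ι _ x c => h.2 ι (fun i => e (x i)) c⟩

theorem congr {K L : α → α → ℝ} (h : KP K) (e : ∀ a b, L a b = K a b) : KP L := by
  have : L = K := by funext a b; exact e a b
  rwa [this]

theorem rank_one (u : α → ℝ) : KP (fun a b => u a * u b) := by
  refine ⟨fun a b => mul_comm _ _, fun ι _ x c => ?_⟩
  have : ∑ i, ∑ j, c i * c j * (u (x i) * u (x j)) = (∑ i, c i * u (x i)) ^ 2 := by
    rw [sq, Finset.sum_mul_sum]
    refine Finset.sum_congr rfl fun i _ => Finset.sum_congr rfl fun j _ => by ring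
  rw [this]; positivity

theorem add {K L : α → α → ℝ} (h : KP K) (h' : KP L) : KP (fun a b => K a b + L a b) := by
  refine ⟨fun a b => by simp only [h.1 a b, h'.1 a b], fun ι _ x c => ?_⟩
  have := add_nonneg (h.2 ι x c) (h'.2 ι x c)
  simpa only [mul_add, Finset.sum_add_distrib] using this

theorem smul {K : α → α → ℝ} (h : KP K) {t : ℝ} (ht : 0 ≤ t) : KP (fun a b => t * K a b) := by
  refine ⟨fun a b => by simp only [h.1 a b], fun ι _ x c => ?_⟩
  have := mul_nonneg ht (h.2 ι x c)
  simp only [Finset.mul_sum] at this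
  refine this.trans_eq (Finset.sum_congr rfl fun i _ => Finset.sum_congr rfl fun j _ => by ring)

theorem zero : KP (fun _ _ : α => (0 : ℝ)) := ⟨fun _ _ => rfl, fun ι _ x c => by simp⟩

theorem sum {γ : Type} (s : Finset γ) {K : γ → α → α → ℝ} (h : ∀ n ∈ s, KP (K n)) :
    KP (fun a b => ∑ n ∈ s, K n a b) := by
  classical
  induction s using Finset.induction_on with
  | empty => simpa using zero
  | insert a s ha ih =>
    refine ((h a (by simp)).add (ih fun n hn => h n (by simp [hn]))).congr fun x y => ?_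
    rw [Finset.sum_insert ha]

theorem psd {K : α → α → ℝ} (h : KP K) {ι : Type} [Fintype ι] (x : ι → α) :
    (Matrix.of fun i j => K (x i) (x j)).PosSemidef := by
  refine Matrix.PosSemidef.of_dotProduct_mulVec_nonneg ?_ fun c => ?_
  · ext i j; simp [h.1 (x j)]
  · have := h.2 ι x c
    simp only [dotProduct, Matrix.mulVec, Matrix.of_apply, Finset.mul_sum, star_trivial]
    refine this.trans_eq (Finset.sum_congr rfl fun i _ => Finset.sum_congr rfl fun j _ => by ring)

theorem of_psd {K : α → α → ℝ} (hs : ∀ a b, K a b = K b a)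
    (h : ∀ (ι : Type) [Fintype ι] (x : ι → α), (Matrix.of fun i j => K (x i) (x j)).PosSemidef) :
    KP K := by
  refine ⟨hs, fun ι _ x c => ?_⟩
  have := (h ι x).dotProduct_mulVec_nonneg c
  simp only [dotProduct, Matrix.mulVec, Matrix.of_apply, Finset.mul_sum, star_trivial] at this
  refine this.trans_eq (Finset.sum_congr rfl fun i _ => Finset.sum_congr rfl fun j _ => by ring)

theorem mul {K L : α → α → ℝ} (h : KP K) (h' : KP L) : KP (fun a b => K a b * L a b) := by
  refine of_psd (fun a b => by rw [h.1, h'.1]) fun ι _ x => ?_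
  exact (h.psd x).hadamard (h'.psd x)

theorem pow {K : α → α → ℝ} (h : KP K) (n : ℕ) : KP (fun a b => K a b ^ n) := by
  induction n with
  | zero => exact (rank_one fun _ => 1).congr fun a b => by simp
  | succ n ih => exact (ih.mul h).congr fun a b => by rw [pow_succ]

theorem of_hasSum {K : ℕ → α → α → ℝ} {L : α → α → ℝ} (h : ∀ n, KP (K n))
    (hs : ∀ a b, HasSum (fun n => K n a b) (L a b)) : KP L := by
  refine ⟨fun a b => ?_, fun ι _ x c => ?_⟩
  · have h1 := hs a b
    have h2 := hs b a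
    simp only [fun n => (h n).1 b a] at h2
    exact h1.unique h2
  · have : HasSum (fun n => ∑ i, ∑ j, c i * c j * K n (x i) (x j))
        (∑ i, ∑ j, c i * c j * L (x i) (x j)) :=
      hasSum_sum fun i _ => hasSum_sum fun j _ => (hs _ _).mul_left _
    exact this.nonneg fun n => (h n).2 ι x c

theorem exp {K : α → α → ℝ} (h : KP K) : KP (fun a b => Real.exp (K a b)) := by
  refine of_hasSum (K := fun n a b => ((n.factorial : ℝ))⁻¹ * K a b ^ n)
    (fun n => (h.pow n).smul (by positivity)) fun a b => ?_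
  rw [Real.exp_eq_exp_ℝ]
  have := NormedSpace.expSeries_div_hasSum_exp (K a b)
  simpa only [div_eq_inv_mul] using this

theorem delta [DecidableEq α] : KP (fun a b : α => if a = b then (1 : ℝ) else 0) := by
  refine of_psd (fun a b => by simp [eq_comm]) fun ι _ x => ?_
  exact (Matrix.PosSemidef.one (n := α) (R := ℝ)).submatrix x

theorem le_of_diag {K : α → α → ℝ} (h : KP K) (a b : α) : 2 * K a b ≤ K a a + K b b := by
  have := h.2 (Fin 2) ![a, b] ![1, -1]
  simp only [Fin.sum_univ_two, Matrix.cons_val_zero, Matrix.cons_val_one] at this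
  rw [h.1 b a] at this
  linarith

end KP

/-- Positive definite functions on a group. -/
def PD {Γ : Type} [Group Γ] (φ : Γ → ℝ) : Prop := KP (fun g h : Γ => φ (g⁻¹ * h))

theorem PD.le_one {Γ : Type} [Group Γ] {φ : Γ → ℝ} (h : PD φ) (h1 : φ 1 = 1) (g : Γ) :
    φ g ≤ 1 := by
  have := KP.le_of_diag h 1 g
  simp only [inv_one, mul_one, one_mul, inv_mul_cancel, h1] at this
  linarith

theorem PD.inv {Γ : Type} [Group Γ] {φ : Γ → ℝ} (h : PD φ) (g : Γ) : φ g⁻¹ = φ g := by
  have := h.1 g 1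
  simpa using this

/-- The approximation form of the Haagerup property. -/
def HP (Γ : Type) [Group Γ] : Prop :=
  ∀ (S : Finset Γ) (ε : ℝ), 0 < ε → ∃ φ : Γ → ℝ, PD φ ∧ φ 1 = 1 ∧ (∀ g, 0 ≤ φ g) ∧
    (∀ δ : ℝ, 0 < δ → {g | δ ≤ φ g}.Finite) ∧ ∀ g ∈ S, 1 - ε ≤ φ g

theorem cnd_fintype {Γ : Type} [Group Γ] {ψ : Γ → ℝ}
    (h : ∀ (n : ℕ) (g : Fin n → Γ) (c : Fin n → ℝ), ∑ i, c i = 0 →
      ∑ i, ∑ j, c i * c j * ψ ((g i)⁻¹ * g j) ≤ 0)
    (ι : Type) [Fintype ι] (g : ι → Γ) (c : ι → ℝ) (hc : ∑ i, c i = 0) :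
    ∑ i, ∑ j, c i * c j * ψ ((g i)⁻¹ * g j) ≤ 0 := by
  let e := (Fintype.equivFin ι).symm
  have := h _ (fun i => g (e i)) (fun i => c (e i)) (by rw [Equiv.sum_comp e c, hc])
  rw [← Equiv.sum_comp e]
  simp only [← Equiv.sum_comp e (fun j => c (e _) * c j * ψ ((g (e _))⁻¹ * g j))]
  exact this

theorem Haagerup.hp {Γ : Type} [Group Γ] (h : Haagerup Γ) : HP Γ := by
  obtain ⟨ψ, h0, h1, hinv, hcnd, hfin⟩ := h
  have hsym : ∀ g h : Γ, ψ (g⁻¹ * h) = ψ (h⁻¹ * g) := fun g h => by
    rw [← hinv]; simp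
  have hK : KP (fun g h : Γ => ψ g + ψ h - ψ (g⁻¹ * h)) := by
    refine ⟨fun a b => by simp only [hsym a b]; ring, fun ι _ x c => ?_⟩
    have := cnd_fintype hcnd (Option ι) (fun o => o.elim 1 x)
      (fun o => o.elim (-∑ i, c i) c) (by simp [Fintype.sum_option])
    simp only [Fintype.sum_option, Option.elim, inv_one, mul_one, one_mul, h1, hinv,
      Finset.sum_add_distrib] at this
    have e1 : ∑ i, ∑ j, c i * c j * (ψ (x i) + ψ (x j) - ψ ((x i)⁻¹ * x j)) =
        (∑ i, c i * ψ (x i)) * (∑ j, c j) + (∑ i, c i) * (∑ j, c j * ψ (x j)) -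
          ∑ i, ∑ j, c i * c j * ψ ((x i)⁻¹ * x j) := by
      rw [Finset.sum_mul_sum, Finset.sum_mul_sum, ← Finset.sum_add_distrib,
        ← Finset.sum_sub_distrib]
      refine Finset.sum_congr rfl fun i _ => ?_
      rw [← Finset.sum_add_distrib, ← Finset.sum_sub_distrib]
      refine Finset.sum_congr rfl fun j _ => by ring
    have e2 : ∑ j, (-∑ i, c i) * c j * ψ (x j) = -((∑ i, c i) * ∑ j, c j * ψ (x j)) := by
      generalize ∑ i, c i = s
      rw [Finset.mul_sum, ← Finset.sum_neg_distrib]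
      refine Finset.sum_congr rfl fun j _ => by ring
    have e3 : ∑ j, c j * (-∑ i, c i) * ψ (x j) = -((∑ j, c j * ψ (x j)) * ∑ i, c i) := by
      generalize ∑ i, c i = s
      rw [Finset.sum_mul, ← Finset.sum_neg_distrib]
      refine Finset.sum_congr rfl fun j _ => by ring
    rw [e1]; rw [e2, e3] at this
    linarith
  intro S ε hε
  obtain ⟨B, hB0, hB⟩ : ∃ B : ℝ, 0 < B ∧ ∀ s ∈ S, ψ s ≤ B :=
    ⟨1 + ∑ s ∈ S, ψ s, by have := Finset.sum_nonneg fun s (_ : s ∈ S) => h0 s; linarith,
      fun s hs => by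
      have := Finset.single_le_sum (f := ψ) (fun s _ => h0 s) hs
      linarith⟩
  set t : ℝ := ε / B with ht
  have ht0 : 0 < t := by positivity
  refine ⟨fun g => Real.exp (-(t * ψ g)), ?_, by simp [h1], fun g => (Real.exp_pos _).le,
    fun δ hδ => ?_, fun g hg => ?_⟩
  · refine (((hK.smul ht0.le).exp).mul (KP.rank_one fun g => Real.exp (-(t * ψ g)))).congr
      fun a b => ?_
    simp only [← Real.exp_add]
    congr 1; ring
  · refine (hfin (-Real.log δ / t)).subset fun g hg => ?_
    simp only [Set.mem_ofPred_eq] at hg ⊢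
    have := Real.log_le_log hδ hg
    rw [Real.log_exp] at this
    rw [le_div_iff₀ ht0]; linarith
  · have h2 := Real.add_one_le_exp (-(t * ψ g))
    have h3 : t * ψ g ≤ ε := by
      calc t * ψ g ≤ t * B := by gcongr; exact hB g hg
        _ = ε := by rw [ht]; field_simp
    linarith

theorem HP.haagerup {Γ : Type} [Group Γ] [Countable Γ] (h : HP Γ) : Haagerup Γ := by
  classical
  obtain ⟨e, he⟩ := exists_surjective_nat Γ
  choose φ hpd h1 h0 hfin hS using fun k : ℕ =>
    h ((Finset.range (k + 1)).image e) ((1 / 2) ^ k) (by positivity)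
  have hle : ∀ k g, φ k g ≤ 1 := fun k g => (hpd k).le_one (h1 k) g
  have hsum : ∀ g, Summable fun k => 1 - φ k g := by
    intro g
    obtain ⟨n, rfl⟩ := he g
    rw [← summable_nat_add_iff n]
    refine Summable.of_nonneg_of_le (fun k => by linarith [hle (k + n) (e n)]) (fun k => ?_)
      ((summable_nat_add_iff n).2 (summable_geometric_two))
    have := hS (k + n) (e n) (Finset.mem_image_of_mem _ (by simp))
    linarith
  refine ⟨fun g => ∑' k, (1 - φ k g), fun g => tsum_nonneg fun k => by linarith [hle k g],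
    by simp [h1], fun g => by simp only [fun k => (hpd k).inv g], fun n g c hc => ?_,
    fun R => ?_⟩
  · have : HasSum (fun k => ∑ i, ∑ j, c i * c j * (1 - φ k ((g i)⁻¹ * g j)))
        (∑ i, ∑ j, c i * c j * ∑' k, (1 - φ k ((g i)⁻¹ * g j))) :=
      hasSum_sum fun i _ => hasSum_sum fun j _ => (hsum _).hasSum.mul_left _
    refine this.nonpos fun k => ?_
    have h2 := (hpd k).2 (Fin n) g c
    have h3 : ∑ i, ∑ j, c i * c j * (1 - φ k ((g i)⁻¹ * g j)) =
        (∑ i, c i) * (∑ j, c j) - ∑ i, ∑ j, c i * c j * φ k ((g i)⁻¹ * g j) := by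
      rw [Finset.sum_mul_sum, ← Finset.sum_sub_distrib]
      refine Finset.sum_congr rfl fun i _ => ?_
      rw [← Finset.sum_sub_distrib]
      refine Finset.sum_congr rfl fun j _ => by ring
    rw [h3, hc]; linarith
  · obtain ⟨m, hm⟩ := exists_nat_gt (2 * R)
    refine ((Finset.range m).finite_toSet.biUnion fun k _ => hfin k (1 / 2) (by norm_num)).subset
      fun g hg => ?_
    simp only [Set.mem_ofPred_eq] at hg
    by_contra hn
    simp only [Set.mem_iUnion, Set.mem_ofPred_eq, not_exists, not_le, Finset.mem_coe] at hn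
    have h2 : ∑ k ∈ Finset.range m, (1 - φ k g) ≤ ∑' k, (1 - φ k g) :=
      (hsum g).sum_le_tsum _ fun k _ => by linarith [hle k g]
    have h3 : ∑ k ∈ Finset.range m, (1 / 2 : ℝ) ≤ ∑ k ∈ Finset.range m, (1 - φ k g) :=
      Finset.sum_le_sum fun k hk => by linarith [hn k hk]
    simp only [Finset.sum_const, Finset.card_range, nsmul_eq_mul] at h3
    linarith

theorem HP.of_injective {Γ Δ : Type} [Group Γ] [Group Δ] (h : HP Δ) (f : Γ →* Δ)
    (hf : Function.Injective f) : HP Γ := by
  classical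
  intro S ε hε
  obtain ⟨φ, hpd, h1, h0, hfin, hS⟩ := h (S.image f) ε hε
  refine ⟨fun g => φ (f g), (KP.comp hpd f).congr fun a b => by simp, by simp [h1],
    fun g => h0 _, fun δ hδ => Set.Finite.preimage (f := f) hf.injOn (hfin δ hδ),
    fun g hg => hS _ (Finset.mem_image_of_mem _ hg)⟩

theorem HP.mono {Γ : Type} [Group Γ] {H K : Subgroup Γ} (h : HP K) (hle : H ≤ K) : HP H :=
  h.of_injective (Subgroup.inclusion hle) (Subgroup.inclusion_injective hle)

end Pool.Agent.MP_5045a8_al
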