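import Pool.Agent.MP_5045a8_al.Geo

/-! Lattices of transvections with a common axis, and lines of centres. -/

namespace Pool.Agent.MP_5045a8_al

open Matrix

/-- K contains a lattice of transvections with axis f. -/
def LatAx (K : Subgroup G3) (f : V3) : Prop :=
  f ≠ 0 ∧ ∃ N : ℤ, N ≠ 0 ∧ ∀ x, f ⬝ᵥ x = 0 → Mem K (tv (N • x) f)

/-- K fixes the covector f up to sign. -/
def Stab (K : Subgroup G3) (f : V3) : Prop := ∀ g ∈ K, f ᵥ* mat g = f ∨ f ᵥ* mat g = -f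

/-- Every rational point of the line f = 0 is the centre of a transvection in K. -/
def Centres (K : Subgroup G3) (f : V3) : Prop :=
  ∀ x, x ≠ 0 → f ⬝ᵥ x = 0 → ∃ φ, φ ≠ 0 ∧ Mem K (tv x φ)

theorem LatAx.mono {K L : Subgroup G3} {f : V3} (h : LatAx K f) (hle : K ≤ L) : LatAx L f := by
  obtain ⟨h0, N, hN, h⟩ := h
  exact ⟨h0, N, hN, fun x hx => (h x hx).mono hle⟩

theorem Centres.mono {K L : Subgroup G3} {f : V3} (h : Centres K f) (hle : K ≤ L) :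
    Centres L f := fun x h0 hx => by
  obtain ⟨φ, hφ, hm⟩ := h x h0 hx
  exact ⟨φ, hφ, hm.mono hle⟩

theorem dot_cr_left (a b : V3) : a ⬝ᵥ cr a b = 0 := by simp only [dot3, cr0, cr1, cr2]; ring

theorem dot_cr_right (a b : V3) : b ⬝ᵥ cr a b = 0 := by simp only [dot3, cr0, cr1, cr2]; ring

theorem dot_cr_cr (a b : V3) : b ⬝ᵥ cr a (cr a b) = -(cr a b ⬝ᵥ cr a b) := by
  simp only [dot3, cr0, cr1, cr2]; ring

theorem dot_cr_cr' (a b : V3) : a ⬝ᵥ cr b (cr a b) = cr a b ⬝ᵥ cr a b := by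
  simp only [dot3, cr0, cr1, cr2]; ring

theorem lat_of_two {K : Subgroup G3} {u u' f : V3} (h : Mem K (tv u f)) (h' : Mem K (tv u' f))
    (hf : f ≠ 0) (hu : cr u u' ≠ 0) : LatAx K f := by
  refine ⟨hf, cr u u' ⬝ᵥ cr u u', (dot_self_pos hu).ne', fun x hx => ?_⟩
  have h0 := par_dot_zero (cr_of_perp h.dot h'.dot) hf hx
  have e : (cr u u' ⬝ᵥ cr u u') • x = (x ⬝ᵥ cr u' (cr u u')) • u + (x ⬝ᵥ cr (cr u u') u) • u' := by
    simp only [ext3, dot3, cr0, cr1, cr2, Pi.add_apply, Pi.smul_apply, smul_eq_mul] at h0 ⊢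
    refine ⟨?_, ?_, ?_⟩
    · linear_combination (u 1 * u' 2 - u 2 * u' 1) * h0
    · linear_combination (u 2 * u' 0 - u 0 * u' 2) * h0
    · linear_combination (u 0 * u' 1 - u 1 * u' 0) * h0
  rw [e]
  exact (h.zsmul _).add_axis (h'.zsmul _)

theorem gcd_dvd_vecMul (f : V3) (M : M3) : Finset.univ.gcd f ∣ Finset.univ.gcd (f ᵥ* M) := by
  refine Finset.dvd_gcd fun j _ => ?_
  simp only [vecMul, dotProduct]
  exact Finset.dvd_sum fun i _ => (Finset.gcd_dvd (Finset.mem_univ i)).mul_right _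

theorem par_unit {f : V3} (hf : f ≠ 0) (g : G3) (h : cr f (f ᵥ* mat g) = 0) :
    f ᵥ* mat g = f ∨ f ᵥ* mat g = -f := by
  set f' := f ᵥ* mat g with hf'
  have e := par_dot h f
  have d1 := gcd_dvd_vecMul f (mat g)
  have d2 := gcd_dvd_vecMul f' (mat g⁻¹)
  rw [hf', vecMul_vecMul, mat_mul_inv, vecMul_one, ← hf'] at d2
  rw [← hf'] at d1
  have e1 : Finset.univ.gcd f' = Finset.univ.gcd f := by
    have := normalize_eq_normalize d2 d1
    rwa [Finset.normalize_gcd, Finset.normalize_gcd] at this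
  have e2 : Finset.univ.gcd ((f ⬝ᵥ f) • f') = Finset.univ.gcd ((f' ⬝ᵥ f) • f) := by rw [e]
  have e3 := Finset.gcd_mul_left (s := Finset.univ) (f := f') (a := f ⬝ᵥ f)
  have e4 := Finset.gcd_mul_left (s := Finset.univ) (f := f) (a := f' ⬝ᵥ f)
  have hd : Finset.univ.gcd f ≠ 0 := by
    rw [Ne, Finset.gcd_eq_zero_iff]
    exact fun h0 => hf (funext fun i => h0 i (Finset.mem_univ i))
  have e5 : normalize (f ⬝ᵥ f) = normalize (f' ⬝ᵥ f) := by
    apply mul_right_cancel₀ hd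
    rw [← e4, ← e1, ← e3]; exact e2
  rw [← Int.abs_eq_normalize, ← Int.abs_eq_normalize, abs_eq_abs] at e5
  have hp := (dot_self_pos hf).ne'
  rcases e5 with e5 | e5
  · left
    rw [← e5] at e
    exact smul_right_injective _ hp e
  · right
    refine smul_right_injective _ hp ?_
    simp only [e, smul_neg]
    rw [e5, neg_smul, neg_neg]

theorem LatAx.conj {K : Subgroup G3} {f : V3} (h : LatAx K f) {g : G3} (hg : g ∈ K) :
    LatAx K (f ᵥ* mat g) := by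
  obtain ⟨h0, N, hN, h⟩ := h
  refine ⟨fun e => h0 ?_, N, hN, fun x hx => ?_⟩
  · have := congrArg (· ᵥ* mat g⁻¹) e
    simpa [vecMul_vecMul, mat_mul_inv] using this
  · have := (h (mat g *ᵥ x) (by rw [dotProduct_mulVec, hx])).conj (K.inv_mem hg)
    rwa [mulVec_smul, mulVec_mulVec, mat_inv_mul, one_mulVec, inv_inv] at this

theorem LatAx.stab {K : Subgroup G3} (hK : HP K) {f : V3} (h : LatAx K f) : Stab K f := by
  intro g hg
  refine par_unit h.1 g ?_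
  obtain ⟨-, N', hN', h'⟩ := h.conj hg
  obtain ⟨-, N, hN, h⟩ := h
  set f' := f ᵥ* mat g
  by_contra hne
  have hp := (dot_self_pos hne).ne'
  have a1 := (h _ (dot_cr_left f f')).zsmul N'
  have a2 := (h' _ (dot_cr_right f f')).zsmul N
  rw [smul_comm] at a2
  refine no_pair hK (smul_ne_zero hN' (smul_ne_zero hN hne)) a1 a2
    (h _ (dot_cr_left f (cr f f'))) (h' _ (dot_cr_left f' (cr f f'))) ?_ ?_
  · rw [dotProduct_smul, dot_cr_cr]; simp [hN, hp]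
  · rw [dotProduct_smul, dot_cr_cr']; simp [hN', hp]

theorem cr_smul_ne {u u' f : V3} {n : ℤ} (hn : n ≠ 0) (hu' : u' ≠ 0) (h : f ⬝ᵥ u' = 0)
    (h' : f ⬝ᵥ u ≠ 0) : cr u (n • u') ≠ 0 := by
  intro e
  have := par_dot (cr_comm_zero e) f
  rw [smul_dotProduct, dotProduct_comm u', h, smul_zero, zero_smul, dotProduct_comm u] at this
  exact smul_ne_zero h' (smul_ne_zero hn hu') this.symm

theorem lat_of_comm {K : Subgroup G3} {u f u' f' : V3} (h : Mem K (tv u f))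
    (h' : Mem K (tv u' f')) (hf : f ≠ 0) (hu' : u' ≠ 0) (h0 : f ⬝ᵥ u' = 0) (h1 : f' ⬝ᵥ u ≠ 0) :
    LatAx K f := by
  have a := h.conj_tv h'
  rw [h0, zero_smul, sub_zero] at a
  have b := a.add_axis (h.zsmul (-1))
  rw [neg_one_smul, add_neg_cancel_comm] at b
  exact lat_of_two h b hf (cr_smul_ne h1 hu' h'.dot h1)

theorem lat_of_par {K : Subgroup G3} {u f u' f' : V3} (h : Mem K (tv u f))
    (h' : Mem K (tv u' f')) (hf : f ≠ 0) (hf' : f' ≠ 0) (hp : cr f f' = 0) (hu : cr u u' ≠ 0) :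
    LatAx K f := by
  have e := par_dot hp f
  have b := h'.zsmul' (f ⬝ᵥ f)
  rw [e, ← tv_smul] at b
  refine lat_of_two h b hf fun e2 => hu ?_
  have hn : f' ⬝ᵥ f ≠ 0 := by
    intro e0
    rw [e0, zero_smul] at e
    exact smul_ne_zero (dot_self_pos hf).ne' hf' e
  have : cr u ((f' ⬝ᵥ f) • u') = (f' ⬝ᵥ f) • cr u u' := by
    simp only [ext3, cr0, cr1, cr2, Pi.smul_apply, smul_eq_mul]
    refine ⟨by ring, by ring, by ring⟩
  rw [this] at e2
  exact (smul_eq_zero.1 e2).resolve_left hn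

theorem lemmaN {K : Subgroup G3} {u f u' f' : V3} (h : Mem K (tv u f)) (h' : Mem K (tv u' f'))
    (hu : u ≠ 0) (hf : f ≠ 0) (hu' : u' ≠ 0) (hf' : f' ≠ 0) (h0 : f ⬝ᵥ u' = 0)
    (hne : cr u u' ≠ 0 ∨ cr f f' ≠ 0) : LatAx K f ∨ LatAx (tr K) u := by
  by_cases h1 : f' ⬝ᵥ u = 0
  swap
  · exact Or.inl (lat_of_comm h h' hf hu' h0 h1)
  by_cases h2 : cr u u' = 0
  · exact Or.inr (lat_of_par h.tr_tv h'.tr_tv hu hu' h2 (hne.resolve_left fun x => x h2))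
  · exact Or.inl (lat_of_par h h' hf hf'
      (cr_trans h2 (cr_of_perp h.dot h0) (cr_of_perp h1 h'.dot)) h2)

theorem Stab.dot {K : Subgroup G3} {f x ψ : V3} (h : Stab K f) (hm : Mem K (tv x ψ))
    (hψ : ψ ≠ 0) : f ⬝ᵥ x = 0 := by
  have h0 := hm.dot
  obtain ⟨g, hg, e⟩ := hm
  rcases h g hg with h | h <;> rw [e, vecMul_tv] at h
  · exact (smul_eq_zero.1 (add_eq_left.1 h)).resolve_right hψ
  · have := congrArg (· ⬝ᵥ x) h
    simp only [add_dotProduct, smul_dotProduct, h0, smul_zero, neg_dotProduct] at this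
    linarith

theorem LatAx.mem_par {K : Subgroup G3} {f : V3} (h : LatAx K f) :
    ∃ N : ℤ, N ≠ 0 ∧ ∀ x, f ⬝ᵥ x = 0 → Mem K (tv x (N • f)) := by
  obtain ⟨-, N, hN, h⟩ := h
  exact ⟨N, hN, fun x hx => by rw [← tv_smul]; exact h x hx⟩

theorem dot_ne_of_indep {ψ y u x : V3} (hψ : ψ ≠ 0) (h1 : ψ ⬝ᵥ y = 0) (h2 : ψ ⬝ᵥ u = 0)
    (h : cr y u ⬝ᵥ x ≠ 0) : ψ ⬝ᵥ x ≠ 0 := fun e =>
  h (par_dot_zero (cr_of_perp h1 h2) hψ e)

/-- Two transvections with centres independent modulo a common-centre lattice. -/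
theorem no_lat_centre {K : Subgroup G3} (hK : HP K) {u y y' ψ ψ' : V3} (h : LatAx (tr K) u)
    (hy : Mem K (tv y ψ)) (hy' : Mem K (tv y' ψ')) (hψ : ψ ≠ 0) (hψ' : ψ' ≠ 0)
    (hy0 : y ≠ 0) (hy0' : y' ≠ 0) (hind : cr y u ⬝ᵥ y' ≠ 0) : False := by
  have hs := h.stab hK.tr
  have p1 := hs.dot hy.tr_tv hy0
  have p2 := hs.dot hy'.tr_tv hy0'
  obtain ⟨N, hN, hm⟩ := h.mem_par
  have a1 : Mem K (tv (N • u) ψ) := (hm ψ p1).tr_tv
  have a2 : Mem K (tv (N • u) ψ') := (hm ψ' p2).tr_tv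
  rw [dotProduct_comm] at p1 p2
  refine no_pair hK (smul_ne_zero hN h.1) a1 a2 hy hy' (dot_ne_of_indep hψ' hy'.dot p2 ?_)
    (dot_ne_of_indep hψ hy.dot p1 hind)
  intro e
  apply hind
  simp only [dot3, cr0, cr1, cr2] at e ⊢
  linear_combination -e

theorem exists_perp {f f' : V3} (h : cr f f' ≠ 0) : ∃ y, y ≠ 0 ∧ f ⬝ᵥ y = 0 ∧ f' ⬝ᵥ y ≠ 0 := by
  have : f' ⬝ᵥ cr f (cr f f') ≠ 0 := by
    rw [dot_cr_cr]; exact neg_ne_zero.2 (dot_self_pos h).ne'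
  exact ⟨_, fun e => this (by rw [e]; simp), dot_cr_left _ _, this⟩

theorem cr_ne_comm {a b : V3} (h : cr a b ≠ 0) : cr b a ≠ 0 := fun e => h (cr_comm_zero e)

theorem cr_ne_of_dot {f y y' : V3} (hy' : y' ≠ 0) (h : f ⬝ᵥ y' = 0) (h' : f ⬝ᵥ y ≠ 0) :
    cr y y' ≠ 0 := by
  simpa using cr_smul_ne one_ne_zero hy' h h'

theorem exists_perp_ne {f f' : V3} (hf : f ≠ 0) :
    ∃ y, y ≠ 0 ∧ f ⬝ᵥ y = 0 ∧ f' ⬝ᵥ y = 0 := by
  by_cases h : cr f f' = 0
  · obtain ⟨e, he⟩ : ∃ e, cr f e ≠ 0 := by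
      by_contra hn
      push Not at hn
      have a := hn ![1, 0, 0]
      have b := hn ![0, 1, 0]
      simp [ext3, cr0, cr1, cr2] at a b
      exact hf (ext3.2 ⟨b.2, a.2, a.1⟩)
    exact ⟨_, he, dot_cr_left _ _, par_dot_zero h hf (dot_cr_left _ _)⟩
  · exact ⟨_, h, dot_cr_left _ _, dot_cr_right _ _⟩

theorem Centres.stab {K : Subgroup G3} (hK : HP K) {f : V3} (hf : f ≠ 0) (h : Centres K f) :
    Stab K f := by
  intro g hg
  refine par_unit hf g ?_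
  have h' : Centres K (f ᵥ* mat g) := by
    intro x hx0 hx
    have hinj : mat g *ᵥ x ≠ 0 := fun e => hx0 (by
      have := congrArg (mat g⁻¹ *ᵥ ·) e
      simpa [mulVec_mulVec, mat_inv_mul] using this)
    obtain ⟨φ, hφ, hm⟩ := h (mat g *ᵥ x) hinj (by rw [dotProduct_mulVec, hx])
    have := hm.conj (K.inv_mem hg)
    rw [mulVec_mulVec, mat_inv_mul, one_mulVec, inv_inv] at this
    refine ⟨_, fun e => hφ ?_, this⟩
    have := congrArg (· ᵥ* mat g⁻¹) e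
    simpa [vecMul_vecMul, mat_mul_inv] using this
  set f' := f ᵥ* mat g
  by_contra hne
  have hf' : f' ≠ 0 := fun e => hne (by rw [e]; simp [ext3, cr0, cr1, cr2])
  obtain ⟨y, hy0, hy, hy'⟩ := exists_perp hne
  obtain ⟨φ, hφ, hm⟩ := h y hy0 hy
  obtain ⟨z, hz0, hz, hz'⟩ := exists_perp_ne (f' := φ) hf'
  obtain ⟨ψ, hψ, hm'⟩ := h' z hz0 hz
  rcases lemmaN hm hm' hy0 hφ hz0 hψ hz' (Or.inl (cr_ne_of_dot hz0 hz hy')) with hl | hl
  · have hs := hl.stab hK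
    have p : ∀ {e : V3}, e ≠ 0 → Centres K e → cr φ e = 0 := by
      intro e he hc
      by_contra hn
      obtain ⟨x, hx0, hx, hx'⟩ := exists_perp (cr_ne_comm hn)
      obtain ⟨χ, hχ, hmx⟩ := hc x hx0 hx
      exact hx' (hs.dot hmx hχ)
    exact hne (cr_trans hφ (cr_comm_zero (p hf h)) (cr_comm_zero (p hf' h')))
  · obtain ⟨w, hw0, hw, hw'⟩ := exists_perp (cr_ne_comm hne)
    obtain ⟨χ, hχ, hmw⟩ := h' w hw0 hw
    obtain ⟨χ', hχ', hmx⟩ := h _ hne (dot_cr_left _ _)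
    refine no_lat_centre hK hl hmx hmw hχ' hχ hne hw0 fun e => hw' ?_
    have hc : cr (cr f f') y ≠ 0 := cr_ne_comm (cr_ne_of_dot hne (dot_cr_right _ _) hy')
    exact par_dot_zero (cr_comm_zero (cr_of_perp (dot_cr_left _ _) hy)) hc e

end Pool.Agent.MP_5045a8_al
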