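import Pool.Agent.Mg.F5045a8.Gcbdcbf

/-! Rational Levi subgroups of SL(3,Z) are maximal Haagerup, and are the only maximal Haagerup
subgroups containing one of their finite-index subgroups. -/

namespace Pool.Agent.MP_5045a8_al.LeviOld

open Pool.Agent.MP_5045a8_al Matrix

theorem result (v f : Fin 3 → ℤ) (h : f ⬝ᵥ v ≠ 0) (H : Subgroup G3)
    (hi : H.relIndex (Levi v f) ≠ 0) : IsMaxHaagerup H ↔ H = Levi v f :=
  (isMax_iff H).trans (levi_iff h hi)

end Pool.Agent.MP_5045a8_al.LeviOld
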