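import Pool.Agent.MP_5045a8_al.Free

/-! Continuum many maximal Haagerup subgroups inside the parabolic subgroup. -/

namespace Pool.Agent.MP_5045a8_al

open Matrix Cardinal
open scoped MatrixGroups

/-- Lift of the first generator. -/
def ahat : P0 := ⟨mk3 !![2, 1, 0; 1, 1, 0; 0, 0, 1] (by simp [det_fin_three]), ⟨rfl, rfl⟩⟩

/-- Lifts of the second generator. -/
def bhat (w : ℤ) : P0 :=
  ⟨mk3 !![1, 1, w; 1, 2, 0; 0, 0, 1] (by simp [det_fin_three]), ⟨rfl, rfl⟩⟩

/-- The lifted free generators. -/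
def genP (β : ℕ → Bool) (i : ℤ) : P0 :=
  ahat ^ i * bhat (if β i.toNat then 1 else 0) * (ahat ^ i)⁻¹

/-- The lifted free group. -/
def liftH (β : ℕ → Bool) : Subgroup G3 := (FreeGroup.lift (genP β)).range.map P0.subtype

theorem pr_genP (β : ℕ → Bool) (i : ℤ) : pr (genP β i) = rho i := by
  have ea : pr ahat = SpecialLinearGroup.toGL sa := Units.ext rfl
  have eb : ∀ w, pr (bhat w) = SpecialLinearGroup.toGL sb := fun w => Units.ext rfl
  simp only [genP, rho, map_mul, map_inv, map_zpow, ea, eb]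

theorem pr_lift (β : ℕ → Bool) (w : FreeGroup ℤ) :
    pr (FreeGroup.lift (genP β) w) = FreeGroup.lift rho w := by
  have : pr.comp (FreeGroup.lift (genP β)) = FreeGroup.lift rho := by
    ext1 i; simp [pr_genP]
  exact DFunLike.congr_fun this w

theorem P0_stab {K : Subgroup G3} (h : K ≤ P0) : Stab K ![0, 0, 1] := by
  intro g hg
  have h1 := h hg
  have e : ![0, 0, 1] ᵥ* mat g = ![0, 0, mat g 2 2] := by
    simp only [ext3, vecMul, dot3]; simp [h1.1, h1.2]
  rw [e]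
  rcases Int.eq_one_or_neg_one_of_mul_eq_one' (P0_det h1) with h2 | h2 <;> simp [h2.2]

theorem fix_iff {g : P0} : (∀ x, ![0, 0, 1] ⬝ᵥ x = 0 → mat g *ᵥ x = x) ↔ pr g = 1 := by
  constructor
  · intro h
    have a := h ![1, 0, 0] (by simp)
    have b := h ![0, 1, 0] (by simp)
    simp only [ext3, mulVec, dot3] at a b
    simp at a b
    apply Units.ext
    rw [pr_val, a.1, a.2.1, b.1, b.2.1, Units.val_one, one_fin_two]
  · intro h x hx
    obtain ⟨a1, a2, a3, a4, -⟩ := ker_entries (g := g) h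
    rw [dot3] at hx
    simp only [ext3, mulVec, dot3]
    simp at hx
    simp [a1, a2, a3, a4, g.2.1, g.2.2, hx]

theorem liftH_lift (β : ℕ → Bool) : IsPlaneLift ![0, 0, 1] (liftH β) := by
  refine ⟨P0_stab (Subgroup.map_subtype_le _), ?_⟩
  rintro _ ⟨_, ⟨w, rfl⟩, rfl⟩ h
  have := fix_iff.1 h
  rw [pr_lift, map_eq_one_iff _ rho_inj] at this
  simp [this]

theorem liftH_centres (β : ℕ → Bool) : Centres (liftH β) ![0, 0, 1] := by
  intro x hx0 hx
  rw [dot3] at hx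
  simp at hx
  have hg : 0 < Int.gcd (x 0) (x 1) := by
    rw [Int.gcd_pos_iff]
    by_contra hn
    push Not at hn
    exact hx0 (ext3.2 ⟨hn.1, hn.2, hx⟩)
  obtain ⟨p, q, h1, h2, h3⟩ := Int.exists_gcd_one hg
  have hc := Int.isCoprime_iff_gcd_eq_one.2 h1
  obtain ⟨w, hw⟩ := cusp_mem hc
  rw [← pr_lift β, pr_val] at hw
  set h := FreeGroup.lift (genP β) w with hh
  have hm : (h : G3) ∈ liftH β := ⟨h, ⟨w, rfl⟩, rfl⟩
  have a0 := congrFun (congrFun hw 0) 0
  have a1 := congrFun (congrFun hw 0) 1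
  have a2 := congrFun (congrFun hw 1) 0
  have a3 := congrFun (congrFun hw 1) 1
  simp only [of_apply, cons_val', cons_val_zero, cons_val_one, cons_val_fin_one] at a0 a1 a2 a3
  have a4 : mat h 2 2 = 1 := by rw [← P0_det' h.2, a0, a1, a2, a3]; ring
  have e : mat (h * h : G3) =
      tv ![p, q, 0] ![12 * q, -12 * p, -6 * (q * mat h 0 2 - p * mat h 1 2)] := by
    rw [mat_mul]
    ext i j
    fin_cases i <;> fin_cases j <;>
      simp [mul_apply, Fin.sum_univ_three, tv_apply, a0, a1, a2, a3, a4, h.2.1, h.2.2] <;> ring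
  have hm2 := Mem.zsmul ⟨_, (liftH β).mul_mem hm hm, e⟩ (Int.gcd (x 0) (x 1))
  have ex : (Int.gcd (x 0) (x 1) : ℤ) • ![p, q, 0] = x := by
    generalize (Int.gcd (x 0) (x 1) : ℤ) = d at h2 h3
    simp only [ext3, Pi.smul_apply, smul_eq_mul]
    simp [h2, h3, hx, mul_comm]
  rw [ex] at hm2
  refine ⟨_, fun e0 => ?_, hm2⟩
  simp only [ext3] at e0
  simp at e0
  simp [e0.1, e0.2.1] at h1

theorem exists_max_lift {f : V3} {H : Subgroup G3} (h : IsPlaneLift f H) :
    ∃ M, H ≤ M ∧ IsPlaneLift f M ∧ ∀ K, IsPlaneLift f K → M ≤ K → K = M := by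
  obtain ⟨M, hle, hM⟩ := zorn_le_nonempty₀ {K | IsPlaneLift f K} (fun c hc hch y hy => by
    have key : ∀ g, g ∈ sSup c → ∃ s ∈ c, g ∈ s := fun g =>
      (Subgroup.mem_sSup_of_directedOn ⟨y, hy⟩ hch.directedOn).1
    refine ⟨sSup c, ⟨fun g hg => ?_, fun g hg => ?_⟩, fun z hz => le_sSup hz⟩
    · obtain ⟨s, hs, hg⟩ := key g hg
      exact (hc hs).1 g hg
    · obtain ⟨s, hs, hg⟩ := key g hg
      exact (hc hs).2 g hg) H h
  exact ⟨M, hle, hM.1, fun K hK hMK => le_antisymm (hM.2 hK hMK) hMK⟩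

theorem continuum_lifts : ∃ S : Set (Subgroup G3), #S = 𝔠 ∧
    (∀ H ∈ S, MaxHP H ∧ IsPlaneLift ![0, 0, 1] H) ∧
    ∀ H ∈ S, ∀ K ∈ S, H ≠ K → ¬ ∃ γ : G3, ∀ g, g ∈ K ↔ γ * g * γ⁻¹ ∈ H := by
  choose M hle hM hmax using fun β => exists_max_lift (liftH_lift β)
  refine continuum_classes M (fun β β' e => ?_) fun β =>
    ⟨maxHP_of_lift (by simp) ((liftH_centres β).mono (hle β)) (hM β) (hmax β), hM β⟩
  funext n
  have m : ∀ β, (genP β n : G3) ∈ M β := fun β =>
    hle β ⟨genP β n, ⟨FreeGroup.of (n : ℤ), by simp⟩, rfl⟩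
  have m1 := m β
  have m2 := m β'
  rw [← e] at m2
  have h1 := (hM β).2 _ ((M β).mul_mem m1 ((M β).inv_mem m2))
    (fix_iff (g := genP β n * (genP β' n)⁻¹).2 (by simp [pr_genP]))
  have h2 : genP β n = genP β' n := Subtype.ext (mul_inv_eq_one.1 h1)
  simp only [genP, mul_left_inj, mul_right_inj, Int.toNat_natCast] at h2
  have h3 : (if β n then (1 : ℤ) else 0) = if β' n then 1 else 0 :=
    congrArg (fun g : P0 => mat g 0 2) h2
  revert h3
  cases β n <;> cases β' n <;> simp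

end Pool.Agent.MP_5045a8_al
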