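import Pool.Agent.MP_5045a8_al.Std

/-! Subgroups with a full line of centres of transvections; rational Levi subgroups. -/

namespace Pool.Agent.MP_5045a8_al

open Matrix

theorem planeLift_iff {f : V3} {K : Subgroup G3} : IsPlaneLift f K ↔
    Stab K f ∧ ∀ g ∈ K, (∀ x, f ⬝ᵥ x = 0 → mat g *ᵥ x = x) → g = 1 := Iff.rfl

theorem IsPlaneLift.hp {f : V3} (hf : f ≠ 0) {K : Subgroup G3} (h : IsPlaneLift f K) : HP K := by
  obtain ⟨hs, h⟩ := planeLift_iff.1 h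
  obtain ⟨γ, d, e⟩ := exists_std f
  have hd : d ≠ 0 := fun e' => vecMul_ne hf γ (by simp [e, e'])
  have hle : cj γ K ≤ P0 := Stab.le_P0 hd (e ▸ hs.cj γ)
  refine HP.of_cj (γ := γ) (hp_GL2.of_injective (pr.comp (Subgroup.inclusion hle)) ?_)
  rw [injective_iff_map_eq_one]
  intro a ha
  obtain ⟨a1, a2, a3, a4, -⟩ := ker_entries (g := Subgroup.inclusion hle a) ha
  have a5 := hle a.2
  have := h _ (mem_cj.1 a.2) fun x hx => by
    have h2 : (mat γ⁻¹ *ᵥ x) 2 = 0 := by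
      have : (f ᵥ* mat γ) ⬝ᵥ (mat γ⁻¹ *ᵥ x) = 0 := by
        rw [← dotProduct_mulVec, mulVec_mulVec, mat_mul_inv, one_mulVec, hx]
      rw [e, dot3] at this
      simpa [hd] using this
    have h3 : mat a *ᵥ (mat γ⁻¹ *ᵥ x) = mat γ⁻¹ *ᵥ x := by
      generalize mat γ⁻¹ *ᵥ x = y at h2
      simp only [Subgroup.coe_inclusion] at a1 a2 a3 a4
      simp [ext3, mulVec, dot3, a1, a2, a3, a4, a5.1, a5.2, h2]
    rw [mat_mul, mat_mul, ← mulVec_mulVec, ← mulVec_mulVec, h3, mulVec_mulVec, mat_mul_inv,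
      one_mulVec]
  exact Subtype.ext (by simpa [mul_inv_eq_one] using this)

theorem fix_plane {f : V3} (hf : f ≠ 0) {g : G3} (h : ∀ x, f ⬝ᵥ x = 0 → mat g *ᵥ x = x) :
    (f ⬝ᵥ f) • (mat g - 1) = vecMulVec (mat g *ᵥ f - f) f ∧ f ⬝ᵥ (mat g *ᵥ f - f) = 0 := by
  have hp := (dot_self_pos hf).ne'
  have e : (f ⬝ᵥ f) • (mat g - 1) = vecMulVec (mat g *ᵥ f - f) f := by
    ext i j
    have := congrFun (h ((f ⬝ᵥ f) • Pi.single j 1 - f j • f) (by
      rw [dotProduct_sub, dotProduct_smul, dotProduct_smul, dotProduct_single_one]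
      simp [mul_comm])) i
    rw [mulVec_sub, mulVec_smul, mulVec_smul, mulVec_single_one] at this
    simp only [Pi.sub_apply, Pi.smul_apply, smul_eq_mul, col_apply, Pi.single_apply] at this
    simp only [Matrix.smul_apply, Matrix.sub_apply, smul_eq_mul, vecMulVec_apply, Pi.sub_apply,
      Matrix.one_apply]
    linear_combination this
  refine ⟨e, ?_⟩
  have h1 : ((f ⬝ᵥ f) • mat g).det = (f ⬝ᵥ f) ^ 3 := by rw [det_smul, mat_det]; simp
  rw [smul_sub, sub_eq_iff_eq_add] at e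
  rw [e] at h1
  generalize mat g *ᵥ f - f = y at h1
  generalize f ⬝ᵥ f = n at h1 hp
  have h2 : (vecMulVec y f + n • (1 : M3)).det = n ^ 3 + n ^ 2 * (f ⬝ᵥ y) := by
    simp only [det_fin_three, vecMulVec_apply, dot3, Matrix.add_apply, Matrix.smul_apply,
      smul_eq_mul, Matrix.one_apply]
    simp
    ring
  rw [h2] at h1
  simpa [hp] using h1

theorem mem_of_fix {K : Subgroup G3} {f : V3} (hf : f ≠ 0) {g : G3} (hg : g ∈ K) (h1 : g ≠ 1)
    (h : ∀ x, f ⬝ᵥ x = 0 → mat g *ᵥ x = x) : ∃ y, y ≠ 0 ∧ Mem K (tv y f) := by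
  obtain ⟨e, h0⟩ := fix_plane hf h
  have hp := dot_self_pos hf
  generalize mat g *ᵥ f - f = y at e h0
  have hW : (mat g - 1) * (mat g - 1) = 0 := by
    have : ((f ⬝ᵥ f) • (mat g - 1)) * ((f ⬝ᵥ f) • (mat g - 1)) = 0 := by
      rw [e, vecMulVec_mul_vecMulVec, h0]; simp
    rw [smul_mul_smul_comm] at this
    exact (smul_eq_zero.1 this).resolve_left (by positivity)
  have hk : ∀ k : ℕ, mat (g ^ k) = 1 + (k : ℤ) • (mat g - 1) := by
    intro k
    induction k with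
    | zero => simp [mat_one]
    | succ k ih =>
      have : mat g = 1 + (mat g - 1) := by simp
      rw [pow_succ, mat_mul, ih]
      generalize mat g - 1 = W at this hW
      rw [this, add_mul, mul_add, mul_add, smul_mul_assoc, smul_mul_assoc, hW]
      simp only [mul_one, one_mul, smul_zero, Nat.cast_succ, add_smul, one_smul]
      abel
  refine ⟨y, fun e0 => h1 (mat_ext ?_), g ^ (f ⬝ᵥ f).toNat, K.pow_mem hg _, ?_⟩
  · rw [e0, zero_vecMulVec] at e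
    exact sub_eq_zero.1 ((smul_eq_zero.1 e).resolve_left hp.ne')
  · rw [hk, Int.toNat_of_nonneg hp.le, e]; rfl

theorem exists_indep {f y : V3} (hf : f ≠ 0) (hy : y ≠ 0) (h : f ⬝ᵥ y = 0) :
    ∃ x, x ≠ 0 ∧ f ⬝ᵥ x = 0 ∧ cr y x ≠ 0 := by
  have h1 : cr f y ≠ 0 := cr_ne_of_dot hy h (dot_self_pos hf).ne'
  exact ⟨_, h1, dot_cr_left _ _, cr_ne_of_dot h1 (dot_cr_right _ _) (dot_self_pos hy).ne'⟩

theorem Centres.lat {K : Subgroup G3} {f y : V3} (h : Centres K f) (hf : f ≠ 0) (hy : y ≠ 0)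
    (hm : Mem K (tv y f)) : LatAx K f := by
  obtain ⟨x, hx0, hx, hc⟩ := exists_indep hf hy hm.dot
  obtain ⟨φ, hφ, hm'⟩ := h x hx0 hx
  by_cases h1 : φ ⬝ᵥ y = 0
  · exact lat_of_par hm hm' hf hφ (cr_trans hc (cr_of_perp hm.dot hx) (cr_of_perp h1 hm'.dot)) hc
  · exact lat_of_comm hm hm' hf hx0 hx h1

theorem maxHP_of_lift {H : Subgroup G3} {f : V3} (hf : f ≠ 0) (hc : Centres H f)
    (h : IsPlaneLift f H) (hm : ∀ K, IsPlaneLift f K → H ≤ K → K = H) : MaxHP H := by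
  refine ⟨h.hp hf, fun K hlt hK => ?_⟩
  have hcK := hc.mono hlt.le
  by_cases hfa : ∀ g ∈ K, (∀ x, f ⬝ᵥ x = 0 → mat g *ᵥ x = x) → g = 1
  · exact hlt.ne' (hm K ⟨hcK.stab hK hf, hfa⟩ hlt.le)
  push Not at hfa
  obtain ⟨g, hg, h1, h2⟩ := hfa
  obtain ⟨y, hy, hmy⟩ := mem_of_fix hf hg h2 h1
  obtain ⟨-, N, hN, hl⟩ := hcK.lat hf hy hmy
  obtain ⟨x, hx0, hx, hyx⟩ := exists_indep hf hy hmy.dot
  have key : ∀ {a b φ : V3}, a ≠ 0 → φ ≠ 0 → f ⬝ᵥ a = 0 → f ⬝ᵥ b = 0 → cr a b ≠ 0 →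
      Mem H (tv a φ) → (N • b) ⬝ᵥ φ ≠ 0 := by
    intro a b φ ha hφ h1 h2 hab hm' e
    rw [smul_dotProduct, smul_eq_zero, dotProduct_comm] at e
    have hp := cr_trans hab (cr_of_perp h1 h2) (cr_of_perp hm'.dot (e.resolve_left hN))
    obtain ⟨t, ht, et⟩ := hm'
    have := h.2 t ht fun z hz => by
      change mat t *ᵥ z = z
      rw [et, tv_mulVec, par_dot_zero hp hf hz]; simp
    rw [this, mat_one, tv, left_eq_add, vecMulVec_eq_zero] at et
    tauto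
  obtain ⟨φ, hφ, m1⟩ := hc y hy hmy.dot
  obtain ⟨φ', hφ', m2⟩ := hc x hx0 hx
  exact no_pair hK.tr hf (hl y hmy.dot).tr_tv (hl x hx).tr_tv
    ((m1.mono hlt.le).zsmul N).tr_tv ((m2.mono hlt.le).zsmul N).tr_tv
    (key hy hφ hmy.dot hx hyx m1) (key hx0 hφ' hx hmy.dot (cr_ne_comm hyx) m2)

theorem line_iff {H : Subgroup G3} {f : V3} (hf : f ≠ 0) (hc : Centres H f) :
    MaxHP H ↔ IsBlockType H ∨ (IsPlaneLift f H ∧ ∀ K, IsPlaneLift f K → H ≤ K → K = H) := by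
  refine ⟨fun h => ?_, fun h => h.elim IsBlockType.maxHP fun h => maxHP_of_lift hf hc h.1 h.2⟩
  by_cases hfa : ∀ g ∈ H, (∀ x, f ⬝ᵥ x = 0 → mat g *ᵥ x = x) → g = 1
  · refine Or.inr ⟨⟨hc.stab h.1 hf, hfa⟩, fun K hK hle => ?_⟩
    by_contra hne
    exact h.2 K (lt_of_le_of_ne hle (Ne.symm hne)) (hK.hp hf)
  push Not at hfa
  obtain ⟨g, hg, h1, h2⟩ := hfa
  obtain ⟨y, hy, hmy⟩ := mem_of_fix hf hg h2 h1
  exact Or.inl (block_of_lat h (hc.lat hf hy hmy))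

theorem mem_Levi {v f : V3} {g : G3} : g ∈ Levi v f ↔ (mat g *ᵥ v = v ∨ mat g *ᵥ v = -v) ∧
    (f ᵥ* mat g = f ∨ f ᵥ* mat g = -f) := Iff.rfl

theorem tr_Levi (v f : V3) : tr (Levi v f) = Levi f v := by
  ext g
  rw [mem_tr, mem_Levi, mem_Levi, mat_transpose, mulVec_transpose, vecMul_transpose, and_comm]

theorem levi_lift {v f : V3} (h : f ⬝ᵥ v ≠ 0) : IsPlaneLift f (Levi v f) := by
  have hf : f ≠ 0 := fun e => h (by simp [e])
  refine ⟨fun g hg => hg.2, fun g hg h1 => ?_⟩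
  obtain ⟨e, h0⟩ := fix_plane hf h1
  have hp := (dot_self_pos hf).ne'
  generalize mat g *ᵥ f - f = y at e h0
  have e1 := congrArg (· *ᵥ v) e
  simp only [smul_mulVec, sub_mulVec, one_mulVec, vecMulVec_mulVec, op_smul_eq_smul] at e1
  rcases (mem_Levi.1 hg).1 with h2 | h2 <;> rw [h2] at e1
  · rw [sub_self, smul_zero, eq_comm, smul_eq_zero] at e1
    rw [e1.resolve_left h, zero_vecMulVec] at e
    exact mat_ext (sub_eq_zero.1 ((smul_eq_zero.1 e).resolve_left hp))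
  · have e2 := congrArg (f ⬝ᵥ ·) e1
    simp only [dotProduct_smul, dotProduct_sub, dotProduct_neg, h0, smul_eq_mul] at e2
    exact absurd (by linarith : f ⬝ᵥ f * (f ⬝ᵥ v) = 0) (mul_ne_zero hp h)

theorem levi_centres {v f : V3} (h : f ⬝ᵥ v ≠ 0) {K : Subgroup G3}
    (hi : K.relIndex (Levi v f) ≠ 0) : Centres K f := by
  intro x hx0 hx
  have hc : cr v x ≠ 0 := cr_ne_of_dot hx0 hx h
  let t : G3 := mk3 (tv x (cr v x)) (by rw [det_tv, dotProduct_comm, dot_cr_right, add_zero])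
  have ht : t ∈ Levi v f := by
    refine ⟨Or.inl ?_, Or.inl ?_⟩
    · change tv x (cr v x) *ᵥ v = v
      rw [tv_mulVec, dotProduct_comm, dot_cr_left]; simp
    · change f ᵥ* tv x (cr v x) = f
      rw [vecMul_tv, hx]; simp
  obtain ⟨n, hn, -, hm⟩ := Subgroup.exists_pow_mem_of_relIndex_ne_zero hi ht
  refine ⟨(n : ℤ) • cr v x, smul_ne_zero (by exact_mod_cast hn.ne') hc, t ^ n, hm.1, ?_⟩
  rw [← zpow_natCast, zpow_tv (g := t) rfl, tv_smul]

theorem tr_relIndex {K L : Subgroup G3} (h : K.relIndex L ≠ 0) : (tr K).relIndex (tr L) ≠ 0 := by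
  let σ : G3 →* G3 := MonoidHom.mk' (fun g => (g.transpose)⁻¹) fun a b => by
    rw [transpose_mul', _root_.mul_inv_rev]
  have e : ∀ K : Subgroup G3, tr K = K.comap σ := fun K => by
    ext g; simp [mem_tr, σ]
  rw [e, e]
  exact Subgroup.relIndex_comap_ne_zero σ h

theorem le_Levi {v f : V3} (h : f ⬝ᵥ v ≠ 0) {K : Subgroup G3} (hK : HP K)
    (hi : K.relIndex (Levi v f) ≠ 0) : K ≤ Levi v f := by
  have hf : f ≠ 0 := fun e => h (by simp [e])
  have hv : v ≠ 0 := fun e => h (by simp [e])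
  have h1 := (levi_centres h hi).stab hK hf
  have hi' := tr_relIndex hi
  rw [tr_Levi] at hi'
  have h2 := (levi_centres (by rwa [dotProduct_comm]) hi').stab hK.tr hv
  intro g hg
  refine ⟨?_, h1 g hg⟩
  have := h2 g.transpose hg
  rwa [mat_transpose, vecMul_transpose] at this

theorem levi_iff {v f : V3} (h : f ⬝ᵥ v ≠ 0) {H : Subgroup G3}
    (hi : H.relIndex (Levi v f) ≠ 0) : MaxHP H ↔ H = Levi v f := by
  have hf : f ≠ 0 := fun e => h (by simp [e])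
  have hL := (levi_lift h).hp hf
  constructor
  · intro hm
    by_contra hne
    exact hm.2 _ (lt_of_le_of_ne (le_Levi h hm.1 hi) hne) hL
  · rintro rfl
    refine ⟨hL, fun K hlt hK => hlt.not_ge (le_Levi h hK ?_)⟩
    rw [Subgroup.relIndex_eq_one.2 hlt.le]
    exact one_ne_zero

end Pool.Agent.MP_5045a8_al
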