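import Pool.Agent.Mg.F5045a8.Gcbdcbf

/-! Maximal Haagerup subgroups of SL(3,Z) whose transvections have centres at all rational
points of a line. -/

namespace Pool.Agent.MP_5045a8_al.LineOld

open Pool.Agent.MP_5045a8_al Matrix

theorem result (H : Subgroup G3) (f : Fin 3 → ℤ) (hf : f ≠ 0)
    (hc : ∀ x : Fin 3 → ℤ, x ≠ 0 → f ⬝ᵥ x = 0 → ∃ φ : Fin 3 → ℤ, φ ≠ 0 ∧
      ∃ t ∈ H, (t : Matrix (Fin 3) (Fin 3) ℤ) = 1 + vecMulVec x φ) :
    IsMaxHaagerup H ↔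
      IsBlockType H ∨ (IsPlaneLift f H ∧ ∀ K, IsPlaneLift f K → H ≤ K → K = H) :=
  (isMax_iff H).trans (line_iff hf hc)

end Pool.Agent.MP_5045a8_al.LineOld
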