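import Pool.Agent.MP_5045a8_al.O.Le
import Pool.Agent.MP_5045a8_al.O.Hp

/-! Integral orthogonal groups of indefinite ternary forms that contain an involution are maximal
Haagerup subgroups of SL(3,Z). -/

namespace Pool.Agent.MP_5045a8_al.OrthogonalOld

open Pool.Agent.MP_5045a8_al Matrix

theorem result (B : Matrix (Fin 3) (Fin 3) ℤ) (hs : Bᵀ = B) (hd : B.det ≠ 0)
    (hp : ∃ u : Fin 3 → ℤ, 0 < u ⬝ᵥ B *ᵥ u) (hn : ∃ v : Fin 3 → ℤ, v ⬝ᵥ B *ᵥ v < 0)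
    (H : Subgroup G3) (hi : H.relIndex (SOq B) ≠ 0) (s : G3) (hsH : s ∈ H) (h1 : s ≠ 1)
    (h2 : s ^ 2 = 1) : IsMaxHaagerup H ↔ H = SOq B := by
  have h : O.Ind B := ⟨hs, hd, hp, hn⟩
  rw [isMax_iff]
  constructor
  · rintro ⟨hH, hm⟩
    by_contra hne
    exact hm _ (lt_of_le_of_ne (O.le_SOq h hH hi hsH h1 h2) hne) (O.hp_SOq h)
  · rintro rfl
    refine ⟨O.hp_SOq h, fun K hK hH => hK.not_ge (O.le_SOq h hH ?_ (hK.le hsH) h1 h2)⟩
    rw [Subgroup.relIndex_eq_one.2 hK.le]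
    exact one_ne_zero

end Pool.Agent.MP_5045a8_al.OrthogonalOld
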