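import Pool.Agent.MP_5045a8_al.Lat

/-! Standard position: the parabolic subgroup with bottom row (0, 0, *) and block groups. -/

namespace Pool.Agent.MP_5045a8_al

open Matrix

/-- Maximality for the approximation form of the Haagerup property. -/
def MaxHP (H : Subgroup G3) : Prop := HP H ∧ ∀ K : Subgroup G3, H < K → ¬ HP K

instance countable_G3 : Countable G3 :=
  Function.Injective.countable (f := fun (g : G3) (p : Fin 3 × Fin 3) => mat g p.1 p.2)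
    fun _ _ e => mat_ext (by ext i j; exact congrFun e (i, j))

theorem haagerup_iff (H : Subgroup G3) : Haagerup H ↔ HP H := ⟨Haagerup.hp, HP.haagerup⟩

theorem isMax_iff (H : Subgroup G3) : IsMaxHaagerup H ↔ MaxHP H := by
  simp only [IsMaxHaagerup, MaxHP, haagerup_iff]

/-- The conjugate subgroup. -/
def cj (γ : G3) (K : Subgroup G3) : Subgroup G3 := K.comap (MulAut.conj γ).toMonoidHom

theorem mem_cj {γ g : G3} {K : Subgroup G3} : g ∈ cj γ K ↔ γ * g * γ⁻¹ ∈ K := Iff.rfl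

theorem mem_cj' {γ g : G3} {K : Subgroup G3} : γ⁻¹ * g * γ ∈ cj γ K ↔ g ∈ K := by
  rw [mem_cj]; simp [mul_assoc]

theorem cj_cj (γ : G3) (K : Subgroup G3) : cj γ (cj γ⁻¹ K) = K := by
  ext g; simp [mem_cj, mul_assoc]

theorem cj_le {γ : G3} {K L : Subgroup G3} : cj γ K ≤ cj γ L ↔ K ≤ L :=
  ⟨fun h _ hg => mem_cj'.1 (h (mem_cj'.2 hg)), fun h _ hg => h hg⟩

theorem cj_lt {γ : G3} {K L : Subgroup G3} : cj γ K < cj γ L ↔ K < L := by
  simp only [lt_iff_le_not_ge, cj_le]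

theorem HP.cj {K : Subgroup G3} (h : HP K) (γ : G3) : HP (cj γ K) :=
  h.of_injective (MonoidHom.mk' (fun g => ⟨γ * g.1 * γ⁻¹, g.2⟩) fun a b => by
    ext1; simp [mul_assoc]) fun a b e => by
    have : γ * a.1 * γ⁻¹ = γ * b.1 * γ⁻¹ := congrArg Subtype.val e
    exact Subtype.ext (by simpa using this)

theorem HP.of_cj {K : Subgroup G3} {γ : G3} (h : HP (MP_5045a8_al.cj γ K)) : HP K := by
  have := h.cj γ⁻¹
  have e := cj_cj γ⁻¹ K
  rw [inv_inv] at e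
  rwa [e] at this

theorem MaxHP.cj {H : Subgroup G3} (h : MaxHP H) (γ : G3) : MaxHP (cj γ H) :=
  ⟨h.1.cj γ, fun K hK hp => h.2 (MP_5045a8_al.cj γ⁻¹ K)
    (by rw [← cj_lt (γ := γ), cj_cj]; exact hK) (hp.cj _)⟩

theorem MaxHP.of_cj {H : Subgroup G3} {γ : G3} (h : MaxHP (MP_5045a8_al.cj γ H)) : MaxHP H := by
  have := h.cj γ⁻¹
  have e := cj_cj γ⁻¹ H
  rw [inv_inv] at e
  rwa [e] at this

theorem MaxHP.tr {H : Subgroup G3} (h : MaxHP H) : MaxHP (tr H) :=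
  ⟨h.1.tr, fun K hK hp => h.2 (MP_5045a8_al.tr K) (tr_lt.2 hK) hp.tr⟩

theorem Mem.cj {K : Subgroup G3} {u f : V3} (h : Mem K (tv u f)) (γ : G3) :
    Mem (cj γ K) (tv (mat γ⁻¹ *ᵥ u) (f ᵥ* mat γ)) := by
  obtain ⟨g, hg, e⟩ := h
  refine ⟨_, mem_cj'.2 hg, ?_⟩
  have := tv_conj γ⁻¹ u f
  rw [inv_inv] at this
  rw [mat_mul, mat_mul, e, this]

theorem vecMul_ne {f : V3} (hf : f ≠ 0) (γ : G3) : f ᵥ* mat γ ≠ 0 := fun e => hf (by
  have := congrArg (· ᵥ* mat γ⁻¹) e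
  simpa [vecMul_vecMul, mat_mul_inv] using this)

theorem mulVec_ne {u : V3} (hu : u ≠ 0) (γ : G3) : mat γ *ᵥ u ≠ 0 := fun e => hu (by
  have := congrArg (mat γ⁻¹ *ᵥ ·) e
  simpa [mulVec_mulVec, mat_inv_mul] using this)

theorem LatAx.cj {K : Subgroup G3} {f : V3} (h : LatAx K f) (γ : G3) :
    LatAx (cj γ K) (f ᵥ* mat γ) := by
  obtain ⟨h0, N, hN, h⟩ := h
  refine ⟨vecMul_ne h0 γ, N, hN, fun x hx => ?_⟩
  have := (h (mat γ *ᵥ x) (by rw [dotProduct_mulVec, hx])).cj γ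
  rwa [mulVec_smul, mulVec_mulVec, mat_inv_mul, one_mulVec] at this

theorem Stab.cj {K : Subgroup G3} {f : V3} (h : Stab K f) (γ : G3) :
    Stab (cj γ K) (f ᵥ* mat γ) := by
  intro g hg
  have e : f ᵥ* mat γ ᵥ* mat g = f ᵥ* mat (γ * g * γ⁻¹) ᵥ* mat γ := by
    simp only [vecMul_vecMul, ← mat_mul]; simp
  rw [e]
  rcases h _ (mem_cj.1 hg) with h | h <;> rw [h]
  · exact Or.inl rfl
  · exact Or.inr (neg_vecMul _ _)

theorem bezout (a b : ℤ) : ∃ p q r s : ℤ, p * s - q * r = 1 ∧ a * p + b * r = 0 := by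
  by_cases h : Int.gcd a b = 0
  · rw [Int.gcd_eq_zero_iff] at h
    exact ⟨1, 0, 0, 1, by simp, by simp [h.1]⟩
  obtain ⟨a', b', h1, h2, h3⟩ := Int.exists_gcd_one (Nat.pos_of_ne_zero h)
  obtain ⟨u, v, huv⟩ := Int.isCoprime_iff_gcd_eq_one.2 h1
  generalize (Int.gcd a b : ℤ) = d at h2 h3
  exact ⟨b', u, -a', v, by linear_combination huv, by rw [h2, h3]; ring⟩

/-- An element of SL(3,Z) from a matrix of determinant one. -/
def mk3 (M : M3) (h : M.det = 1) : G3 := ⟨M, h⟩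

theorem mat_mk3 (M : M3) (h : M.det = 1) : mat (mk3 M h) = M := rfl

theorem exists_std (f : V3) : ∃ (γ : G3) (d : ℤ), f ᵥ* mat γ = ![0, 0, d] := by
  obtain ⟨p, q, r, s, h1, h2⟩ := bezout (f 0) (f 1)
  obtain ⟨p', q', r', s', h1', h2'⟩ := bezout (f 0 * q + f 1 * s) (f 2)
  refine ⟨mk3 !![p, q, 0; r, s, 0; 0, 0, 1] (by simp [det_fin_three, h1]) *
    mk3 !![1, 0, 0; 0, p', q'; 0, r', s'] (by simp [det_fin_three, h1']),
    (f 0 * q + f 1 * s) * q' + f 2 * s', ?_⟩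
  rw [mat_mul, ← vecMul_vecMul]
  simp only [mat_mk3, ext3, vecMul, dot3]
  simp
  exact ⟨h2, h2'⟩

/-- The standard parabolic subgroup. -/
def P0 : Subgroup G3 where
  carrier := {g | mat g 2 0 = 0 ∧ mat g 2 1 = 0}
  one_mem' := by simp [mat_one]
  mul_mem' := fun {a b} ha hb => by
    simp only [Set.mem_ofPred_eq, mat_mul, mul_apply, Fin.sum_univ_three] at *
    simp [ha.1, ha.2, hb.1, hb.2]
  inv_mem' := fun {a} ha => by
    have e : mat a⁻¹ = adjugate (mat a) := rfl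
    simp only [Set.mem_ofPred_eq, e, adjugate_fin_three] at *
    simp [ha.1, ha.2]

theorem mem_P0 {g : G3} : g ∈ P0 ↔ mat g 2 0 = 0 ∧ mat g 2 1 = 0 := Iff.rfl

theorem P0_det {g : G3} (h : g ∈ P0) :
    (mat g 0 0 * mat g 1 1 - mat g 0 1 * mat g 1 0) * mat g 2 2 = 1 := by
  have := mat_det g
  rw [det_fin_three, h.1, h.2] at this
  linear_combination this

theorem P0_det' {g : G3} (h : g ∈ P0) :
    mat g 0 0 * mat g 1 1 - mat g 0 1 * mat g 1 0 = mat g 2 2 :=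
  Int.eq_of_mul_eq_one (P0_det h)

theorem Stab.le_P0 {K : Subgroup G3} {d : ℤ} (hd : d ≠ 0) (h : Stab K ![0, 0, d]) : K ≤ P0 := by
  intro g hg
  rcases h g hg with h | h <;> simp [ext3, vecMul, hd] at h <;> exact ⟨h.1, h.2.1⟩

/-- The upper left block. -/
noncomputable def pr : P0 →* G2 :=
  MonoidHom.mk' (fun g => GeneralLinearGroup.mk'' !![mat g 0 0, mat g 0 1; mat g 1 0, mat g 1 1]
    (by rw [det_fin_two_of]; exact IsUnit.of_mul_eq_one _ (P0_det g.2))) fun a b => by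
    apply Units.ext
    change !![mat (a.1 * b.1) 0 0, mat (a.1 * b.1) 0 1; mat (a.1 * b.1) 1 0, mat (a.1 * b.1) 1 1] =
      !![mat a 0 0, mat a 0 1; mat a 1 0, mat a 1 1] * !![mat b 0 0, mat b 0 1; mat b 1 0, mat b 1 1]
    simp [mat_mul, mul_apply, Fin.sum_univ_three, b.2.1, b.2.2]

theorem pr_val (g : P0) : ((pr g : G2) : Matrix (Fin 2) (Fin 2) ℤ) =
    !![mat g 0 0, mat g 0 1; mat g 1 0, mat g 1 1] := rfl

theorem pr_surj : Function.Surjective pr := by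
  intro A
  refine ⟨⟨⟨!![A 0 0, A 0 1, 0; A 1 0, A 1 1, 0; 0, 0, A 0 0 * A 1 1 - A 0 1 * A 1 0], ?_⟩,
    ⟨rfl, rfl⟩⟩, Units.ext ?_⟩
  · rw [← G2.det_sq A]; simp [det_fin_three]; ring
  · rw [pr_val]; exact (Matrix.eta_fin_two _).symm

/-- The block group over C. -/
noncomputable def EC (C : Subgroup G2) : Subgroup G3 := (C.comap pr).map P0.subtype

/-- The image of a subgroup in GL(2,Z). -/
noncomputable def prK (K : Subgroup G3) : Subgroup G2 := (K.subgroupOf P0).map pr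

theorem mem_EC {C : Subgroup G2} {g : G3} : g ∈ EC C ↔ ∃ h : g ∈ P0, pr ⟨g, h⟩ ∈ C :=
  ⟨fun ⟨a, ha, e⟩ => by subst e; exact ⟨a.2, ha⟩, fun ⟨h, hc⟩ => ⟨⟨g, h⟩, hc, rfl⟩⟩

theorem mem_EC' {C : Subgroup G2} {g : G3} : g ∈ EC C ↔ InBlock C (mat g) := by
  rw [mem_EC]
  constructor
  · rintro ⟨h, hc⟩
    exact ⟨h.1, h.2, _, hc, rfl⟩
  · rintro ⟨h1, h2, A, hA, e⟩
    refine ⟨⟨h1, h2⟩, ?_⟩
    rwa [show pr ⟨g, ⟨h1, h2⟩⟩ = A from Units.ext e.symm]

theorem ker_entries {g : P0} (h : g ∈ pr.ker) : mat g 0 0 = 1 ∧ mat g 0 1 = 0 ∧ mat g 1 0 = 0 ∧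
    mat g 1 1 = 1 ∧ mat g 2 2 = 1 := by
  have e := pr_val g
  rw [MonoidHom.mem_ker.1 h, Units.val_one, one_fin_two] at e
  have a := congrFun (congrFun e 0) 0
  have b := congrFun (congrFun e 0) 1
  have c := congrFun (congrFun e 1) 0
  have d := congrFun (congrFun e 1) 1
  simp at a b c d
  refine ⟨a.symm, b.symm, c.symm, d.symm, ?_⟩
  rw [← P0_det' g.2, ← a, ← b, ← d]; simp

theorem hp_ker : HP pr.ker := by
  refine hp_Z2.of_injective (MonoidHom.mk'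
    (fun g => Multiplicative.ofAdd ![mat g.1 0 2, mat g.1 1 2]) fun a b => ?_) fun a b e => ?_
  · obtain ⟨a1, a2, a3, a4, a5⟩ := ker_entries a.2
    obtain ⟨b1, b2, b3, b4, b5⟩ := ker_entries b.2
    rw [← ofAdd_add]
    congr 1
    simp only [Subgroup.coe_mul, mat_mul, mul_apply, Fin.sum_univ_three, a1, a2, a3, a4, b5]
    simp [add_comm]
  · obtain ⟨a1, a2, a3, a4, a5⟩ := ker_entries a.2
    obtain ⟨b1, b2, b3, b4, b5⟩ := ker_entries b.2
    have e' : ![mat a.1 0 2, mat a.1 1 2] = ![mat b.1 0 2, mat b.1 1 2] := e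
    simp only [vecCons_inj, and_true] at e'
    refine Subtype.ext (Subtype.ext (mat_ext ?_))
    rw [Matrix.eta_fin_three (mat a.1), Matrix.eta_fin_three (mat b.1), a1, a2, a3, a4, a5,
      b1, b2, b3, b4, b5, e'.1, e'.2, a.1.2.1, a.1.2.2, b.1.2.1, b.1.2.2]

theorem hp_EC {C : Subgroup G2} (h : VirtCyclic C) : HP (EC C) := by
  obtain ⟨c, hc, hi⟩ := h
  obtain ⟨t, ht⟩ := pr_surj c
  have h1 : HP ((Subgroup.zpowers c).comap pr) := by
    refine HP.of_cyclic (H := pr.ker.subgroupOf _)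
      (hp_ker.of_injective (MonoidHom.mk' (fun g => ⟨g.1.1, g.2⟩) fun _ _ => rfl)
        fun a b e => Subtype.ext (Subtype.ext (Subtype.mk.inj e)))
      ⟨t, by rw [Subgroup.mem_comap, ht]; exact Subgroup.mem_zpowers c⟩ fun γ => ?_
    obtain ⟨m, hm⟩ := γ.2
    refine ⟨m, ?_⟩
    simp only at hm
    simp [Subgroup.mem_subgroupOf, MonoidHom.mem_ker, ht, ← hm]
  have h2 : HP (C.comap pr) := by
    refine HP.of_finiteIndex (H := ((Subgroup.zpowers c).comap pr).subgroupOf _)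
      (h1.of_injective (MonoidHom.mk' (fun g => ⟨g.1.1, g.2⟩) fun _ _ => rfl)
        fun a b e => Subtype.ext (Subtype.ext (Subtype.mk.inj e)))
      (Subgroup.relIndex_comap_ne_zero pr hi)
  exact h2.of_injective (Subgroup.equivMapOfInjective _ _ P0.subtype_injective).symm.toMonoidHom
    (MulEquiv.injective _)

theorem vc_of_lat {K : Subgroup G3} (hK : HP K) {d : ℤ} (h : LatAx K ![0, 0, d]) :
    VirtCyclic (prK K) := by
  obtain ⟨hd, N, hN, h⟩ := h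
  have hd' : d ≠ 0 := fun e => hd (by simp [e])
  have hk : ∀ k : Fin 2 → ℤ, ∃ g : K, mat g = tv (N • ![-k 1, k 0, 0]) ![0, 0, d] := fun k => by
    obtain ⟨g, hg, e⟩ := h ![-k 1, k 0, 0] (by simp)
    exact ⟨⟨g, hg⟩, e⟩
  choose τ hτ using hk
  have hext : ∀ a b : K, mat a = mat b → a = b := fun a b e => Subtype.ext (mat_ext e)
  refine burger (τ := τ) hK (fun k l => ?_) (fun k l e => ?_) ?_
  · rw [eq_inv_mul_iff_mul_eq]
    apply hext
    rw [Subgroup.coe_mul, mat_mul, hτ, hτ, hτ, tv_mul_axis (by simp)]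
    congr 1
    simp; constructor <;> ring
  · have e1 := hτ k
    rw [e, hτ] at e1
    have a := congrFun (congrFun e1 0) 2
    have b := congrFun (congrFun e1 1) 2
    simp [tv_apply, hN, hd'] at a b
    funext i
    fin_cases i <;> simp [a, b]
  · rintro _ ⟨g, hg, rfl⟩
    refine ⟨⟨g, hg⟩, fun k => ?_⟩
    rw [mul_assoc, inv_mul_eq_iff_eq_mul]
    apply hext
    have e := P0_det' g.2
    simp only [Subgroup.coe_mul, mat_mul, hτ, pr_val]
    ext i j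
    fin_cases i <;> fin_cases j <;>
      simp [mul_apply, Fin.sum_univ_three, tv_apply, g.2.1, g.2.2, vecMul, dotProduct, ← e] <;> ring

theorem le_EC {K : Subgroup G3} (h : K ≤ P0) : K ≤ EC (prK K) := fun g hg =>
  mem_EC.2 ⟨h hg, ⟨g, h hg⟩, hg, rfl⟩

theorem prK_EC (C : Subgroup G2) : prK (EC C) = C := by
  apply le_antisymm
  · rintro _ ⟨g, hg, rfl⟩
    exact (mem_EC.1 hg).2
  · intro A hA
    obtain ⟨g, rfl⟩ := pr_surj A
    exact ⟨g, mem_EC.2 ⟨g.2, hA⟩, rfl⟩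

theorem prK_mono {K L : Subgroup G3} (h : K ≤ L) : prK K ≤ prK L :=
  Subgroup.map_mono fun _ hg => h hg

theorem EC_mono {C D : Subgroup G2} (h : C ≤ D) : EC C ≤ EC D :=
  Subgroup.map_mono (Subgroup.comap_mono h)

theorem lat_EC (C : Subgroup G2) : LatAx (EC C) ![0, 0, 1] := by
  refine ⟨by simp, 1, one_ne_zero, fun x hx => ?_⟩
  refine ⟨mk3 (tv ((1 : ℤ) • x) ![0, 0, 1]) (by rw [det_tv, one_smul, hx, add_zero]),
    mem_EC'.2 ⟨?_, ?_, 1, C.one_mem, ?_⟩, rfl⟩ <;> simp [mat_mk3, tv_apply, one_fin_two]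

theorem maxHP_EC {C : Subgroup G2} (h : VirtCyclic C) (hm : ∀ D, C < D → ¬ VirtCyclic D) :
    MaxHP (EC C) := by
  refine ⟨hp_EC h, fun K hlt hK => ?_⟩
  have hl := (lat_EC C).mono hlt.le
  have h1 : C ≤ prK K := by rw [← prK_EC C]; exact prK_mono hlt.le
  have h2 : C = prK K := by
    by_contra hne
    exact hm _ (lt_of_le_of_ne h1 hne) (vc_of_lat hK hl)
  exact hlt.not_ge (h2 ▸ le_EC ((hl.stab hK).le_P0 one_ne_zero))

theorem MaxHP.eq_EC {H : Subgroup G3} (h : MaxHP H) (hle : H ≤ P0) (hv : VirtCyclic (prK H)) :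
    H = EC (prK H) ∧ ∀ D, prK H < D → ¬ VirtCyclic D := by
  have e : H = EC (prK H) := by
    by_contra hne
    exact h.2 _ (lt_of_le_of_ne (le_EC hle) hne) (hp_EC hv)
  refine ⟨e, fun D hD hv' => h.2 (EC D) (lt_of_le_of_ne (e ▸ EC_mono hD.le) fun e' => ?_)
    (hp_EC hv')⟩
  rw [e', prK_EC] at hD
  exact lt_irrefl _ hD

theorem IsBlockType.tr {H : Subgroup G3} (h : IsBlockType H) : IsBlockType (tr H) := by
  obtain ⟨γ, C, h1, h2, h⟩ := h
  have e : ∀ g : G3, γ⁻¹ * g.transpose * γ = ((γ.transpose⁻¹)⁻¹ * g * γ.transpose⁻¹).transpose :=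
    fun g => by
      simp only [transpose_mul', transpose_inv', transpose_transpose', inv_inv, mul_assoc]
  refine ⟨γ.transpose⁻¹, C, h1, h2, ?_⟩
  rcases h with h | h
  · exact Or.inr fun g => by rw [mem_tr, h, e]; rfl
  · exact Or.inl fun g => by rw [mem_tr, h, e]; rfl

theorem IsBlockType.maxHP {H : Subgroup G3} (h : IsBlockType H) : MaxHP H := by
  have key : ∀ (H : Subgroup G3) (γ : G3) (C : Subgroup G2), VirtCyclic C →
      (∀ D, C < D → ¬ VirtCyclic D) → (∀ g : G3, g ∈ H ↔ InBlock C (mat (γ⁻¹ * g * γ))) →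
      MaxHP H := by
    intro H γ C h1 h2 h
    refine MaxHP.of_cj (γ := γ) ?_
    have : cj γ H = EC C := by
      ext g; rw [mem_cj, h, mem_EC']; simp [mul_assoc]
    rw [this]; exact maxHP_EC h1 h2
  obtain ⟨γ, C, h1, h2, h' | h'⟩ := h
  · exact key H γ C h1 h2 h'
  · refine MaxHP.tr (H := MP_5045a8_al.tr H) (key _ γ.transpose⁻¹ C h1 h2 fun g => ?_)
    rw [mem_tr, h']
    have e : γ⁻¹ * g.transpose * γ = ((γ.transpose⁻¹)⁻¹ * g * γ.transpose⁻¹).transpose := by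
      simp only [transpose_mul', transpose_inv', transpose_transpose', inv_inv, mul_assoc]
    rw [e]; rfl

theorem block_of_std {H : Subgroup G3} (h : MaxHP H) {γ : G3} (hle : cj γ H ≤ P0)
    (hv : VirtCyclic (prK (cj γ H))) : IsBlockType H := by
  obtain ⟨e, hm⟩ := (h.cj γ).eq_EC hle hv
  exact ⟨γ, _, hv, hm, Or.inl fun g => by rw [← mem_cj' (γ := γ), e, mem_EC', ← e]; rfl⟩

theorem block_of_lat {H : Subgroup G3} (h : MaxHP H) {f : V3} (hl : LatAx H f) :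
    IsBlockType H := by
  obtain ⟨γ, d, e⟩ := exists_std f
  have h1 := hl.cj γ
  rw [e] at h1
  have hd : d ≠ 0 := fun e => h1.1 (by simp [e])
  exact block_of_std h ((h1.stab (h.1.cj γ)).le_P0 hd) (vc_of_lat (h.1.cj γ) h1)

theorem block_of_lat' {H : Subgroup G3} (h : MaxHP H) {u : V3} (hl : LatAx (tr H) u) :
    IsBlockType H := (block_of_lat h.tr hl).tr

end Pool.Agent.MP_5045a8_al
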