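import Pool.Agent.MP_5045a8_al.GL2

/-! Virtually cyclic subgroups of GL(2,Z): line stabilisers. -/

namespace Pool.Agent.MP_5045a8_al

open Finset Filter Topology Matrix

/-- The determinant of two plane vectors. -/
def d2 (x y : Fin 2 → ℝ) : ℝ := x 0 * y 1 - x 1 * y 0

/-- The action of GL(2,Z) on the real plane. -/
def act (g : G2) (z : Fin 2 → ℝ) : Fin 2 → ℝ :=
  (g : Matrix (Fin 2) (Fin 2) ℤ).map (Int.cast : ℤ → ℝ) *ᵥ z

/-- The determinant as a real number. -/
def dt (g : G2) : ℝ := ((g 0 0 * g 1 1 - g 0 1 * g 1 0 : ℤ) : ℝ)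

theorem act_apply (g : G2) (z : Fin 2 → ℝ) (i : Fin 2) :
    act g z i = (g i 0 : ℤ) * z 0 + (g i 1 : ℤ) * z 1 := by
  simp [act, mulVec, dotProduct, Fin.sum_univ_two]

theorem act_mul (g h : G2) (z : Fin 2 → ℝ) : act (g * h) z = act g (act h z) := by
  funext i
  simp only [act_apply, G2.mul_apply]
  push_cast; ring

theorem act_one (z : Fin 2 → ℝ) : act 1 z = z := by
  funext i
  fin_cases i <;> simp [act_apply]

theorem act_inv (g : G2) (z : Fin 2 → ℝ) : act g⁻¹ (act g z) = z := by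
  rw [← act_mul, inv_mul_cancel, act_one]

theorem act_inv' (g : G2) (z : Fin 2 → ℝ) : act g (act g⁻¹ z) = z := by
  rw [← act_mul, mul_inv_cancel, act_one]

theorem act_smul (g : G2) (t : ℝ) (z : Fin 2 → ℝ) : act g (t • z) = t • act g z := by
  simp [act, mulVec_smul]

theorem act_add (g : G2) (y z : Fin 2 → ℝ) : act g (y + z) = act g y + act g z := by
  simp [act, mulVec_add]

theorem act_ne (g : G2) {z : Fin 2 → ℝ} (h : z ≠ 0) : act g z ≠ 0 := by
  intro e
  apply h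
  rw [← act_inv g z, e]; simp [act]

theorem d2_act (g : G2) (x y : Fin 2 → ℝ) : d2 (act g x) (act g y) = dt g * d2 x y := by
  simp only [d2, act_apply, dt]
  push_cast; ring

theorem dt_cases (g : G2) : dt g = 1 ∨ dt g = -1 := by
  unfold dt
  rcases G2.det_cases g with h | h <;> rw [h] <;> simp

theorem dt_mul (g h : G2) : dt (g * h) = dt g * dt h := by
  simp only [dt, G2.mul_apply]
  push_cast; ring

theorem dt_one : dt 1 = 1 := by simp [dt]

theorem abs_d2_act (g : G2) (x y : Fin 2 → ℝ) : |d2 (act g x) (act g y)| = |d2 x y| := by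
  rw [d2_act, abs_mul]
  rcases dt_cases g with h | h <;> simp [h]

theorem d2_act_eq_zero (g : G2) (x y : Fin 2 → ℝ) : d2 (act g x) (act g y) = 0 ↔ d2 x y = 0 := by
  rw [← abs_eq_zero, abs_d2_act, abs_eq_zero]

theorem ne_zero_iff2 {R : Type} [Zero R] {a : Fin 2 → R} : a ≠ 0 ↔ a 0 ≠ 0 ∨ a 1 ≠ 0 := by
  rw [Ne, funext_iff, Fin.forall_fin_two]; simp only [Pi.zero_apply]; tauto

theorem par {a x : Fin 2 → ℝ} (ha : a ≠ 0) (h : d2 x a = 0) : ∃ t : ℝ, x = t • a := by
  unfold d2 at h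
  rcases ne_zero_iff2.1 ha with h0 | h0
  · refine ⟨x 0 / a 0, funext fun i => ?_⟩
    fin_cases i <;> simp <;> field_simp
    linarith
  · refine ⟨x 1 / a 1, funext fun i => ?_⟩
    fin_cases i <;> simp <;> field_simp
    linarith

theorem relIndex_of_colour {G β : Type} [Group G] [Finite β] {S0 S : Subgroup G} (c : G → β)
    (h : ∀ g ∈ S, ∀ k ∈ S, c g = c k → g⁻¹ * k ∈ S0) : S0.relIndex S ≠ 0 := by
  have : Finite (S ⧸ S0.subgroupOf S) := by
    refine Finite.of_injective (fun q => c (Quotient.out q : S)) fun q q' e => ?_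
    have := h _ (Quotient.out q : S).2 _ (Quotient.out q' : S).2 e
    have h2 : (Quotient.out q : S)⁻¹ * Quotient.out q' ∈ S0.subgroupOf S := this
    simpa using QuotientGroup.eq.2 h2
  exact Subgroup.index_ne_zero_of_finite

theorem VirtCyclic.of_relIndex {S0 S : Subgroup G2} (h : VirtCyclic S0) (hle : S0 ≤ S)
    (hi : S0.relIndex S ≠ 0) : VirtCyclic S := by
  obtain ⟨c, hc, h⟩ := h
  exact ⟨c, hle hc, Subgroup.relIndex_ne_zero_trans h hi⟩

theorem vc_of_hom {S : Subgroup G2} (f : G2 → ℝ) (hf : ∀ g ∈ S, ∀ h ∈ S, f (g * h) = f g + f h)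
    (hinj : ∀ g ∈ S, f g = 0 → g = 1) {ε : ℝ} (hε : 0 < ε)
    (hd : ∀ g ∈ S, f g ≠ 0 → ε ≤ |f g|) : VirtCyclic S := by
  let F : S →* Multiplicative ℝ := MonoidHom.mk' (fun g => Multiplicative.ofAdd (f g))
    fun g h => by simp [hf _ g.2 _ h.2, ofAdd_add]
  let A : AddSubgroup ℝ := F.range.toAddSubgroup'
  obtain ⟨b, hb⟩ := AddSubgroup.cyclic_of_isolated_zero (H := A) hε (by
    rw [Set.disjoint_left]
    rintro x ⟨g, hg⟩ ⟨h0, h1⟩
    have e : f g = x := hg
    have := hd g g.2 (by rw [e]; exact h0.ne')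
    rw [e, abs_of_pos h0] at this
    linarith)
  have hbA : b ∈ A := by rw [hb]; exact AddSubgroup.subset_closure rfl
  obtain ⟨c, hc⟩ := hbA
  refine ⟨c, c.2, ?_⟩
  rw [Subgroup.relIndex_eq_one.2]
  · exact one_ne_zero
  intro g hg
  have hgA : f g ∈ A := ⟨⟨g, hg⟩, rfl⟩
  rw [hb, AddSubgroup.mem_closure_singleton] at hgA
  obtain ⟨n, hn⟩ := hgA
  have h1 : F ((c ^ n)⁻¹ * ⟨g, hg⟩) = 1 := by
    rw [map_mul, map_inv, map_zpow, hc, inv_mul_eq_one]
    exact congrArg Multiplicative.ofAdd hn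
  have h1' : f (((c ^ n)⁻¹ * (⟨g, hg⟩ : S) : S) : G2) = 0 := congrArg Multiplicative.toAdd h1
  have h2 := hinj _ ((c ^ n)⁻¹ * (⟨g, hg⟩ : S) : S).2 h1'
  refine ⟨n, ?_⟩
  simpa [inv_mul_eq_one] using h2

theorem eig_bound {g : G2} (hd : dt g = 1) {a : Fin 2 → ℝ} (ha : a ≠ 0) {l : ℝ} (hl : 0 < l)
    (h : act g a = l • a) (h1 : l ≠ 1) : 2 ≤ l ∨ l ≤ 1 / 2 := by
  have e0 := congrFun h 0
  have e1 := congrFun h 1
  simp only [act_apply, Pi.smul_apply, smul_eq_mul] at e0 e1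
  unfold dt at hd
  push_cast at hd
  have hq : l ^ 2 - ((g 0 0 + g 1 1 : ℤ) : ℝ) * l + 1 = 0 := by
    push_cast
    rcases ne_zero_iff2.1 ha with h0 | h0
    · apply mul_left_cancel₀ h0
      linear_combination ((g 1 1 : ℤ) - l) * e0 - (g 0 1 : ℤ) * e1 - a 0 * hd
    · apply mul_left_cancel₀ h0
      linear_combination ((g 0 0 : ℤ) - l) * e1 - (g 1 0 : ℤ) * e0 - a 1 * hd
  generalize g 0 0 + g 1 1 = t at hq
  have h2 : (2 : ℝ) < t := by
    have : 0 < (l - 1) ^ 2 := by positivity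
    by_contra hle
    nlinarith
  have h3 : (3 : ℝ) ≤ t := by
    have : (2 : ℤ) < t := by exact_mod_cast h2
    exact_mod_cast this
  by_contra hn
  push Not at hn
  nlinarith [hn.1, hn.2]

theorem eig_int {g : G2} {z : Fin 2 → ℤ} (hz : z ≠ 0) {l : ℝ} (hl : 0 < l)
    (h : act g (fun i => (z i : ℝ)) = l • fun i => (z i : ℝ)) : 1 ≤ l := by
  by_contra hlt
  push Not at hlt
  have hp : ∀ n : ℕ, act (g ^ n) (fun i => (z i : ℝ)) = l ^ n • fun i => (z i : ℝ) := by
    intro n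
    induction n with
    | zero => simp [act_one]
    | succ n ih => rw [pow_succ, act_mul, h, act_smul, ih, smul_smul, pow_succ']
  obtain ⟨i, hi⟩ := Function.ne_iff.1 hz
  have hi' : (0 : ℝ) < |(z i : ℝ)| := abs_pos.2 (by exact_mod_cast hi)
  obtain ⟨n, hn⟩ := exists_pow_lt_of_lt_one (inv_pos.2 hi') hlt
  have e := congrFun (hp n) i
  simp only [act_apply, Pi.smul_apply, smul_eq_mul] at e
  have e2 : (((g ^ n) i 0 * z 0 + (g ^ n) i 1 * z 1 : ℤ) : ℝ) = l ^ n * z i := by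
    push_cast; exact e
  generalize (g ^ n) i 0 * z 0 + (g ^ n) i 1 * z 1 = m at e2
  have h3 : |(m : ℝ)| < 1 := by
    rw [e2, abs_mul, abs_of_pos (by positivity)]
    rwa [inv_eq_one_div, lt_div_iff₀ hi'] at hn
  have h4 : m = 0 := by
    have : |m| < 1 := by exact_mod_cast h3
    exact Int.abs_lt_one_iff.1 this
  rw [h4] at e2
  have : 0 < |l ^ n * z i| := by rw [abs_mul]; positivity
  rw [← e2] at this
  simp at this

theorem eq_one_of_fix {g : G2} {y z : Fin 2 → ℝ} (hyz : d2 z y ≠ 0) (hy : act g y = y)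
    (hz : act g z = z) : g = 1 := by
  have y0 := congrFun hy 0
  have y1 := congrFun hy 1
  have z0 := congrFun hz 0
  have z1 := congrFun hz 1
  simp only [act_apply] at y0 y1 z0 z1
  unfold d2 at hyz
  have a : ((g 0 0 : ℤ) : ℝ) = 1 := mul_left_cancel₀ hyz (by linear_combination y 1 * z0 - z 1 * y0)
  have b : ((g 0 1 : ℤ) : ℝ) = 0 := mul_left_cancel₀ hyz (by linear_combination z 0 * y0 - y 0 * z0)
  have c : ((g 1 0 : ℤ) : ℝ) = 0 := mul_left_cancel₀ hyz (by linear_combination y 1 * z1 - z 1 * y1)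
  have d : ((g 1 1 : ℤ) : ℝ) = 1 := mul_left_cancel₀ hyz (by linear_combination z 0 * y1 - y 0 * z1)
  ext i j
  fin_cases i <;> fin_cases j <;> simp <;> assumption_mod_cast

theorem vc_of_line {S : Subgroup G2} {a : Fin 2 → ℝ} (ha : a ≠ 0)
    (hS : ∀ g ∈ S, d2 (act g a) a = 0) : VirtCyclic S := by
  have hex : ∀ g : G2, ∃ l : ℝ, g ∈ S → act g a = l • a := fun g => by
    by_cases hg : g ∈ S
    · obtain ⟨t, ht⟩ := par ha (hS g hg)
      exact ⟨t, fun _ => ht⟩
    · exact ⟨0, fun h => (hg h).elim⟩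
  choose lam hlam using hex
  have hcan : ∀ s t : ℝ, s • a = t • a → s = t := fun s t h => smul_left_injective ℝ ha h
  have hmul : ∀ g ∈ S, ∀ h ∈ S, lam (g * h) = lam g * lam h := fun g hg h hh => hcan _ _ (by
    rw [← hlam _ (S.mul_mem hg hh), act_mul, hlam h hh, act_smul, hlam g hg, smul_smul, mul_comm])
  have h1 : lam 1 = 1 := hcan _ _ (by rw [← hlam _ S.one_mem, act_one, one_smul])
  have hinv : ∀ g ∈ S, lam g * lam g⁻¹ = 1 := fun g hg => by
    rw [← hmul g hg _ (S.inv_mem hg), mul_inv_cancel, h1]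
  have hdinv : ∀ g : G2, dt g * dt g⁻¹ = 1 := fun g => by rw [← dt_mul, mul_inv_cancel, dt_one]
  let S0 : Subgroup G2 :=
    { carrier := {g | g ∈ S ∧ dt g = 1 ∧ 0 < lam g}
      one_mem' := ⟨S.one_mem, dt_one, by rw [h1]; exact one_pos⟩
      mul_mem' := fun {g h} hg hh => ⟨S.mul_mem hg.1 hh.1, by rw [dt_mul, hg.2.1, hh.2.1, one_mul],
        by rw [hmul g hg.1 h hh.1]; exact mul_pos hg.2.2 hh.2.2⟩
      inv_mem' := fun {g} hg => ⟨S.inv_mem hg.1, by simpa [hg.2.1] using hdinv g,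
        (pos_iff_pos_of_mul_pos (by rw [hinv g hg.1]; exact one_pos)).1 hg.2.2⟩ }
  have hne : ∀ g ∈ S, lam g ≠ 0 := fun g hg e => by simpa [e] using hinv g hg
  refine VirtCyclic.of_relIndex (S0 := S0) ?_ (fun g hg => hg.1)
    (relIndex_of_colour (fun g => (dt g = 1, 0 < lam g)) fun g hg k hk e => ?_)
  swap
  · simp only [Prod.mk.injEq, eq_iff_iff] at e
    have hgk := S.mul_mem (S.inv_mem hg) hk
    have e1 : dt k = dt g * dt (g⁻¹ * k) := by rw [← dt_mul, mul_inv_cancel_left]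
    have e2 : lam k = lam g * lam (g⁻¹ * k) := by rw [← hmul _ hg _ hgk, mul_inv_cancel_left]
    refine ⟨hgk, ?_, ?_⟩
    · rcases dt_cases g with a1 | a1 <;> rcases dt_cases k with a2 | a2 <;>
        rw [a1, a2] at e1 e <;> norm_num at e <;> linarith
    · rcases lt_or_gt_of_ne (hne g hg) with a1 | a1
      · have a2 : lam k < 0 := lt_of_le_of_ne (not_lt.1 fun h => (e.2.2 h).not_gt a1) (hne k hk)
        by_contra hn
        nlinarith
      · have a2 := e.2.1 a1
        by_contra hn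
        nlinarith
  by_cases hcase : ∀ g ∈ S0, lam g = 1 → g = 1
  · refine vc_of_hom (fun g => Real.log (lam g)) (fun g hg h hh => ?_) (fun g hg e => ?_)
      (Real.log_pos one_lt_two) fun g hg e => ?_
    · rw [hmul g hg.1 h hh.1, Real.log_mul hg.2.2.ne' hh.2.2.ne']
    · exact hcase g hg (Real.eq_one_of_pos_of_log_eq_zero hg.2.2 e)
    · rcases eig_bound hg.2.1 ha hg.2.2 (hlam g hg.1) (fun h => e (by simp [h])) with h | h
      · exact (Real.log_le_log two_pos h).trans (le_abs_self _)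
      · have := Real.log_le_log hg.2.2 h
        rw [one_div, Real.log_inv] at this
        linarith [neg_le_abs (Real.log (lam g))]
  push Not at hcase
  obtain ⟨g0, hg0, hl0, hne0⟩ := hcase
  obtain ⟨p, q, hpq, hz⟩ : ∃ p q : ℤ, (p ≠ 0 ∨ q ≠ 0) ∧ p * a 0 + q * a 1 = 0 := by
    have e := hlam g0 hg0.1
    rw [hl0, one_smul] at e
    have e0 := congrFun e 0
    have e1 := congrFun e 1
    simp only [act_apply] at e0 e1
    by_cases h : g0 0 0 - 1 ≠ 0 ∨ g0 0 1 ≠ 0
    · exact ⟨_, _, h, by push_cast; linarith⟩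
    refine ⟨g0 1 0, g0 1 1 - 1, ?_, by push_cast; linarith⟩
    by_contra h'
    push Not at h h'
    apply hne0
    ext i j
    fin_cases i <;> fin_cases j <;> simp <;> omega
  let z : Fin 2 → ℤ := ![-q, p]
  have hz0 : z ≠ 0 := by
    rw [ne_zero_iff2]; simp only [z, Matrix.cons_val_zero, Matrix.cons_val_one]; omega
  let zr : Fin 2 → ℝ := fun i => z i
  let y : Fin 2 → ℝ := ![p, q]
  obtain ⟨μ, hμ⟩ := par (x := zr) ha (by simp [d2, zr, z]; linarith)
  have hzl : ∀ g ∈ S, act g zr = lam g • zr := fun g hg => by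
    rw [hμ, act_smul, hlam g hg, smul_comm]
  have hl1 : ∀ g ∈ S0, lam g = 1 := fun g hg => by
    have a1 := eig_int hz0 hg.2.2 (hzl g hg.1)
    have hg' := S0.inv_mem hg
    have a2 := eig_int hz0 hg'.2.2 (hzl _ hg'.1)
    nlinarith [hinv g hg.1]
  have hfix : ∀ g ∈ S0, act g zr = zr := fun g hg => by rw [hzl g hg.1, hl1 g hg, one_smul]
  have hzy : d2 zr y ≠ 0 := by
    have : (0 : ℤ) < p ^ 2 + q ^ 2 := by rcases hpq with h | h <;> positivity
    have : (0 : ℝ) < p ^ 2 + q ^ 2 := by exact_mod_cast this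
    simp [d2, zr, z, y]; nlinarith
  have hzr0 : zr ≠ 0 := by
    intro e; apply hzy; simp [e, d2]
  have hw : ∀ g ∈ S0, ∃ t : ℝ, act g y = y + t • zr := fun g hg => by
    have e := d2_act g zr y
    rw [hfix g hg, hg.2.1, one_mul] at e
    obtain ⟨t, ht⟩ := par (x := act g y - y) hzr0 (by
      simp only [d2, Pi.sub_apply] at e ⊢; linarith)
    exact ⟨t, by rw [← ht]; abel⟩
  refine vc_of_hom (fun g => d2 (act g y) y) (fun g hg h hh => ?_) (fun g hg e => ?_) one_pos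
    fun g hg e => ?_
  · obtain ⟨s, hs⟩ := hw g hg
    obtain ⟨t, ht⟩ := hw h hh
    rw [act_mul, ht, act_add, act_smul, hfix g hg, hs]
    simp only [d2, Pi.add_apply, Pi.smul_apply, smul_eq_mul]
    ring
  · obtain ⟨s, hs⟩ := hw g hg
    refine eq_one_of_fix hzy ?_ (hfix g hg)
    have : s * d2 zr y = 0 := by
      rw [← e, hs]; simp only [d2, Pi.add_apply, Pi.smul_apply, smul_eq_mul]; ring
    rw [hs, (mul_eq_zero.1 this).resolve_right hzy]; simp
  · have : d2 (act g y) y = (((g 0 0 * p + g 0 1 * q) * q - (g 1 0 * p + g 1 1 * q) * p : ℤ) : ℝ) := by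
      simp [d2, act_apply, y]
    rw [this] at e ⊢
    exact_mod_cast Int.one_le_abs (by exact_mod_cast e)


end Pool.Agent.MP_5045a8_al
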